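import Pool.Agent.Lib.MP_226de1_co.G.LoopAll

/-! Consequences of the loop (compare `Conseq.lean`, `k = 2`). -/

set_option autoImplicit false

namespace EQG

open Complex Set Filter Topology
open EQ2 (dd dr xv ell pt NNS)

variable {k μ : ℝ} {F : ℕ → ℝ} {ly : ℂ → ℂ}

private theorem ell_pos' (h : HF k μ F) : 0 < ell μ := EQ2.ell_pos h.hμ

private theorem conseq_half (h : HF k μ F) : ell μ / 2 < ell μ := by
  have := ell_pos' h
  linarith

theorem P1_le (h : HF k μ F) (hy : HY k μ F ly) {x : ℂ} (hx : x.re < ell μ / 2) (h0 : 0 ≤ x.im)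
    (h1 : x.im ≤ Real.pi / 2) : (Dx F x).im ≤ 0 := by
  have hr : x.re - ell μ / 2 < 0 := by linarith
  exact QB_P1 h hy hr (QB_all h hy hr.le) x (by linarith) h0 h1

private theorem conseq_nhds {x : ℂ} (hx : x.re < ell μ / 2) (h0 : 0 < x.im)
    (h1 : x.im < Real.pi / 2) :
    ∀ᶠ z in 𝓝 x, z.re < ell μ / 2 ∧ 0 ≤ z.im ∧ z.im ≤ Real.pi / 2 := by
  have e1 : ∀ᶠ z : ℂ in 𝓝 x, z.re < ell μ / 2 :=
    Complex.continuous_re.continuousAt.eventually (gt_mem_nhds hx)
  have e2 : ∀ᶠ z : ℂ in 𝓝 x, 0 < z.im :=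
    Complex.continuous_im.continuousAt.eventually (lt_mem_nhds h0)
  have e3 : ∀ᶠ z : ℂ in 𝓝 x, z.im < Real.pi / 2 :=
    Complex.continuous_im.continuousAt.eventually (gt_mem_nhds h1)
  filter_upwards [e1, e2, e3] with z a b c
  exact ⟨a, b.le, c.le⟩

private theorem conseq_open (b : ℝ) : IsOpen {z : ℂ | z.re < b} :=
  isOpen_lt Complex.continuous_re continuous_const

/-- strict version, by `EQ2.im_neg_of_nonpos`, `Dx_not_loc_const` -/
theorem P1_lt (h : HF k μ F) (hy : HY k μ F ly) {x : ℂ} (hx : x.re < ell μ / 2) (h0 : 0 < x.im)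
    (h1 : x.im < Real.pi / 2) : (Dx F x).im < 0 := by
  have hl := conseq_half h
  have hxl : x.re < ell μ := by linarith
  have han : AnalyticAt ℂ (Dx F) x := by
    have hd : DifferentiableOn ℂ (Dx F) {z : ℂ | z.re < ell μ} := fun z hz =>
      (h.Dx_differentiableAt hz).differentiableWithinAt
    exact hd.analyticAt ((conseq_open _).mem_nhds hxl)
  refine EQ2.im_neg_of_nonpos han ?_ (Dx_not_loc_const h hxl)
  filter_upwards [conseq_nhds hx h0 h1] with z hz
  exact P1_le h hy hz.1 hz.2.1 hz.2.2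

theorem LY_im (h : HF k μ F) (hy : HY k μ F ly) {x : ℂ} (hx : x.re < ell μ / 2)
    (h0 : 0 ≤ x.im) (h1 : x.im ≤ Real.pi / 2) :
    0 ≤ (LY ly x).im ∧ (LY ly x).im ≤ Real.pi / 2 := by
  have hr : x.re - ell μ / 2 < 0 := by linarith
  exact QB_LY h hy hr (QB_all h hy hr.le) x (by linarith) h0 h1

/-- `q' ∈ Q2` on `Re x ≤ 0` -/
theorem deriv_q_Q2 (h : HF k μ F) (hy : HY k μ F ly) {x : ℂ} (hx : x.re ≤ 0) (h0 : 0 ≤ x.im)
    (h1 : x.im ≤ Real.pi / 2) :
    (deriv (qx k μ F ly) x).re ≤ 0 ∧ 0 ≤ (deriv (qx k μ F ly) x).im := by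
  have hl := ell_pos' h
  have hstrict : ∀ z : ℂ, z.re < 0 → 0 ≤ z.im → z.im ≤ Real.pi / 2 →
      (deriv (qx k μ F ly) z).re ≤ 0 ∧ 0 ≤ (deriv (qx k μ F ly) z).im := fun z hz h2 h3 =>
    QB_deriv h hy hz (QB_all h hy hz.le) z le_rfl h2 h3
  have hcont : ContinuousAt (deriv (qx k μ F ly)) x := by
    have hd : DifferentiableOn ℂ (qx k μ F ly) {z : ℂ | z.re < ell μ} := fun z hz =>
      (HY.qx_differentiableAt h hy hz).differentiableWithinAt
    have h2 := hd.deriv (conseq_open _)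
    have h3 : x.re < ell μ := by linarith
    exact (h2.differentiableAt ((conseq_open _).mem_nhds h3)).continuousAt
  have hpath : Tendsto (fun ε : ℝ => (⟨x.re - ε, x.im⟩ : ℂ)) (𝓝[>] 0) (𝓝 x) := by
    have h2 : Continuous (fun ε : ℝ => x - (ε : ℂ)) :=
      continuous_const.sub Complex.continuous_ofReal
    have h3 : Tendsto (fun ε : ℝ => x - (ε : ℂ)) (𝓝[>] 0) (𝓝 (x - ((0 : ℝ) : ℂ))) :=
      (h2.tendsto 0).mono_left nhdsWithin_le_nhds
    rw [Complex.ofReal_zero, sub_zero] at h3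
    refine h3.congr fun ε => ?_
    apply Complex.ext
    · simp
    · simp
  have hlim := hcont.tendsto.comp hpath
  have hev : ∀ᶠ ε : ℝ in 𝓝[>] 0, 0 < ε := self_mem_nhdsWithin
  constructor
  · refine le_of_tendsto ((Complex.continuous_re.tendsto _).comp hlim) ?_
    filter_upwards [hev] with ε hε
    refine (hstrict ⟨x.re - ε, x.im⟩ ?_ h0 h1).1
    show x.re - ε < 0
    linarith
  · refine ge_of_tendsto ((Complex.continuous_im.tendsto _).comp hlim) ?_
    filter_upwards [hev] with ε hε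
    refine (hstrict ⟨x.re - ε, x.im⟩ ?_ h0 h1).2
    show x.re - ε < 0
    linarith

theorem rD_strictAnti' (h : HF k μ F) (hy : HY k μ F ly) : StrictAntiOn (rD F) (Set.Iio (ell μ / 2)) :=
  rD_strictAnti h (conseq_half h).le fun _ hx h0 h1 => P1_le h hy hx h0 h1

theorem rD_neg' (h : HF k μ F) (hy : HY k μ F ly) {t : ℝ} (ht : t < ell μ / 2) : rD F t < 0 :=
  rD_neg h (conseq_half h).le (fun _ hx h0 h1 => P1_le h hy hx h0 h1) ht

private theorem conseq_vert {f : ℂ → ℂ} {c s : ℝ} (hf : DifferentiableAt ℂ f ⟨c, s⟩) :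
    HasDerivAt (fun s : ℝ => (f ⟨c, s⟩).re) (-(deriv f ⟨c, s⟩).im) s := by
  have h1 : HasDerivAt (fun s : ℝ => (⟨c, s⟩ : ℂ)) Complex.I s := by
    have h2 : HasDerivAt (fun s : ℝ => (c : ℂ) + (s : ℂ) * Complex.I) (0 + 1 * Complex.I) s :=
      (hasDerivAt_const s (c : ℂ)).add (Complex.ofRealCLM.hasDerivAt.mul_const Complex.I)
    rw [zero_add, one_mul] at h2
    refine h2.congr_of_eventuallyEq (Eventually.of_forall fun t => ?_)
    apply Complex.ext
    · simp
    · simp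
  have h3 : HasDerivAt (fun s : ℝ => f ⟨c, s⟩) (Complex.I • deriv f ⟨c, s⟩) s :=
    HasDerivAt.scomp (h := fun s : ℝ => (⟨c, s⟩ : ℂ)) s hf.hasDerivAt h1
  have h4 := Complex.reCLM.hasFDerivAt.comp_hasDerivAt s h3
  have h5 : Complex.reCLM (Complex.I • deriv f ⟨c, s⟩) = -(deriv f ⟨c, s⟩).im := by
    simp
  rw [h5] at h4
  exact h4

/-- `q > 0` on the real half line `t ≤ 0`.  At `t = 0`: `Re q (i s)` is nonincreasing in `s`
(`deriv_q_Q2`), vanishes at `s = π/2` with negative derivative; for `t < 0` use that `rq` is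
antitone on `t ≤ 0` (`deriv_q_Q2` on the real axis). -/
theorem rq_pos (h : HF k μ F) (hy : HY k μ F ly) {t : ℝ} (ht : t ≤ 0) : 0 < rq k μ F ly t := by
  have hl := ell_pos' h
  have htl : t < ell μ := by linarith
  have hpi : 0 < Real.pi / 2 := by positivity
  have hdiff : ∀ s : ℝ, DifferentiableAt ℂ (qx k μ F ly) ⟨t, s⟩ := fun s =>
    HY.qx_differentiableAt h hy htl
  obtain ⟨g, hg⟩ : ∃ g : ℝ → ℝ, g = fun s : ℝ => (qx k μ F ly ⟨t, s⟩).re := ⟨_, rfl⟩
  have hgd : ∀ s, HasDerivAt g (-(deriv (qx k μ F ly) ⟨t, s⟩).im) s := by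
    intro s; rw [hg]; exact conseq_vert (hdiff s)
  have hanti : AntitoneOn g (Icc 0 (Real.pi / 2)) := by
    refine antitoneOn_of_deriv_nonpos (convex_Icc _ _)
      (fun s _ => (hgd s).continuousAt.continuousWithinAt)
      (fun s _ => (hgd s).differentiableAt.differentiableWithinAt) ?_
    intro s hs
    rw [interior_Icc] at hs
    rw [(hgd s).deriv]
    have := (deriv_q_Q2 h hy (x := ⟨t, s⟩) ht hs.1.le hs.2.le).2
    linarith
  have hgtop : g (Real.pi / 2) = 0 := by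
    rw [hg]
    have h1 := HY.qx_top h hy htl
    show (qx k μ F ly (pt t (Real.pi / 2))).re = 0
    rw [h1]
    simp
  have hdtop : -(deriv (qx k μ F ly) ⟨t, Real.pi / 2⟩).im < 0 := by
    have := HY.deriv_qx_top_im h hy ht
    linarith
  have hslope := hasDerivAt_iff_tendsto_slope.mp (hgd (Real.pi / 2))
  have hev1 : ∀ᶠ s in 𝓝[≠] (Real.pi / 2), slope g (Real.pi / 2) s < 0 :=
    hslope.eventually (gt_mem_nhds hdtop)
  have hev2 : ∀ᶠ s in 𝓝[<] (Real.pi / 2), slope g (Real.pi / 2) s < 0 :=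
    hev1.filter_mono (nhdsWithin_mono _ fun s hs => ne_of_lt hs)
  have hev3 : ∀ᶠ s in 𝓝[<] (Real.pi / 2), 0 < s :=
    mem_nhdsWithin_of_mem_nhds (lt_mem_nhds hpi)
  have hev4 : ∀ᶠ s in 𝓝[<] (Real.pi / 2), s < Real.pi / 2 := self_mem_nhdsWithin
  obtain ⟨s, hs1, hs2, hs3⟩ := (hev2.and (hev3.and hev4)).exists
  have hgs : 0 < g s := by
    rw [slope_def_field, hgtop, sub_zero, div_neg_iff] at hs1
    rcases hs1 with h1 | h1
    · exact h1.1
    · linarith [h1.2]
  have hg0 : g s ≤ g 0 := hanti ⟨le_rfl, hpi.le⟩ ⟨hs2.le, hs3.le⟩ hs2.le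
  have h1 : g 0 = rq k μ F ly t := by
    rw [hg]
    have h2 : (⟨t, 0⟩ : ℂ) = (t : ℂ) := rfl
    show (qx k μ F ly ⟨t, 0⟩).re = rq k μ F ly t
    rw [h2, HY.qx_ofReal h hy htl, Complex.ofReal_re]
  rw [← h1]
  linarith

theorem rX_pos (h : HF k μ F) (hy : HY k μ F ly) {t : ℝ} (ht : t ≤ 0) : 0 < rX k μ F t := by
  have h1 := rq_pos h hy ht
  have h2 := rY_pos ly t
  unfold rq at h1
  exact (div_pos_iff_of_pos_right h2).mp h1

private theorem conseq_rq_deriv (h : HF k μ F) (hy : HY k μ F ly) {t : ℝ} (ht : t < ell μ) :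
    HasDerivAt (rq k μ F ly) (deriv (qx k μ F ly) (t : ℂ)).re t := by
  have h2 : HasDerivAt (qx k μ F ly) (deriv (qx k μ F ly) (t : ℂ)) (t : ℂ) :=
    (HY.qx_differentiableAt h hy (by rw [Complex.ofReal_re]; exact ht)).hasDerivAt
  have h3 := h2.real_of_complex
  refine h3.congr_of_eventuallyEq ?_
  filter_upwards [gt_mem_nhds ht] with s hs
  rw [HY.qx_ofReal h hy hs, Complex.ofReal_re]

/-- `q` is strictly decreasing on `t ≤ 0` (`QB_real_deriv` for `t < 0`, continuity) -/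
theorem rq_strictAnti (h : HF k μ F) (hy : HY k μ F ly) :
    StrictAntiOn (rq k μ F ly) (Set.Iic 0) := by
  have hl := ell_pos' h
  refine strictAntiOn_of_deriv_neg (convex_Iic 0) ?_ ?_
  · intro t ht
    have ht' : t < ell μ := lt_of_le_of_lt ht hl
    exact (conseq_rq_deriv h hy ht').continuousAt.continuousWithinAt
  · intro t ht
    rw [interior_Iic] at ht
    have ht0 : t < 0 := ht
    rw [(conseq_rq_deriv h hy (ht0.trans hl)).deriv]
    exact QB_real_deriv h hy ht0 (QB_all h hy ht0.le) le_rfl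

/-- `1 + q²` avoids the slit.  Real `x`: `q` real.  `0 < Im x < π/2`: `NZ_step` at `x - ℓ`
(`Re (x-ℓ) < 0`): `d = D (x-ℓ)`, `d' = D (x-2ℓ)`, `X = X (x-ℓ)`, `Y = Y (x-ℓ)`, hypotheses from `P1_lt`,
`P1_le`, `HF.norm_Dx_lt`, `re_X_div_r` (`QB_zero`, `LY_im`), and `q x = (S X - (μ-1))/(S Y)`
(`HF.Xx_shift`, `HY.Yx_shift`).  `Im x < 0`: conjugation. -/
theorem nz (h : HF k μ F) (hy : HY k μ F ly) {x : ℂ} (hx : x.re < ell μ)
    (hi : |x.im| < Real.pi / 2) : 1 + qx k μ F ly x ^ 2 ∈ Complex.slitPlane := by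
  have key : ∀ z : ℂ, z.re < ell μ → 0 < z.im → z.im < Real.pi / 2 →
      1 + qx k μ F ly z ^ 2 ∈ Complex.slitPlane := by
    intro z hz hz0 hz1
    have hl := ell_pos' h
    have hμ := h.hμ
    have hμc : ((μ : ℂ) - 1) ≠ 0 := by
      have : ((μ - 1 : ℝ) : ℂ) ≠ 0 := by
        rw [Ne, Complex.ofReal_eq_zero]
        linarith
      push_cast at this
      exact this
    set w : ℂ := z - (ell μ : ℂ) with hw
    have hwre : w.re < 0 := by
      rw [hw, Complex.sub_re, Complex.ofReal_re]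
      linarith
    have hwim : w.im = z.im := by
      rw [hw, Complex.sub_im, Complex.ofReal_im, sub_zero]
    set w' : ℂ := w - (ell μ : ℂ) with hw'
    have hwre' : w'.re < 0 := by
      rw [hw', Complex.sub_re, Complex.ofReal_re]
      linarith
    have hwim' : w'.im = z.im := by
      rw [hw', Complex.sub_im, Complex.ofReal_im, sub_zero, hwim]
    have hzw : z = w + (ell μ : ℂ) := by rw [hw]; ring
    have hwl : w.re < ell μ := by linarith
    have hd : ‖Dx F w‖ < 1 := h.norm_Dx_lt hwre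
    have hdi : (Dx F w).im < 0 := P1_lt h hy (by linarith) (by rw [hwim]; exact hz0)
      (by rw [hwim]; exact hz1)
    have hd' : ‖Dx F w'‖ < 1 := h.norm_Dx_lt hwre'
    have hdi' : (Dx F w').im ≤ 0 := P1_le h hy (by linarith) (by rw [hwim']; exact hz0.le)
      (by rw [hwim']; exact hz1.le)
    have hX : 2 * ((μ : ℂ) - 1) * Xx k μ F w =
        2 * ((μ : ℂ) - 1) + Dx F w + ps k μ (Dx F w') := by
      rw [h.Xx_eq w, hw']
      field_simp
      ring
    have hXY := hy.XY_sq h hwl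
    have hYne := Yx_ne ly w
    have hq := QB_zero h hy w hwre.le (by rw [hwim]; exact hz0.le) (by rw [hwim]; exact hz1.le)
    have hLY := LY_im h hy (x := w) (by linarith) (by rw [hwim]; exact hz0.le)
      (by rw [hwim]; exact hz1.le)
    have hY1 : 0 ≤ (Yx ly w).re := by
      unfold Yx
      rw [Complex.exp_re]
      exact mul_nonneg (Real.exp_pos _).le
        (Real.cos_nonneg_of_neg_pi_div_two_le_of_le (by linarith [hLY.1, Real.pi_pos]) hLY.2)
    have hY2 : 0 ≤ (Yx ly w).im := by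
      unfold Yx
      rw [Complex.exp_im]
      exact mul_nonneg (Real.exp_pos _).le
        (Real.sin_nonneg_of_nonneg_of_le_pi hLY.1 (by linarith [hLY.2, Real.pi_pos]))
    have hre := re_X_div_r hdi hYne hXY hq.1 hq.2 hY1 hY2
    have hN := NZ_step h.hk h.hk2 h.hμ hd hdi hd' hdi' hX hXY hYne hre
    have hqz : qx k μ F ly z =
        (Sg k μ (Dx F w) * Xx k μ F w - ((μ : ℂ) - 1)) / (Sg k μ (Dx F w) * Yx ly w) := by
      unfold qx
      rw [hzw, h.Xx_shift hwre, hy.Yx_shift h hwre]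
    rw [hqz]
    exact hN
  rcases lt_trichotomy x.im 0 with h0 | h0 | h0
  · have h1 : x.im < 0 := h0
    rw [abs_of_neg h1] at hi
    have h2 := key ((starRingEnd ℂ) x) (by rw [Complex.conj_re]; exact hx)
      (by rw [Complex.conj_im]; linarith) (by rw [Complex.conj_im]; exact hi)
    rw [hy.qx_conj h hx] at h2
    have h3 : 1 + (starRingEnd ℂ) (qx k μ F ly x) ^ 2 =
        (starRingEnd ℂ) (1 + qx k μ F ly x ^ 2) := by
      rw [map_add, map_one, map_pow]
    rw [h3, Complex.mem_slitPlane_iff, Complex.conj_re, Complex.conj_im, neg_ne_zero] at h2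
    rw [Complex.mem_slitPlane_iff]
    exact h2
  · have hxr : x = ((x.re : ℝ) : ℂ) := by
      apply Complex.ext
      · simp
      · simp [h0]
    rw [hxr, HY.qx_ofReal h hy hx, Complex.mem_slitPlane_iff]
    left
    have : (1 + ((rq k μ F ly x.re : ℝ) : ℂ) ^ 2) = ((1 + rq k μ F ly x.re ^ 2 : ℝ) : ℂ) := by
      push_cast
      rfl
    rw [this, Complex.ofReal_re]
    positivity
  · rw [abs_of_pos h0] at hi
    exact key x hx h0 hi

end EQG
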