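import Pool.Agent.Lib.MP_226de1_co.G.LocalExist2

/-! Global chart: extend the local solution and rescale so that `dd F 1 = 1` (compare `GlobalExt.lean`
one directory up, `k = 2`). -/

set_option autoImplicit false

namespace EQG

open Complex Set Filter Topology
open EQ2 (dd dr xv ell pt NNS)

variable {k μ : ℝ}

private theorem gx_norm_term (a : ℕ → ℝ) (ha : ∀ n, 0 ≤ a n) (z : ℂ) (n : ℕ) :
    ‖(a n : ℂ) * z ^ n‖ = a n * ‖z‖ ^ n := by
  rw [norm_mul, norm_pow, Complex.norm_real, Real.norm_of_nonneg (ha n)]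

private theorem gx_hasSum {a : ℕ → ℝ} (ha : ∀ n, 0 ≤ a n) {z : ℂ}
    (hs : Summable (fun n => a n * ‖z‖ ^ n)) :
    HasSum (fun n => (a n : ℂ) * z ^ n) (dd a z) := by
  have h1 : Summable (fun n => (a n : ℂ) * z ^ n) := by
    apply Summable.of_norm
    simpa only [gx_norm_term a ha z] using hs
  exact h1.hasSum

private theorem gx_dd_ofReal (a : ℕ → ℝ) (t : ℝ) :
    dd a (t : ℂ) = ((∑' n, a n * t ^ n : ℝ) : ℂ) := by
  unfold dd
  rw [Complex.ofReal_tsum]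
  refine tsum_congr fun n => ?_
  push_cast
  ring

/-- extension step; on `|v| < R` the right side of the functional equation minus `ps D + 2μ(μ-1)` is
`gg D + Sg D * ps D₋`, `NNS R` by `NNS.comp`, `NNS_gg`, `NNS_Sg`, `NNS_ps` -/
theorem extend_radius {r₀ R : ℝ} (hk : 1 < k) (hk2 : k ≤ 2) (hμ : 1 < μ) (hr₀ : 0 < r₀)
    (hR : 0 < R) {a : ℕ → ℝ} (h0 : a 0 = 0) (ha : ∀ n, 0 ≤ a n)
    (hs : ∀ t : ℝ, 0 ≤ t → t < R → Summable (fun n => a n * t ^ n) ∧ ∑' n, a n * t ^ n < 1)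
    (hfe : ∀ v : ℂ, ‖v‖ < r₀ →
      dd a ((μ : ℂ) ^ 2 * v) + ps k μ (dd a v) + 2 * (μ : ℂ) * ((μ : ℂ) - 1) =
        Sg k μ (dd a v) * (2 * ((μ : ℂ) - 1) + dd a v + ps k μ (dd a (v / (μ : ℂ) ^ 2)))) :
    (∀ t : ℝ, 0 ≤ t → t < μ ^ 2 * R → Summable (fun n => a n * t ^ n)) ∧
    ∀ v : ℂ, ‖v‖ < R →
      dd a ((μ : ℂ) ^ 2 * v) + ps k μ (dd a v) + 2 * (μ : ℂ) * ((μ : ℂ) - 1) =
        Sg k μ (dd a v) * (2 * ((μ : ℂ) - 1) + dd a v + ps k μ (dd a (v / (μ : ℂ) ^ 2))) := by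
  have hμ0 : (0 : ℝ) < μ := by linarith
  have hm : (0 : ℝ) < μ ^ 2 := by positivity
  have hm1 : (1 : ℝ) ≤ μ ^ 2 := by nlinarith
  have hNa : NNS R (dd a) := ⟨a, ha, fun z hz => gx_hasSum ha (hs _ (norm_nonneg z) hz).1⟩
  have hlt : ∀ t : ℝ, 0 ≤ t → t < R → (dd a (t : ℂ)).re < 1 := by
    intro t h1 h2
    rw [gx_dd_ofReal, Complex.ofReal_re]
    exact (hs t h1 h2).2
  have hS1 : NNS R (fun v => gg k μ (dd a v)) := EQ2.NNS.comp (NNS_gg hk hk2 hμ) hNa hlt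
  have hS3 : NNS R (fun v => Sg k μ (dd a v)) := EQ2.NNS.comp (NNS_Sg hk hk2 hμ) hNa hlt
  have hsc : NNS R (fun v => dd a (v / (μ : ℂ) ^ 2)) := by
    have h1 := hNa.scale (μ ^ 2) hm1
    simpa using h1
  have hS4 : NNS R (fun v => ps k μ (dd a (v / (μ : ℂ) ^ 2))) := by
    refine EQ2.NNS.comp (NNS_ps hk hk2 hμ) hsc ?_
    intro t ht htR
    have h1 : ((t : ℂ) / (μ : ℂ) ^ 2) = ((t / μ ^ 2 : ℝ) : ℂ) := by push_cast; ring
    rw [h1]
    exact hlt _ (by positivity) (lt_of_le_of_lt (div_le_self ht hm1) htR)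
  have hPhi : NNS R (fun v => gg k μ (dd a v) + Sg k μ (dd a v) *
      ps k μ (dd a (v / (μ : ℂ) ^ 2))) := hS1.add (hS3.mul hS4)
  obtain ⟨b, hb, hbs⟩ := hPhi
  -- coefficients
  set ε : ℝ := min r₀ (R / μ ^ 2) with hε
  have hε0 : 0 < ε := lt_min hr₀ (by positivity)
  have hεR : ∀ v : ℂ, ‖v‖ < ε → ‖(μ : ℂ) ^ 2 * v‖ < R := by
    intro v hv
    have h1 : ‖v‖ < R / μ ^ 2 := hv.trans_le (min_le_right _ _)
    rw [norm_mul, norm_pow, Complex.norm_real, Real.norm_of_nonneg hμ0.le]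
    rw [lt_div_iff₀ hm] at h1
    linarith
  have hεR' : ∀ v : ℂ, ‖v‖ < ε → ‖v‖ < R := by
    intro v hv
    have h1 : ‖v‖ < R / μ ^ 2 := hv.trans_le (min_le_right _ _)
    have h2 : R / μ ^ 2 ≤ R := div_le_self hR.le hm1
    linarith
  have huniq : (fun n => (b n : ℂ)) = (fun n => ((a n * (μ ^ 2) ^ n : ℝ) : ℂ)) := by
    refine EQ2.NNS.unique hε0 (f := fun v => dd a ((μ : ℂ) ^ 2 * v)) ?_ ?_
    · intro v hv
      have h1 := hbs v (hεR' v hv)
      have h2 := hfe v (hv.trans_le (min_le_left _ _))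
      have h3 : dd a ((μ : ℂ) ^ 2 * v) = gg k μ (dd a v) + Sg k μ (dd a v) *
          ps k μ (dd a (v / (μ : ℂ) ^ 2)) := by
        unfold gg
        linear_combination h2
      show HasSum _ (dd a ((μ : ℂ) ^ 2 * v))
      rw [h3]
      exact h1
    · intro v hv
      have h1 := gx_hasSum ha (hs _ (norm_nonneg _) (hεR v hv)).1
      show HasSum _ (dd a ((μ : ℂ) ^ 2 * v))
      have h2 : (fun n => (a n : ℂ) * ((μ : ℂ) ^ 2 * v) ^ n) =
          (fun n => ((a n * (μ ^ 2) ^ n : ℝ) : ℂ) * v ^ n) := by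
        funext n
        push_cast
        rw [mul_pow]
        ring
      rw [h2] at h1
      exact h1
  have hba : ∀ n, b n = a n * (μ ^ 2) ^ n := fun n => by exact_mod_cast congrFun huniq n
  have hsum : ∀ t : ℝ, 0 ≤ t → t < μ ^ 2 * R → Summable (fun n => a n * t ^ n) := by
    intro t ht htR
    have h1 : ‖((t / μ ^ 2 : ℝ) : ℂ)‖ < R := by
      rw [Complex.norm_real, Real.norm_of_nonneg (by positivity), div_lt_iff₀ hm]
      linarith
    have h2 := (hbs _ h1).summable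
    have h3 : (fun n => (b n : ℂ) * ((t / μ ^ 2 : ℝ) : ℂ) ^ n) =
        (fun n => ((a n * t ^ n : ℝ) : ℂ)) := by
      funext n
      rw [hba n]
      have h4 : a n * t ^ n = a n * (μ ^ 2) ^ n * (t / μ ^ 2) ^ n := by
        rw [mul_assoc, ← mul_pow, mul_div_cancel₀ _ hm.ne']
      rw [h4]
      push_cast
      ring
    rw [h3] at h2
    exact_mod_cast h2
  refine ⟨hsum, fun v hv => ?_⟩
  have h1 := hbs v hv
  have h2 : HasSum (fun n => (b n : ℂ) * v ^ n) (dd a ((μ : ℂ) ^ 2 * v)) := by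
    have h3 := gx_hasSum ha (z := (μ : ℂ) ^ 2 * v) (hsum _ (norm_nonneg _) (by
      rw [norm_mul, norm_pow, Complex.norm_real, Real.norm_of_nonneg hμ0.le]
      exact mul_lt_mul_of_pos_left hv hm))
    have h4 : (fun n => (a n : ℂ) * ((μ : ℂ) ^ 2 * v) ^ n) = (fun n => (b n : ℂ) * v ^ n) := by
      funext n
      rw [hba n]
      push_cast
      rw [mul_pow]
      ring
    rw [h4] at h3
    exact h3
  rw [h2.unique h1]
  unfold gg
  ring

/-- `R = sup {ρ : ∑ a n ρ^n < 1}`, `∑ a n R^n = 1`, `F n = a n R^n`, so `F 1 = R`.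
`F1_ge`: if `R < (m-1)/m` then `1 = ∑ a n R^n ≤ R/(1 - R/(m-1)) < 1`.
`base`: the last clause of `local_existence` at `R τ` (`dr F (-τ) = dr a (-(Rτ))`). -/
theorem exists_HF (hk : 1 < k) (hk2 : k ≤ 2) (hμ : 1 < μ) : ∃ F : ℕ → ℝ, HF k μ F := by
  have hμ0 : (0 : ℝ) < μ := by linarith
  have hm : (1 : ℝ) < μ ^ 2 := by nlinarith
  have hm0 : (0 : ℝ) < μ ^ 2 - 1 := by linarith
  obtain ⟨a, h0, h1, ha, hsl, hfe, ε₀, hε₀, hbase⟩ := local_existence hk hk2 hμ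
  have hρ0 : 0 < (μ ^ 2 - 1) / μ ^ 2 := by positivity
  set T : Set ℝ := {ρ | 0 ≤ ρ ∧ Summable (fun n => a n * ρ ^ n) ∧ ∑' n, a n * ρ ^ n < 1} with hT
  have hmem : ∀ t : ℝ, 0 ≤ t → t < (μ ^ 2 - 1) / μ ^ 2 → t ∈ T := by
    intro t ht ht2
    obtain ⟨h2, h3⟩ := hsl t ht ht2
    refine ⟨ht, h2, h3.trans_lt ?_⟩
    rw [lt_div_iff₀ (by positivity)] at ht2
    have h4 : t / (μ ^ 2 - 1) < 1 - t := by
      rw [div_lt_iff₀ hm0]
      nlinarith
    have h5 : 0 < 1 - t / (μ ^ 2 - 1) := by linarith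
    rw [div_lt_one h5]
    linarith
  have hTb : ∀ ρ ∈ T, ρ ≤ 1 := by
    intro ρ hρ
    have h2 : a 1 * ρ ^ 1 ≤ ∑' n, a n * ρ ^ n :=
      hρ.2.1.le_tsum 1 fun n _ => mul_nonneg (ha n) (pow_nonneg hρ.1 n)
    rw [h1] at h2
    linarith [hρ.2.2]
  have hbdd : BddAbove T := ⟨1, hTb⟩
  set R : ℝ := sSup T with hRdef
  have hρR : (μ ^ 2 - 1) / μ ^ 2 ≤ R := by
    by_contra hcon
    push Not at hcon
    have hR0 : 0 ≤ R := le_csSup hbdd (hmem 0 le_rfl hρ0)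
    have h2 := le_csSup hbdd (hmem ((R + (μ ^ 2 - 1) / μ ^ 2) / 2) (by linarith) (by linarith))
    rw [← hRdef] at h2
    linarith
  have hR : 0 < R := hρ0.trans_le hρR
  have hrT : (0 : ℝ) ∈ T := hmem 0 le_rfl hρ0
  have hmono : ∀ s t : ℝ, 0 ≤ s → s ≤ t → Summable (fun n => a n * t ^ n) →
      Summable (fun n => a n * s ^ n) ∧ ∑' n, a n * s ^ n ≤ ∑' n, a n * t ^ n := by
    intro s t hs0 hst hst2
    have h2 : ∀ n, a n * s ^ n ≤ a n * t ^ n := fun n =>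
      mul_le_mul_of_nonneg_left (pow_le_pow_left₀ hs0 hst n) (ha n)
    have h3 : Summable (fun n => a n * s ^ n) :=
      Summable.of_nonneg_of_le (fun n => mul_nonneg (ha n) (pow_nonneg hs0 n)) h2 hst2
    exact ⟨h3, h3.tsum_le_tsum h2 hst2⟩
  have hs : ∀ t : ℝ, 0 ≤ t → t < R → Summable (fun n => a n * t ^ n) ∧ ∑' n, a n * t ^ n < 1 := by
    intro t ht htR
    obtain ⟨ρ, hρ, htρ⟩ := exists_lt_of_lt_csSup ⟨0, hrT⟩ htR
    obtain ⟨h2, h3⟩ := hmono t ρ ht htρ.le hρ.2.1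
    exact ⟨h2, h3.trans_lt hρ.2.2⟩
  obtain ⟨hsum, hfeR⟩ := extend_radius hk hk2 hμ (r₀ := (μ ^ 2 - 1) / μ ^ 2 / μ ^ 2)
    (by positivity) hR h0 ha hs hfe
  have hRR : R < μ ^ 2 * R := by nlinarith
  -- continuity of the sum
  set R' : ℝ := (R + μ ^ 2 * R) / 2 with hR'
  have hRR' : R < R' := by rw [hR']; linarith
  have hR'2 : R' < μ ^ 2 * R := by rw [hR']; linarith
  have hcont : ContinuousOn (fun t : ℝ => ∑' n, a n * t ^ n) (Icc 0 R') := by
    apply continuousOn_tsum (u := fun n => a n * R' ^ n)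
    · intro n
      fun_prop
    · exact hsum R' (by linarith) hR'2
    · intro n t ht
      rw [Real.norm_of_nonneg (mul_nonneg (ha n) (pow_nonneg ht.1 n))]
      exact mul_le_mul_of_nonneg_left (pow_le_pow_left₀ ht.1 ht.2 n) (ha n)
  have hcR : ContinuousAt (fun t : ℝ => ∑' n, a n * t ^ n) R :=
    hcont.continuousAt (Icc_mem_nhds hR hRR')
  have hsR : Summable (fun n => a n * R ^ n) := hsum R hR.le hRR
  have hle : ∑' n, a n * R ^ n ≤ 1 := by
    have h2 : Tendsto (fun t : ℝ => ∑' n, a n * t ^ n) (𝓝[<] R) (𝓝 (∑' n, a n * R ^ n)) :=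
      hcR.tendsto.mono_left nhdsWithin_le_nhds
    refine le_of_tendsto h2 ?_
    have h3 : Ioo 0 R ∈ 𝓝[<] R := Ioo_mem_nhdsLT hR
    filter_upwards [h3] with t ht
    exact (hs t ht.1.le ht.2).2.le
  have hge : 1 ≤ ∑' n, a n * R ^ n := by
    by_contra hlt
    push Not at hlt
    have h2 : ∀ᶠ t in 𝓝 R, ∑' n, a n * t ^ n < 1 := hcR.eventually (gt_mem_nhds hlt)
    have h3 : ∀ᶠ t in 𝓝 R, t < R' := gt_mem_nhds hRR'
    obtain ⟨ε, hε, hball⟩ := Metric.eventually_nhds_iff.mp (h2.and h3)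
    have h4 := hball (y := R + ε / 2) (by
      rw [Real.dist_eq, add_sub_cancel_left, abs_of_pos (by linarith)]
      linarith)
    have h5 : R + ε / 2 ∈ T := ⟨by linarith, hsum _ (by linarith) (h4.2.trans hR'2), h4.1⟩
    have h6 := le_csSup hbdd h5
    rw [← hRdef] at h6
    linarith
  have hone : ∑' n, a n * R ^ n = 1 := le_antisymm hle hge
  have hddF : ∀ v : ℂ, dd (fun n => a n * R ^ n) v = dd a ((R : ℂ) * v) := by
    intro v
    unfold dd
    refine tsum_congr fun n => ?_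
    push_cast
    rw [mul_pow]
    ring
  have hdrF : ∀ t : ℝ, dr (fun n => a n * R ^ n) t = dr a (R * t) := by
    intro t
    unfold dr
    refine tsum_congr fun n => ?_
    rw [mul_pow]
    ring
  refine ⟨fun n => a n * R ^ n, hk, hk2, hμ, ?_, ?_, ?_, ?_, ?_, ?_, ?_, ?_⟩
  · simp [h0]
  · simp [h1, hR]
  · exact fun n => mul_nonneg (ha n) (pow_nonneg hR.le n)
  · rw [← hone]
    exact hsR.hasSum
  · intro ρ hρ hρ2
    have h2 := hsum (R * ρ) (by positivity) (by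
      have := mul_lt_mul_of_pos_left hρ2 hR
      linarith)
    have h3 : (fun n => a n * R ^ n * ρ ^ n) = (fun n => a n * (R * ρ) ^ n) := by
      funext n
      rw [mul_pow]
      ring
    rw [h3]
    exact h2
  · intro v hv
    have h2 : ‖(R : ℂ) * v‖ < R := by
      rw [norm_mul, Complex.norm_real, Real.norm_of_nonneg hR.le]
      nlinarith
    have h3 := hfeR _ h2
    rw [hddF, hddF, hddF]
    have h4 : (R : ℂ) * ((μ : ℂ) ^ 2 * v) = (μ : ℂ) ^ 2 * ((R : ℂ) * v) := by ring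
    have h5 : (R : ℂ) * (v / (μ : ℂ) ^ 2) = ((R : ℂ) * v) / (μ : ℂ) ^ 2 := by ring
    rw [h4, h5]
    exact h3
  · simpa [h1] using hρR
  · refine ⟨ε₀ / R, by positivity, ?_⟩
    intro τ hτ hτ2
    have h2 : R * τ < ε₀ := by
      rw [lt_div_iff₀ hR] at hτ2
      linarith
    have h3 := hbase (R * τ) (by positivity) h2
    rw [hdrF]
    have h4 : R * -τ = -(R * τ) := by ring
    rw [h4]
    refine le_trans (le_of_eq ?_) h3
    simp only [h1, pow_one, one_mul]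
    have h5 : (μ ^ 2 - 1) * (R / (μ ^ 2 - 1) * τ) = R * τ := by field_simp
    have h6 : R / (μ ^ 2 - 1) * τ = R * τ / (μ ^ 2 - 1) := by ring
    rw [h5, h6]

end EQG
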