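import Pool.Agent.Lib.MP_226de1_co.G.Uniq
import Pool.Agent.Lib.MP_226de1_co.G.NStart
import Pool.Agent.Lib.MP_226de1_co.G.GlobalExt
import Pool.Agent.Lib.MP_226de1_co.G.RealLine

/-! No line system exists for `1 < k ≤ 2`. -/

set_option autoImplicit false

namespace EQG

open EQ2 (ell)

theorem no_lineSys {k μ : ℝ} (hk2 : k ≤ 2) {dn dp : Bool → ℝ → ℝ}
    (hL : EQK.LineSys k μ dn dp) : False := by
  obtain ⟨F, h⟩ := exists_HF hL.hk hk2 hL.hμ
  obtain ⟨ly, hy⟩ := h.exists_HY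
  have hpk := pack_of h hy
  obtain ⟨t, ht0, ht1, ht2⟩ := exists_rq_neg h hy
  have hl : 0 < ell μ := EQ2.ell_pos hL.hμ
  refine pack_contra hpk (t := t) ?_ ht0 ht1 ?_ ?_
  · have h0 : ((0 : ℝ) : ℂ).re < ell μ := by simpa using hl
    have := qE_eq h hy h0
    rw [hy.qx_ofReal h (by simpa using hl)] at this
    rw [Complex.ofReal_zero] at this
    rw [this, Complex.ofReal_re]
    exact rq_pos h hy le_rfl
  · have h0 : ((t : ℝ) : ℂ).re < ell μ := by simpa using ht1
    rw [qE_eq h hy h0, hy.qx_ofReal h ht1, Complex.ofReal_re]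
    exact ht2
  · intro x z hx hz hq
    have hx' : ((x : ℝ) : ℂ).re < ell μ := by simpa using hx
    have hz' : ((z : ℝ) : ℂ).re < ell μ := by simpa using hz
    rw [qE_eq h hy hx', qE_eq h hy hz', hy.qx_ofReal h hx, hy.qx_ofReal h hz] at hq
    rw [qE_eq h hy hx', pE_eq h hy hx', pE_eq h hy hz', hy.qx_ofReal h hx, hy.px_ofReal h hx,
      hy.px_ofReal h hz]
    have hq' : rq k μ F ly x + rq k μ F ly z = 0 := by exact_mod_cast hq
    have := body_identity h hy hL hx hz hq'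
    rw [GC_ofReal, ← this]
    push_cast
    rfl

end EQG
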