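import Pool.Agent.Lib.MP_226de1_co.G.Ext2

/-! Immersion, growth and boundedness (compare `ExtImm.lean`, `k = 2`). -/

set_option autoImplicit false

namespace EQG

open Complex Set Filter Topology
open EQ2 (dd dr xv ell pt NNS Dom)

variable {k μ : ℝ} {F : ℕ → ℝ} {ly : ℂ → ℂ}

/-- `q x = e^{-x} G (xv x)` -/
private noncomputable def Gq (k μ : ℝ) (F : ℕ → ℝ) (ly : ℂ → ℂ) (v : ℂ) : ℂ :=
  Xv k μ F v * Complex.exp (-ly v)

private theorem qx_Gq (x : ℂ) : qx k μ F ly x = Complex.exp (-x) * Gq k μ F ly (xv x) := by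
  unfold qx Xx Yx Gq LY
  rw [Complex.exp_add, Complex.exp_neg, Complex.exp_neg]
  have h1 := Complex.exp_ne_zero x
  have h2 := Complex.exp_ne_zero (ly (xv x))
  field_simp

private theorem mu_gt (h : HF k μ F) : 1 < μ ^ 2 := by
  have := h.hμ
  nlinarith

private theorem Gq_diff (h : HF k μ F) (hy : HY k μ F ly) :
    DifferentiableOn ℂ (Gq k μ F ly) (Metric.ball 0 (μ ^ 2)) := by
  have hm := mu_gt h
  have hm0 : (0 : ℝ) < μ ^ 2 := by linarith
  have hnorm : ‖((μ : ℂ) ^ 2)‖ = μ ^ 2 := by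
    rw [norm_pow, Complex.norm_real, Real.norm_eq_abs, sq_abs]
  have hlt : ∀ v ∈ Metric.ball (0 : ℂ) (μ ^ 2), ‖v / (μ : ℂ) ^ 2‖ < 1 := by
    intro v hv
    rw [mem_ball_zero_iff] at hv
    rw [norm_div, hnorm, div_lt_iff₀ hm0]
    linarith
  have h1 : DifferentiableOn ℂ (fun v => dd F (v / (μ : ℂ) ^ 2)) (Metric.ball 0 (μ ^ 2)) := by
    refine h.dd_differentiableOn.comp (differentiable_id.div_const _).differentiableOn ?_
    intro v hv
    simp only [id]
    rw [mem_ball_zero_iff]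
    exact (hlt v hv).trans hm
  have h1' : DifferentiableOn ℂ (fun v => ps k μ (dd F (v / (μ : ℂ) ^ 2)))
      (Metric.ball 0 (μ ^ 2)) := by
    intro v hv
    exact (ps_differentiableAt h.hk h.hk2 h.hμ (h.adm (hlt v hv))).comp_differentiableWithinAt v
      (h1 v hv)
  have h2 : DifferentiableOn ℂ (Xv k μ F) (Metric.ball 0 (μ ^ 2)) := by
    unfold Xv
    exact ((h.dd_differentiableOn.add h1').div_const _).const_add 1
  exact h2.mul hy.an.neg.cexp

private theorem Gq_zero (h : HF k μ F) : Gq k μ F ly 0 ≠ 0 := by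
  unfold Gq
  rw [h.Xv_zero, one_mul]
  exact Complex.exp_ne_zero _

private theorem ball_nhds (h : HF k μ F) : Metric.ball (0 : ℂ) (μ ^ 2) ∈ 𝓝 (0 : ℂ) :=
  Metric.ball_mem_nhds _ (by linarith [mu_gt h])

private theorem xv_small {δ : ℝ} (hδ : 0 < δ) : ∃ A : ℝ, A < 0 ∧ ∀ x : ℂ, x.re < A → ‖xv x‖ < δ := by
  refine ⟨min (-1) (Real.log δ / 2), lt_of_le_of_lt (min_le_left _ _) (by norm_num), ?_⟩
  intro x hx
  have h1 : x.re < Real.log δ / 2 := hx.trans_le (min_le_right _ _)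
  rw [EQ2.norm_xv]
  calc Real.exp (2 * x.re) < Real.exp (Real.log δ) := Real.exp_lt_exp.mpr (by linarith)
    _ = δ := Real.exp_log hδ

/-- `qx x = e^{-x} g (xv x)`, `g = Xv exp (-ly)`, `g 0 ≠ 0`; so `|q| → ∞` as `Re x → -∞` -/
theorem qx_large (h : HF k μ F) (hy : HY k μ F ly) (M : ℝ) :
    ∃ A : ℝ, A < 0 ∧ ∀ x : ℂ, x.re < A → M < ‖qx k μ F ly x‖ := by
  have hc : ContinuousAt (Gq k μ F ly) 0 :=
    ((Gq_diff h hy).differentiableAt (ball_nhds h)).continuousAt
  have hG0 : 0 < ‖Gq k μ F ly 0‖ := norm_pos_iff.mpr (Gq_zero h)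
  have hev : ∀ᶠ v in 𝓝 (0 : ℂ), ‖Gq k μ F ly 0‖ / 2 < ‖Gq k μ F ly v‖ :=
    hc.norm.eventually (lt_mem_nhds (by linarith))
  obtain ⟨δ, hδ, hball⟩ := Metric.eventually_nhds_iff.mp hev
  obtain ⟨A, hA, hsm⟩ := xv_small hδ
  set c := ‖Gq k μ F ly 0‖ / 2 with hcdef
  have hc0 : 0 < c := by linarith
  refine ⟨min A (-(|M| / c)), lt_of_le_of_lt (min_le_left _ _) hA, ?_⟩
  intro x hx
  have h1 : x.re < A := hx.trans_le (min_le_left _ _)
  have h2 : x.re < -(|M| / c) := hx.trans_le (min_le_right _ _)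
  have h3 : c < ‖Gq k μ F ly (xv x)‖ := hball (by rw [dist_zero_right]; exact hsm x h1)
  have h4 : |M| / c < Real.exp (-x.re) := by
    have := Real.add_one_le_exp (-x.re)
    linarith
  rw [qx_Gq, norm_mul, Complex.norm_exp, Complex.neg_re]
  have h5 : 0 ≤ |M| / c := by positivity
  calc M ≤ |M| := le_abs_self M
    _ = |M| / c * c := by field_simp
    _ < Real.exp (-x.re) * ‖Gq k μ F ly (xv x)‖ := mul_lt_mul'' h4 h3 h5 hc0.le

private theorem xv_deriv (x : ℂ) : HasDerivAt xv (2 * xv x) x := by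
  have h1 : HasDerivAt (fun z : ℂ => 2 * z) 2 x := by
    simpa using (hasDerivAt_id x).const_mul (2 : ℂ)
  have h2 := h1.cexp.neg
  have h3 : -(Complex.exp (2 * x) * 2) = 2 * xv x := by
    unfold xv
    ring
  rw [h3] at h2
  exact h2

/-- `q' = -q + 2 v e^{-x} g'(v) ≠ 0` for `Re x` very negative -/
theorem deriv_qx_ne (h : HF k μ F) (hy : HY k μ F ly) :
    ∃ A : ℝ, A < 0 ∧ ∀ x : ℂ, x.re < A → deriv (qx k μ F ly) x ≠ 0 := by
  have hd := Gq_diff h hy
  have hc : ContinuousAt (Gq k μ F ly) 0 := (hd.differentiableAt (ball_nhds h)).continuousAt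
  have hd2 : ContinuousAt (deriv (Gq k μ F ly)) 0 :=
    ((hd.deriv Metric.isOpen_ball).differentiableAt (ball_nhds h)).continuousAt
  have hH : ContinuousAt (fun v => -Gq k μ F ly v + 2 * v * deriv (Gq k μ F ly) v) 0 :=
    hc.neg.add ((continuousAt_const.mul continuousAt_id).mul hd2)
  have hH0 : -Gq k μ F ly 0 + 2 * 0 * deriv (Gq k μ F ly) 0 ≠ 0 := by
    simpa using Gq_zero (ly := ly) h
  have hev := hH.eventually_ne hH0
  obtain ⟨δ, hδ, hball⟩ := Metric.eventually_nhds_iff.mp hev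
  have hm := mu_gt h
  obtain ⟨A, hA, hsm⟩ := xv_small (lt_min hδ (by linarith : (0 : ℝ) < μ ^ 2))
  refine ⟨A, hA, fun x hx => ?_⟩
  have h1 := hsm x hx
  have h2 : ‖xv x‖ < δ := h1.trans_le (min_le_left _ _)
  have h3 : ‖xv x‖ < μ ^ 2 := h1.trans_le (min_le_right _ _)
  have h4 : HasDerivAt (Gq k μ F ly) (deriv (Gq k μ F ly) (xv x)) (xv x) :=
    (hd.differentiableAt (Metric.isOpen_ball.mem_nhds (mem_ball_zero_iff.mpr h3))).hasDerivAt
  have h5 : HasDerivAt (fun z => Gq k μ F ly (xv z)) (deriv (Gq k μ F ly) (xv x) * (2 * xv x)) x :=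
    h4.comp x (xv_deriv x)
  have h6 : HasDerivAt (fun z : ℂ => Complex.exp (-z)) (Complex.exp (-x) * (-1)) x :=
    (hasDerivAt_neg x).cexp
  have h7 := h6.mul h5
  have e1 : qx k μ F ly = fun z => Complex.exp (-z) * Gq k μ F ly (xv z) := by
    funext z
    exact qx_Gq z
  have h8 : deriv (qx k μ F ly) x = Complex.exp (-x) *
      (-Gq k μ F ly (xv x) + 2 * xv x * deriv (Gq k μ F ly) (xv x)) := by
    rw [e1]
    refine h7.deriv.trans ?_
    ring
  rw [h8]
  exact mul_ne_zero (Complex.exp_ne_zero _) (hball (by rw [dist_zero_right]; exact h2))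

private theorem dom_open (μ : ℝ) {x : ℂ} (hx : x.re < 3 * ell μ / 2) (hi : |x.im| < Real.pi / 2) :
    ∀ᶠ z in 𝓝 x, z.re < 3 * ell μ / 2 ∧ |z.im| < Real.pi / 2 := by
  have h1 : ∀ᶠ z in 𝓝 x, z.re < 3 * ell μ / 2 :=
    Complex.continuous_re.continuousAt.eventually (gt_mem_nhds hx)
  have h2 : ∀ᶠ z in 𝓝 x, |z.im| < Real.pi / 2 :=
    (Complex.continuous_im.abs.continuousAt).eventually (gt_mem_nhds hi)
  exact h1.and h2

/-- one step of the backward propagation -/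
private theorem back_step (h : HF k μ F) (hy : HY k μ F ly) {x : ℂ} (hx : x.re < 3 * ell μ / 2)
    (hi : |x.im| < Real.pi / 2) (hq : deriv (qE k μ F ly) x = 0)
    (hp : deriv (pE k μ F ly) x = 0) :
    deriv (qE k μ F ly) (x - (ell μ : ℂ)) = 0 ∧ deriv (pE k μ F ly) (x - (ell μ : ℂ)) = 0 := by
  have hl := EQ2.ell_pos h.hμ
  have hre : ∀ z : ℂ, (z - (ell μ : ℂ)).re = z.re - ell μ := fun z => by simp
  have him : ∀ z : ℂ, (z - (ell μ : ℂ)).im = z.im := fun z => by simp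
  have hdom : Dom μ x := Or.inl ⟨hx, hi⟩
  have hdom1 : Dom μ (x - (ell μ : ℂ)) := by
    refine Or.inl ⟨?_, ?_⟩
    · rw [hre]; linarith
    · rw [him]; exact hi
  -- derivatives
  have dq : HasDerivAt (qE k μ F ly) 0 x := by
    have := (qE_differentiableAt h hy hdom).hasDerivAt
    rwa [hq] at this
  have dp : HasDerivAt (pE k μ F ly) 0 x := by
    have := (pE_differentiableAt h hy hdom).hasDerivAt
    rwa [hp] at this
  have dq1 : HasDerivAt (fun z => qE k μ F ly (z - (ell μ : ℂ)))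
      (deriv (qE k μ F ly) (x - (ell μ : ℂ))) x :=
    HasDerivAt.comp_sub_const x _ (qE_differentiableAt h hy hdom1).hasDerivAt
  have dp1 : HasDerivAt (fun z => pE k μ F ly (z - (ell μ : ℂ)))
      (deriv (pE k μ F ly) (x - (ell μ : ℂ))) x :=
    HasDerivAt.comp_sub_const x _ (pE_differentiableAt h hy hdom1).hasDerivAt
  have hev := dom_open μ hx hi
  have hx1 : (x - (ell μ : ℂ)).re < ell μ / 2 := by rw [hre]; linarith
  have hi1 : |(x - (ell μ : ℂ)).im| < Real.pi / 2 := by rw [him]; exact hi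
  -- first relation
  have r1 : ∀ᶠ z in 𝓝 x, qE k μ F ly (z - (ell μ : ℂ)) - qE k μ F ly z =
      Complex.exp (-Complex.log (pE k μ F ly z) / (k : ℂ)) := by
    filter_upwards [hev] with z hz
    have h1 : (z - (ell μ : ℂ)).re < ell μ / 2 := by rw [hre]; linarith [hz.1]
    have h2 : |(z - (ell μ : ℂ)).im| < Real.pi / 2 := by rw [him]; exact hz.2
    have h3 := qE_step h hy h1 h2
    rw [sub_add_cancel] at h3
    exact h3
  have r2 : ∀ᶠ z in 𝓝 x, pE k μ F ly (z - (ell μ : ℂ)) + pE k μ F ly z =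
      GC k μ (qE k μ F ly (z - (ell μ : ℂ))) := by
    filter_upwards [hev] with z hz
    have h1 : (z - (ell μ : ℂ)).re < ell μ / 2 := by rw [hre]; linarith [hz.1]
    have h2 : |(z - (ell μ : ℂ)).im| < Real.pi / 2 := by rw [him]; exact hz.2
    have h3 := qpE_rel h hy h1 h2
    rwa [sub_add_cancel] at h3
  have hslit : pE k μ F ly x ∈ Complex.slitPlane := by
    have := pE_slit h hy hx1 hi1
    rwa [sub_add_cancel] at this
  have hnz : 1 + qE k μ F ly (x - (ell μ : ℂ)) ^ 2 ∈ Complex.slitPlane :=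
    nzE h hy (by linarith) hi1
  set q1' := deriv (qE k μ F ly) (x - (ell μ : ℂ)) with hq1'
  set p1' := deriv (pE k μ F ly) (x - (ell μ : ℂ)) with hp1'
  have e1 : HasDerivAt (fun z => Complex.exp (-Complex.log (pE k μ F ly z) / (k : ℂ)))
      (Complex.exp (-Complex.log (pE k μ F ly x) / (k : ℂ)) *
        (-(0 / pE k μ F ly x) / (k : ℂ))) x :=
    ((dp.clog hslit).neg.div_const (k : ℂ)).cexp
  have e2 : HasDerivAt (fun z => qE k μ F ly (z - (ell μ : ℂ)) - qE k μ F ly z) (q1' - 0) x :=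
    dq1.sub dq
  have hz1 : q1' = 0 := by
    have e3 := (e1.congr_of_eventuallyEq r1).unique e2
    simpa using e3.symm
  refine ⟨hz1, ?_⟩
  have f0 : HasDerivAt (fun z => 1 + qE k μ F ly (z - (ell μ : ℂ)) ^ 2)
      ((2 : ℕ) * qE k μ F ly (x - (ell μ : ℂ)) ^ (2 - 1) * q1') x := by
    exact (dq1.pow 2).const_add 1
  have f1 : HasDerivAt (fun z => GC k μ (qE k μ F ly (z - (ell μ : ℂ)))) 0 x := by
    have f2 := (((f0.clog hnz).const_mul (-((k : ℂ) / 2))).cexp).const_mul (Cc k μ : ℂ)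
    have f3 : (Cc k μ : ℂ) * (Complex.exp (-((k : ℂ) / 2) *
        Complex.log (1 + qE k μ F ly (x - (ell μ : ℂ)) ^ 2)) * (-((k : ℂ) / 2) *
        ((2 : ℕ) * qE k μ F ly (x - (ell μ : ℂ)) ^ (2 - 1) * q1' /
          (1 + qE k μ F ly (x - (ell μ : ℂ)) ^ 2)))) = 0 := by
      rw [hz1]
      simp
    rw [f3] at f2
    exact f2
  have f4 : HasDerivAt (fun z => pE k μ F ly (z - (ell μ : ℂ)) + pE k μ F ly z) (p1' + 0) x :=
    dp1.add dp
  have f5 := (f1.congr_of_eventuallyEq r2).unique f4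
  simpa using f5.symm

/-- Immersion, by backward propagation: if `q'(x) = p'(x) = 0` then, with `x₁ = x - ℓ`
(`Re x₁ < ℓ/2`), `D(x₁) = exp (-log p(x)/k)` (`qE_step`) has zero derivative, so
`q(x₁) = q(x) + D(x₁)` has zero derivative and `p(x₁) = G(q(x₁)) - p(x)` too.
Iterate and use `deriv_qx_ne`. -/
theorem immersion (h : HF k μ F) (hy : HY k μ F ly) {x : ℂ} (hx : x.re < 3 * ell μ / 2)
    (hi : |x.im| < Real.pi / 2) :
    deriv (qE k μ F ly) x ≠ 0 ∨ deriv (pE k μ F ly) x ≠ 0 := by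
  by_contra hcon
  push Not at hcon
  obtain ⟨hq, hp⟩ := hcon
  have hl := EQ2.ell_pos h.hμ
  obtain ⟨A, hA, hne⟩ := deriv_qx_ne h hy
  have key : ∀ n : ℕ, deriv (qE k μ F ly) (x - (n : ℂ) * (ell μ : ℂ)) = 0 ∧
      deriv (pE k μ F ly) (x - (n : ℂ) * (ell μ : ℂ)) = 0 := by
    intro n
    induction n with
    | zero => simpa using ⟨hq, hp⟩
    | succ n ih =>
      have hk : (0 : ℝ) ≤ (n : ℝ) * ell μ := by positivity
      have hre : (x - (n : ℂ) * (ell μ : ℂ)).re = x.re - n * ell μ := by simp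
      have him : (x - (n : ℂ) * (ell μ : ℂ)).im = x.im := by simp
      have h1 := back_step h hy (x := x - (n : ℂ) * (ell μ : ℂ)) (by rw [hre]; linarith)
        (by rw [him]; exact hi) ih.1 ih.2
      have e : x - ((n + 1 : ℕ) : ℂ) * (ell μ : ℂ) = x - (n : ℂ) * (ell μ : ℂ) - (ell μ : ℂ) := by
        push_cast
        ring
      rw [e]
      exact h1
  obtain ⟨n, hn⟩ := exists_nat_gt ((x.re - A) / ell μ)
  rw [div_lt_iff₀ hl] at hn
  have hre : (x - (n : ℂ) * (ell μ : ℂ)).re = x.re - n * ell μ := by simp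
  have h1 : (x - (n : ℂ) * (ell μ : ℂ)).re < A := by rw [hre]; linarith
  have h2 : deriv (qE k μ F ly) (x - (n : ℂ) * (ell μ : ℂ)) =
      deriv (qx k μ F ly) (x - (n : ℂ) * (ell μ : ℂ)) := by
    refine Filter.EventuallyEq.deriv_eq ?_
    have h3 : ∀ᶠ z in 𝓝 (x - (n : ℂ) * (ell μ : ℂ)), z.re < ell μ :=
      Complex.continuous_re.continuousAt.eventually (gt_mem_nhds (by linarith))
    exact h3.mono fun z hz => qE_eq h hy hz
  exact hne _ h1 (h2 ▸ (key n).1)

/-- `c - w^(k/2)` is continuous on the closed upper half plane -/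
private theorem gimm_cont (hk : 1 < k) {w : ℂ} (hw : 0 ≤ w.im) :
    ContinuousWithinAt (fun w : ℂ => (cK k μ : ℂ) - w ^ ((k : ℂ) / 2)) {z | 0 ≤ z.im} w := by
  have hre : 0 < ((k : ℂ) / 2).re := by
    have h1 : ((k : ℂ) / 2).re = k / 2 := by simp
    rw [h1]
    linarith
  refine continuousWithinAt_const.sub ?_
  by_cases h0 : 0 ≤ w.re ∨ w.im ≠ 0
  · exact (Complex.continuousAt_cpow_const_of_re_pos h0 hre).continuousWithinAt
  · push Not at h0
    obtain ⟨h1, h2⟩ := h0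
    have hw0 : w ≠ 0 := by
      intro h3
      rw [h3] at h1
      simp at h1
    have h3 : ContinuousWithinAt (fun z : ℂ => Complex.exp (Complex.log z * ((k : ℂ) / 2)))
        {z | 0 ≤ z.im} w :=
      ((Complex.continuousWithinAt_log_of_re_neg_of_im_zero h1 h2).mul
        continuousWithinAt_const).cexp
    refine h3.congr_of_eventuallyEq ?_ (Complex.cpow_def_of_ne_zero hw0 _)
    filter_upwards [mem_nhdsWithin_of_mem_nhds (isOpen_ne.mem_nhds hw0)] with z hz
    exact Complex.cpow_def_of_ne_zero hz _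

private theorem gimm_ek {d : ℂ} (hd : 1 - d ≠ 0) :
    (cK k μ : ℂ) - (1 - d) ^ ((k : ℂ) / 2) = ek k μ d := by
  unfold ek rk
  rw [Complex.cpow_def_of_ne_zero hd, mul_comm]

private theorem gimm_conj {d : ℂ} (hd : Adm k μ d) :
    ek k μ ((starRingEnd ℂ) d) = (starRingEnd ℂ) (ek k μ d) := by
  unfold ek
  rw [rk_conj hd, map_sub, Complex.conj_ofReal]

/-- real `w ≤ 1`: `w^(k/2) ≠ c` -/
private theorem gimm_real (hk : 1 < k) (hk2 : k ≤ 2) (hμ : 1 < μ) {t : ℝ} (ht : t ≤ 1) :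
    (cK k μ : ℂ) - ((t : ℝ) : ℂ) ^ ((k : ℂ) / 2) ≠ 0 := by
  have hc := cK_gt hk hμ
  have hpi := Real.pi_pos
  intro h0
  have h1 : (((t : ℝ) : ℂ) ^ ((k : ℂ) / 2)).re = cK k μ := by
    rw [← sub_eq_zero.1 h0, Complex.ofReal_re]
  have hk0 : (k : ℂ) / 2 ≠ 0 := by
    have h3 : (k : ℂ) ≠ 0 := by
      have : k ≠ 0 := by linarith
      exact_mod_cast this
    exact div_ne_zero h3 two_ne_zero
  rcases lt_trichotomy t 0 with h2 | h2 | h2
  · have ht0 : ((t : ℝ) : ℂ) ≠ 0 := by exact_mod_cast h2.ne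
    rw [Complex.cpow_def_of_ne_zero ht0, Complex.exp_re] at h1
    have h3 : (Complex.log ((t : ℝ) : ℂ) * ((k : ℂ) / 2)).im = Real.pi * (k / 2) := by
      have e1 : (k : ℂ) / 2 = ((k / 2 : ℝ) : ℂ) := by push_cast; ring
      rw [e1, mul_comm, Complex.im_ofReal_mul, Complex.log_im, Complex.arg_ofReal_of_neg h2]
      ring
    rw [h3] at h1
    have h4 : Real.cos (Real.pi * (k / 2)) ≤ 0 := by
      apply Real.cos_nonpos_of_pi_div_two_le_of_le
      · nlinarith
      · nlinarith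
    have h5 := mul_nonpos_of_nonneg_of_nonpos
      (Real.exp_pos (Complex.log ((t : ℝ) : ℂ) * ((k : ℂ) / 2)).re).le h4
    linarith
  · rw [h2, Complex.ofReal_zero, Complex.zero_cpow hk0, Complex.zero_re] at h1
    linarith
  · have e1 : (k : ℂ) / 2 = ((k / 2 : ℝ) : ℂ) := by push_cast; ring
    rw [e1, ← Complex.ofReal_cpow h2.le, Complex.ofReal_re] at h1
    have h3 : t ^ (k / 2) ≤ 1 := Real.rpow_le_one h2.le ht (by linarith)
    linarith

/-- lower bound of `|s|^k`: otherwise there are `x_n` in the rectangle with `ek (D x_n) → 0`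
(`0 ≤ Im x_n`, by conjugation); a subsequence converges to `x*` in the closed rectangle; `rk (D x_n) → c`,
`rk = |1-D|^(k/2) e^{i(k/2) arg (1-D)}` with `arg (1-D) ∈ [0,π]`, so `1 - D x_n → c^(2/k)`,
`D x* = 1 - c^(2/k) < 0`, impossible: inside by `P1_lt`, on the top line `D = tD ≥ 0`, on the real axis by
`rD_gt`, `cT_ge`. -/
theorem ek_lower (h : HF k μ F) (hy : HY k μ F ly) (a b : ℝ) (hb : b < ell μ / 2) :
    ∃ δ : ℝ, 0 < δ ∧ ∀ x : ℂ, a ≤ x.re → x.re ≤ b → |x.im| < Real.pi / 2 →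
      δ ≤ ‖ek k μ (Dx F x)‖ := by
  have hl := EQ2.ell_pos h.hμ
  have hpi := Real.pi_pos
  set K : Set ℂ := Icc a b ×ℂ Icc 0 (Real.pi / 2) with hK
  have hKc : IsCompact K := isCompact_Icc.reProdIm isCompact_Icc
  have hKre : ∀ z ∈ K, z.re < ell μ / 2 := by
    intro z hz
    have := (Complex.mem_reProdIm.mp hz).1.2
    linarith
  have hmaps : ∀ z ∈ K, 0 ≤ (1 - Dx F z).im := by
    intro z hz
    have h1 := P1_le h hy (hKre z hz) (Complex.mem_reProdIm.mp hz).2.1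
      (Complex.mem_reProdIm.mp hz).2.2
    rw [Complex.sub_im, Complex.one_im]
    linarith
  have hcont : ContinuousOn (fun z => ‖(cK k μ : ℂ) - (1 - Dx F z) ^ ((k : ℂ) / 2)‖) K := by
    intro z hz
    have h1 : ContinuousWithinAt (fun z => 1 - Dx F z) K z :=
      continuousWithinAt_const.sub
        (h.Dx_differentiableAt (by linarith [hKre z hz])).continuousAt.continuousWithinAt
    have h2 := gimm_cont (μ := μ) h.hk (hmaps z hz)
    have h3 : ContinuousWithinAt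
        ((fun w : ℂ => (cK k μ : ℂ) - w ^ ((k : ℂ) / 2)) ∘ fun z => 1 - Dx F z) K z :=
      ContinuousWithinAt.comp (t := {z : ℂ | 0 ≤ z.im}) h2 h1 hmaps
    exact h3.norm
  have hne : ∀ z ∈ K, (cK k μ : ℂ) - (1 - Dx F z) ^ ((k : ℂ) / 2) ≠ 0 := by
    intro z hz
    obtain ⟨h1, h2⟩ := (Complex.mem_reProdIm.mp hz).2
    rcases h2.lt_or_eq with h3 | h3
    · have hadm := adm_half h hy (hKre z hz) (by rw [abs_of_nonneg h1]; exact h3)
      rw [gimm_ek hadm.ne1]
      exact Complex.slitPlane_ne_zero (hadm.slit2 h.hk h.hk2 h.hμ)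
    · have e : z = pt z.re (Real.pi / 2) := Complex.ext rfl h3
      rw [e, h.Dx_top (by linarith [hKre z hz])]
      have h4 : 0 ≤ tD F z.re := by
        unfold tD
        exact h.dr_nonneg (Real.exp_pos _).le
      have h5 : (1 : ℂ) - ((tD F z.re : ℝ) : ℂ) = ((1 - tD F z.re : ℝ) : ℂ) := by push_cast; ring
      rw [h5]
      exact gimm_real h.hk h.hk2 h.hμ (by linarith)
  have hδ : ∃ δ : ℝ, 0 < δ ∧ ∀ z ∈ K, δ ≤ ‖(cK k μ : ℂ) - (1 - Dx F z) ^ ((k : ℂ) / 2)‖ := by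
    rcases K.eq_empty_or_nonempty with h1 | h1
    · exact ⟨1, one_pos, fun z hz => by rw [h1] at hz; exact absurd hz (Set.notMem_empty z)⟩
    · obtain ⟨z0, hz0, hmin⟩ := hKc.exists_isMinOn h1 hcont
      exact ⟨_, norm_pos_iff.2 (hne z0 hz0), fun z hz => hmin hz⟩
  obtain ⟨δ, hδ0, hδ1⟩ := hδ
  have key : ∀ x : ℂ, a ≤ x.re → x.re ≤ b → 0 ≤ x.im → x.im < Real.pi / 2 →
      δ ≤ ‖ek k μ (Dx F x)‖ := by
    intro x h1 h2 h3 h4
    have hadm := adm_half h hy (x := x) (by linarith) (by rw [abs_of_nonneg h3]; exact h4)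
    rw [← gimm_ek hadm.ne1]
    exact hδ1 x (Complex.mem_reProdIm.mpr ⟨⟨h1, h2⟩, ⟨h3, h4.le⟩⟩)
  refine ⟨δ, hδ0, fun x h1 h2 h3 => ?_⟩
  rcases le_or_gt 0 x.im with h0 | h0
  · exact key x h1 h2 h0 (by rwa [abs_of_nonneg h0] at h3)
  · have hadm := adm_half h hy (x := x) (by linarith) h3
    have h4 := key ((starRingEnd ℂ) x) (by rw [Complex.conj_re]; exact h1)
      (by rw [Complex.conj_re]; exact h2) (by rw [Complex.conj_im]; linarith)
      (by rw [Complex.conj_im]; rwa [abs_of_neg h0] at h3)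
    rw [h.Dx_conj, gimm_conj hadm, RCLike.norm_conj] at h4
    exact h4

/-- boundedness: on `a - ℓ ≤ Re ≤ b - ℓ`, `|Im| < π/2` (`b - ℓ < ℓ/2`) `qx`, `exp (-LY)` and `Dx` are
bounded (compactness), `|exp (-Lg)| = |1-D|^(1/2)/|ek|^(1/k)` and `ek_lower`. -/
theorem qE_bdd (h : HF k μ F) (hy : HY k μ F ly) (a b : ℝ) (hb : b < 3 * ell μ / 2) :
    ∃ M : ℝ, ∀ x : ℂ, a ≤ x.re → x.re ≤ b → |x.im| < Real.pi / 2 → ‖qE k μ F ly x‖ ≤ M := by
  have hl := EQ2.ell_pos h.hμ
  have hk0 : 0 < k := by linarith [h.hk]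
  set K : Set ℂ := Icc (a - ell μ) (b - ell μ) ×ℂ Icc (-(Real.pi / 2)) (Real.pi / 2) with hK
  have hKc : IsCompact K := isCompact_Icc.reProdIm isCompact_Icc
  have hKre : ∀ z ∈ K, z.re < ell μ / 2 := by
    intro z hz
    have := (Complex.mem_reProdIm.mp hz).1.2
    linarith
  have hDc : ContinuousOn (fun z => 1 - Dx F z) K := fun z hz =>
    continuousWithinAt_const.sub
      (h.Dx_differentiableAt (by linarith [hKre z hz])).continuousAt.continuousWithinAt
  have hqc : ContinuousOn (qx k μ F ly) K := fun z hz =>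
    (HY.qx_differentiableAt h hy (by linarith [hKre z hz])).continuousAt.continuousWithinAt
  have hYc : ContinuousOn (fun z => Complex.exp (-LY ly z)) K := fun z hz =>
    ((HY.LY_differentiableAt h hy (by linarith [hKre z hz])).continuousAt.neg.cexp).continuousWithinAt
  obtain ⟨M1, hM1⟩ := hKc.exists_bound_of_continuousOn hqc
  obtain ⟨M2, hM2⟩ := hKc.exists_bound_of_continuousOn hYc
  obtain ⟨M3, hM3⟩ := hKc.exists_bound_of_continuousOn hDc
  obtain ⟨δ, hδ, hδ1⟩ := ek_lower h hy (a - ell μ) (b - ell μ) (by linarith)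
  set B : ℝ := Real.exp (-(Real.log δ) / k + Real.log (max M3 1) / 2) with hB
  have hB0 : 0 < B := Real.exp_pos _
  refine ⟨M1 + ‖(μ : ℂ) - 1‖ * (M2 * B), fun x hxa hxb hxi => ?_⟩
  set z := x - (ell μ : ℂ) with hz
  have hzre : z.re = x.re - ell μ := by rw [hz]; simp
  have hzim : z.im = x.im := by rw [hz]; simp
  have hzi : |z.im| < Real.pi / 2 := by rw [hzim]; exact hxi
  have hzK : z ∈ K := by
    refine Complex.mem_reProdIm.mpr ⟨⟨by rw [hzre]; linarith, by rw [hzre]; linarith⟩, ?_⟩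
    exact abs_le.mp hzi.le
  have hzr := hKre z hzK
  have hadm := adm_half h hy hzr hzi
  have he := hδ1 z (by rw [hzre]; linarith) (by rw [hzre]; linarith) hzi
  have hLg : ‖Complex.exp (-Lg k μ (Dx F z))‖ ≤ B := by
    rw [Complex.norm_exp, hB]
    apply Real.exp_le_exp.mpr
    have e1 : (-Lg k μ (Dx F z)).re =
        -(Real.log ‖ek k μ (Dx F z)‖) / k + Real.log ‖1 - Dx F z‖ / 2 := by
      unfold Lg
      rw [Complex.neg_re, Complex.sub_re]
      have e2 : (Complex.log (ek k μ (Dx F z)) / (k : ℂ)).re =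
          Real.log ‖ek k μ (Dx F z)‖ / k := by
        rw [Complex.div_ofReal_re, Complex.log_re]
      have e3 : (Complex.log (1 - Dx F z) / 2).re = Real.log ‖1 - Dx F z‖ / 2 := by
        have : (2 : ℂ) = ((2 : ℝ) : ℂ) := by norm_num
        rw [this, Complex.div_ofReal_re, Complex.log_re]
      rw [e2, e3]
      ring
    rw [e1]
    have e4 : Real.log δ ≤ Real.log ‖ek k μ (Dx F z)‖ := Real.log_le_log hδ he
    have e5 : Real.log ‖1 - Dx F z‖ ≤ Real.log (max M3 1) :=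
      Real.log_le_log (norm_pos_iff.2 hadm.ne1) ((hM3 z hzK).trans (le_max_left _ _))
    have e6 : -(Real.log ‖ek k μ (Dx F z)‖) / k ≤ -(Real.log δ) / k := by
      apply div_le_div_of_nonneg_right _ hk0.le
      linarith
    linarith
  have hM2' : 0 ≤ M2 := (norm_nonneg _).trans (hM2 z hzK)
  have hE : ‖Complex.exp (-LYE k μ F ly x)‖ ≤ M2 * B := by
    have e : Complex.exp (-LYE k μ F ly x) =
        Complex.exp (-LY ly z) * Complex.exp (-Lg k μ (Dx F z)) := by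
      unfold LYE
      rw [← Complex.exp_add, ← hz]
      congr 1
      ring
    rw [e, norm_mul]
    exact mul_le_mul (hM2 z hzK) hLg (norm_nonneg _) hM2'
  unfold qE
  rw [← hz]
  refine (norm_sub_le _ _).trans (add_le_add (hM1 z hzK) ?_)
  rw [norm_mul]
  exact mul_le_mul_of_nonneg_left hE (norm_nonneg _)

end EQG
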