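import Mathlib

/-!
# MP_226de1_co, exponents `1 ≤ k ≤ 2`: the inequality (G), part 1

With `S(T) = (1 + m^p - T^p)^(1/p)`, `0 < p ≤ 1`, `m > 1`:
`m / S(T) + S(m/(1+m-T)) ≤ 1 + m` for `0 < T ≤ (1+m)/2`  (`Gam` at the end).

Idea (helper80): `tau p m t = m/S(t)`, `tau1 m t = m/(1+m-t)`; (G) says
`tau1 (tau_p T) ≤ tau_p (tau1 T)`.  In the coordinate `lamb p m t` the map `tau_p` is the translation
by `log m`, and `y ↦ lamb (tau1 y) - lamb y` is antitone.
-/

set_option autoImplicit false

namespace EQG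

open Set Filter Topology

noncomputable section

/-- `f(u) = log (sinh (u/2) / sinh (p u/2))` -/
def fs (p u : ℝ) : ℝ := Real.log (Real.sinh (u / 2)) - Real.log (Real.sinh (p * u / 2))

/-- `sinh (s x) ≤ s sinh x` for `0 ≤ s ≤ 1`, `0 ≤ x` -/
private theorem gam1_sinh {s x : ℝ} (hs0 : 0 ≤ s) (hs1 : s ≤ 1) (hx : 0 ≤ x) :
    Real.sinh (s * x) ≤ s * Real.sinh x := by
  have hd : ∀ y : ℝ, HasDerivAt (fun y => s * Real.sinh y - Real.sinh (s * y))
      (s * Real.cosh y - Real.cosh (s * y) * s) y := by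
    intro y
    have h1 : HasDerivAt (fun y => s * y) s y := by
      simpa using (hasDerivAt_id y).const_mul s
    exact ((Real.hasDerivAt_sinh y).const_mul s).sub ((Real.hasDerivAt_sinh (s * y)).comp y h1)
  have hm : MonotoneOn (fun y => s * Real.sinh y - Real.sinh (s * y)) (Ici 0) := by
    refine monotoneOn_of_deriv_nonneg (convex_Ici 0)
      (fun y _ => (hd y).continuousAt.continuousWithinAt)
      (fun y _ => (hd y).differentiableAt.differentiableWithinAt) ?_
    intro y hy
    rw [interior_Ici, mem_Ioi] at hy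
    rw [(hd y).deriv]
    have h2 : Real.cosh (s * y) ≤ Real.cosh y := by
      rw [Real.cosh_le_cosh, abs_of_nonneg (mul_nonneg hs0 hy.le), abs_of_pos hy]
      nlinarith
    nlinarith
  have h3 := hm (mem_Ici.2 le_rfl) hx hx
  simp only [Real.sinh_zero, mul_zero, sub_zero] at h3
  linarith

private theorem gam1_deriv {p u : ℝ} (hp : 0 < p) (hu : 0 < u) :
    HasDerivAt (fs p) ((Real.cosh (u / 2) / Real.sinh (u / 2) -
      p * (Real.cosh (p * u / 2) / Real.sinh (p * u / 2))) / 2) u := by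
  have h1 : HasDerivAt (fun u : ℝ => u / 2) (1 / 2) u := (hasDerivAt_id u).div_const 2
  have h2 : HasDerivAt (fun u : ℝ => p * u / 2) (p * 1 / 2) u :=
    ((hasDerivAt_id u).const_mul p).div_const 2
  have s1 : Real.sinh (u / 2) ≠ 0 := (Real.sinh_pos_iff.2 (by positivity)).ne'
  have s2 : Real.sinh (p * u / 2) ≠ 0 := (Real.sinh_pos_iff.2 (by positivity)).ne'
  have h3 := (h1.sinh.log s1).sub (h2.sinh.log s2)
  refine h3.congr_deriv ?_
  ring

private theorem gam1_A {p a : ℝ} (hp : 0 < p) (hp1 : p ≤ 1) (ha : 0 < a) :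
    p * (Real.cosh (p * a) / Real.sinh (p * a)) ≤ Real.cosh a / Real.sinh a := by
  have s1 : 0 < Real.sinh a := Real.sinh_pos_iff.2 ha
  have s2 : 0 < Real.sinh (p * a) := Real.sinh_pos_iff.2 (by positivity)
  have hq : 0 < 1 + p := by linarith
  have h := gam1_sinh (s := (1 - p) / (1 + p)) (x := (1 + p) * a)
    (div_nonneg (by linarith) hq.le) (by rw [div_le_one hq]; linarith) (by positivity)
  have e1 : (1 - p) / (1 + p) * ((1 + p) * a) = a - p * a := by
    field_simp
  have e2 : (1 + p) * a = a + p * a := by ring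
  rw [e1, e2, Real.sinh_sub, Real.sinh_add] at h
  have h2 : (1 + p) * (Real.sinh a * Real.cosh (p * a) - Real.cosh a * Real.sinh (p * a)) ≤
      (1 - p) * (Real.sinh a * Real.cosh (p * a) + Real.cosh a * Real.sinh (p * a)) := by
    have h3 := mul_le_mul_of_nonneg_left h hq.le
    calc _ ≤ _ := h3
      _ = _ := by field_simp
  rw [mul_div_assoc', div_le_div_iff₀ s2 s1]
  nlinarith

/-- `f'(u) = (cosh (u/2)/sinh (u/2) - p cosh (pu/2)/sinh (pu/2))/2`, which is `≥ 0` because
`x cosh x / sinh x` is increasing on `x > 0` (derivative `(sinh x cosh x - x)/sinh² x`) and `p ≤ 1`. -/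
theorem fs_mono {p u v : ℝ} (hp : 0 < p) (hp1 : p ≤ 1) (hu : 0 < u) (huv : u ≤ v) :
    fs p u ≤ fs p v := by
  have hm : MonotoneOn (fs p) (Ioi 0) := by
    refine monotoneOn_of_deriv_nonneg (convex_Ioi 0)
      (fun y hy => (gam1_deriv hp hy).continuousAt.continuousWithinAt)
      (fun y hy => ?_) ?_
    · rw [interior_Ioi] at hy
      exact (gam1_deriv hp hy).differentiableAt.differentiableWithinAt
    · intro y hy
      rw [interior_Ioi, mem_Ioi] at hy
      rw [(gam1_deriv hp hy).deriv]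
      have h := gam1_A hp hp1 (a := y / 2) (by positivity)
      rw [show p * (y / 2) = p * y / 2 by ring] at h
      linarith
  exact hm hu (lt_of_lt_of_le hu huv) huv

/-- `f''(u) = (p²/sinh²(pu/2) - 1/sinh²(u/2))/4 ≥ 0` since `sinh (pu/2) ≤ p sinh (u/2)`
(convexity of `sinh` on `x ≥ 0`, `sinh 0 = 0`). -/
theorem fs_convex {p : ℝ} (hp : 0 < p) (hp1 : p ≤ 1) : ConvexOn ℝ (Ioi 0) (fs p) := by
  obtain ⟨g, hg⟩ : ∃ g : ℝ → ℝ, g = fun u => (Real.cosh (u / 2) / Real.sinh (u / 2) -
      p * (Real.cosh (p * u / 2) / Real.sinh (p * u / 2))) / 2 := ⟨_, rfl⟩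
  have hgd : ∀ u : ℝ, 0 < u → HasDerivAt g
      ((p ^ 2 / Real.sinh (p * u / 2) ^ 2 - 1 / Real.sinh (u / 2) ^ 2) / 4) u := by
    intro u hu
    have h1 : HasDerivAt (fun u : ℝ => u / 2) (1 / 2) u := (hasDerivAt_id u).div_const 2
    have h2 : HasDerivAt (fun u : ℝ => p * u / 2) (p * 1 / 2) u :=
      ((hasDerivAt_id u).const_mul p).div_const 2
    have s1 : Real.sinh (u / 2) ≠ 0 := (Real.sinh_pos_iff.2 (by positivity)).ne'
    have s2 : Real.sinh (p * u / 2) ≠ 0 := (Real.sinh_pos_iff.2 (by positivity)).ne'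
    have h3 := ((h1.cosh.div h1.sinh s1).sub ((h2.cosh.div h2.sinh s2).const_mul p)).div_const 2
    rw [hg]
    refine h3.congr_deriv ?_
    have c1 := Real.cosh_sq (u / 2)
    have c2 := Real.cosh_sq (p * u / 2)
    have e1 : Real.sinh (u / 2) * (1 / 2) * Real.sinh (u / 2) -
        Real.cosh (u / 2) * (Real.cosh (u / 2) * (1 / 2)) = -(1 / 2) := by nlinarith
    have e2 : Real.sinh (p * u / 2) * (p * 1 / 2) * Real.sinh (p * u / 2) -
        Real.cosh (p * u / 2) * (Real.cosh (p * u / 2) * (p * 1 / 2)) = -(p / 2) := by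
      have : Real.cosh (p * u / 2) * (Real.cosh (p * u / 2) * (p * 1 / 2)) =
        Real.cosh (p * u / 2) ^ 2 * (p / 2) := by ring
      rw [this, c2]
      ring
    rw [e1, e2]
    field_simp
    ring
  have hmono : MonotoneOn g (Ioi 0) := by
    refine monotoneOn_of_deriv_nonneg (convex_Ioi 0)
      (fun y hy => (hgd y hy).continuousAt.continuousWithinAt)
      (fun y hy => ?_) ?_
    · rw [interior_Ioi] at hy
      exact (hgd y hy).differentiableAt.differentiableWithinAt
    · intro y hy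
      rw [interior_Ioi, mem_Ioi] at hy
      rw [(hgd y hy).deriv]
      have s1 : 0 < Real.sinh (y / 2) := Real.sinh_pos_iff.2 (by positivity)
      have s2 : 0 < Real.sinh (p * y / 2) := Real.sinh_pos_iff.2 (by positivity)
      have h := gam1_sinh hp.le hp1 (x := y / 2) (by positivity)
      rw [show p * (y / 2) = p * y / 2 by ring] at h
      have h2 : 1 / Real.sinh (y / 2) ^ 2 ≤ p ^ 2 / Real.sinh (p * y / 2) ^ 2 := by
        rw [div_le_div_iff₀ (by positivity) (by positivity), one_mul, ← mul_pow]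
        exact pow_le_pow_left₀ s2.le h 2
      linarith
  refine MonotoneOn.convexOn_of_deriv (convex_Ioi 0)
    (fun y hy => (gam1_deriv hp hy).continuousAt.continuousWithinAt) ?_ ?_
  · intro y hy
    rw [interior_Ioi] at hy
    exact (gam1_deriv hp hy).differentiableAt.differentiableWithinAt
  · rw [interior_Ioi]
    intro x hx y hy hxy
    rw [(gam1_deriv hp hx).deriv, (gam1_deriv hp hy).deriv]
    have := hmono hx hy hxy
    rw [hg] at this
    exact this

/-- majorisation for the convex function `fs p`: `y` and `z` are convex combinations of `x` and `w`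
with complementary weights -/
theorem fs_major {p x y z w : ℝ} (hp : 0 < p) (hp1 : p ≤ 1) (hx : 0 < x) (hy : x ≤ y) (hz : x ≤ z)
    (hsum : x + w = y + z) : fs p y + fs p z ≤ fs p x + fs p w := by
  have hw : w = y + z - x := by linarith
  rcases eq_or_lt_of_le hy with h0 | h0
  · rw [← h0] at hw ⊢
    have : w = z := by linarith
    rw [this]
  · have hwx : x < w := by linarith
    have hwp : 0 < w := by linarith
    have hd : 0 < w - x := by linarith
    have hc := fs_convex hp hp1
    have ha : 0 ≤ (w - y) / (w - x) := div_nonneg (by linarith) hd.le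
    have hb : 0 ≤ (y - x) / (w - x) := div_nonneg (by linarith) hd.le
    have hab : (w - y) / (w - x) + (y - x) / (w - x) = 1 := by
      rw [← add_div, div_eq_one_iff_eq hd.ne']
      ring
    have h1 := hc.2 (mem_Ioi.2 hx) (mem_Ioi.2 hwp) ha hb hab
    have h2 := hc.2 (mem_Ioi.2 hx) (mem_Ioi.2 hwp) hb ha (by rw [add_comm]; exact hab)
    simp only [smul_eq_mul] at h1 h2
    have e1 : (w - y) / (w - x) * x + (y - x) / (w - x) * w = y := by
      field_simp
      ring
    have e2 : (y - x) / (w - x) * x + (w - y) / (w - x) * w = z := by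
      have hz' : z = x + w - y := by linarith
      rw [hz']
      field_simp
      ring
    rw [e1] at h1
    rw [e2] at h2
    have h3 : (w - y) / (w - x) * fs p x + (y - x) / (w - x) * fs p w +
        ((y - x) / (w - x) * fs p x + (w - y) / (w - x) * fs p w) = fs p x + fs p w := by
      have : (w - y) / (w - x) * fs p x + (y - x) / (w - x) * fs p w +
        ((y - x) / (w - x) * fs p x + (w - y) / (w - x) * fs p w) =
        ((w - y) / (w - x) + (y - x) / (w - x)) * (fs p x + fs p w) := by ring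
      rw [this, hab, one_mul]
    linarith

/-- `rh = lamb'/lamb1'` up to the factor `(m^p-1)/(m-1)` -/
def rh (p m t : ℝ) : ℝ :=
  t ^ (p - 1) * ((m - t) * (1 - t)) / ((m ^ p - t ^ p) * (1 - t ^ p))

private theorem gam1_exp (a b : ℝ) :
    Real.exp a - Real.exp b = 2 * Real.exp ((a + b) / 2) * Real.sinh ((a - b) / 2) := by
  rw [Real.sinh_eq]
  have e1 : Real.exp a = Real.exp ((a + b) / 2) * Real.exp ((a - b) / 2) := by
    rw [← Real.exp_add]
    congr 1
    ring
  have e2 : Real.exp b = Real.exp ((a + b) / 2) * Real.exp (-((a - b) / 2)) := by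
    rw [← Real.exp_add]
    congr 1
    ring
  rw [e1, e2]
  ring

private theorem gam1_alg {E1 E2 E3 E4 E5 E6 S1 S2 S3 S4 : ℝ} (h2 : S2 ≠ 0) (h4 : S4 ≠ 0)
    (hE4 : E4 ≠ 0) (hE5 : E5 ≠ 0) (key : E1 * (E2 * E3) = E6 * (E4 * E5)) :
    E1 * ((2 * E2 * S3) * (2 * E3 * S1)) / ((2 * E4 * S4) * (2 * E5 * S2)) =
      E6 * ((S1 / S2) * (S3 / S4)) := by
  rw [div_eq_iff (by positivity)]
  field_simp
  linear_combination (S1 * S3) * key

/-- with `θ = log t`, `b = log m`: `1 - t = - 2 t^(1/2) sinh (θ/2)`,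
`1 - t^p = - 2 t^(p/2) sinh (pθ/2)`, `m - t = 2 (mt)^(1/2) sinh ((b-θ)/2)`,
`m^p - t^p = 2 (mt)^(p/2) sinh (p(b-θ)/2)`. -/
theorem rh_eq {p m t : ℝ} (hp : 0 < p) (hm : 1 < m) (ht : 0 < t) (htm : t < m) (ht1 : t ≠ 1) :
    rh p m t = m ^ ((1 - p) / 2) *
      Real.exp (fs p |Real.log t| + fs p (Real.log m - Real.log t)) := by
  have hm0 : 0 < m := by linarith
  set θ := Real.log t with hθ
  set b := Real.log m with hb
  have hθ0 : θ ≠ 0 := Real.log_ne_zero_of_pos_of_ne_one ht ht1
  have hbθ : 0 < b - θ := by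
    have := Real.log_lt_log ht htm
    linarith
  have et : Real.exp θ = t := Real.exp_log ht
  have em : Real.exp b = m := Real.exp_log hm0
  have etp : t ^ p = Real.exp (p * θ) := by rw [Real.rpow_def_of_pos ht, mul_comm]
  have emp : m ^ p = Real.exp (p * b) := by rw [Real.rpow_def_of_pos hm0, mul_comm]
  have etq : t ^ (p - 1) = Real.exp ((p - 1) * θ) := by rw [Real.rpow_def_of_pos ht, mul_comm]
  have emq : m ^ ((1 - p) / 2) = Real.exp ((1 - p) / 2 * b) := by
    rw [Real.rpow_def_of_pos hm0, mul_comm]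
  have f1 : 1 - t = 2 * Real.exp (θ / 2) * Real.sinh (-θ / 2) := by
    have := gam1_exp 0 θ
    rw [Real.exp_zero, et, zero_add, zero_sub] at this
    exact this
  have f2 : 1 - t ^ p = 2 * Real.exp (p * θ / 2) * Real.sinh (-(p * θ) / 2) := by
    have := gam1_exp 0 (p * θ)
    rw [Real.exp_zero, ← etp, zero_add, zero_sub] at this
    exact this
  have f3 : m - t = 2 * Real.exp ((b + θ) / 2) * Real.sinh ((b - θ) / 2) := by
    have := gam1_exp b θ
    rw [em, et] at this
    exact this
  have f4 : m ^ p - t ^ p = 2 * Real.exp ((p * b + p * θ) / 2) *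
      Real.sinh ((p * b - p * θ) / 2) := by
    have := gam1_exp (p * b) (p * θ)
    rw [← emp, ← etp] at this
    exact this
  have s4 : 0 < Real.sinh ((p * b - p * θ) / 2) := by
    refine Real.sinh_pos_iff.2 ?_
    have : p * b - p * θ = p * (b - θ) := by ring
    rw [this]
    positivity
  have s3 : 0 < Real.sinh ((b - θ) / 2) := Real.sinh_pos_iff.2 (by positivity)
  have hs2 : Real.sinh (-(p * θ) / 2) ≠ 0 := by
    rw [Ne, Real.sinh_eq_zero]
    intro h
    have : p * θ = 0 := by linarith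
    rcases mul_eq_zero.1 this with h | h
    · exact hp.ne' h
    · exact hθ0 h
  have key : Real.exp ((p - 1) * θ) * (Real.exp ((b + θ) / 2) * Real.exp (θ / 2)) =
      Real.exp ((1 - p) / 2 * b) * (Real.exp ((p * b + p * θ) / 2) * Real.exp (p * θ / 2)) := by
    rw [← Real.exp_add, ← Real.exp_add, ← Real.exp_add, ← Real.exp_add]
    congr 1
    ring
  have hmain : rh p m t = Real.exp ((1 - p) / 2 * b) *
      ((Real.sinh (-θ / 2) / Real.sinh (-(p * θ) / 2)) *
        (Real.sinh ((b - θ) / 2) / Real.sinh ((p * b - p * θ) / 2))) := by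
    unfold rh
    rw [f2, f4, f3, f1, etq]
    exact gam1_alg hs2 s4.ne' (Real.exp_ne_zero _) (Real.exp_ne_zero _) key
  rw [hmain, emq]
  congr 1
  have hu : 0 < |θ| := abs_pos.2 hθ0
  have u1 : 0 < Real.sinh (|θ| / 2) := Real.sinh_pos_iff.2 (by positivity)
  have u2 : 0 < Real.sinh (p * |θ| / 2) := Real.sinh_pos_iff.2 (by positivity)
  have e4 : (p * b - p * θ) / 2 = p * (b - θ) / 2 := by ring
  rw [e4] at s4 ⊢
  have hr : Real.sinh (-θ / 2) / Real.sinh (-(p * θ) / 2) =
      Real.sinh (|θ| / 2) / Real.sinh (p * |θ| / 2) := by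
    rcases lt_or_gt_of_ne hθ0 with h | h
    · rw [abs_of_neg h, show p * -θ = -(p * θ) by ring]
    · rw [abs_of_pos h, neg_div, neg_div, Real.sinh_neg, Real.sinh_neg, neg_div_neg_eq]
  rw [hr, Real.exp_add]
  unfold fs
  rw [Real.exp_sub, Real.exp_sub, Real.exp_log u1, Real.exp_log u2, Real.exp_log s3,
    Real.exp_log s4]

/-- `|log t|` and `log m - log t` decrease with `t < 1`; `fs_mono` -/
theorem rh_left {p m s t : ℝ} (hp : 0 < p) (hp1 : p ≤ 1) (hm : 1 < m) (hs : 0 < s) (hst : s ≤ t)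
    (ht : t < 1) : rh p m t ≤ rh p m s := by
  have ht0 : 0 < t := by linarith
  have hl : Real.log s ≤ Real.log t := Real.log_le_log hs hst
  have hlt : Real.log t < 0 := Real.log_neg ht0 ht
  have hlm : 0 < Real.log m := Real.log_pos hm
  rw [rh_eq hp hm ht0 (by linarith) ht.ne, rh_eq hp hm hs (by linarith) (by linarith)]
  refine mul_le_mul_of_nonneg_left (Real.exp_le_exp.2 (add_le_add ?_ ?_)) (by positivity)
  · rw [abs_of_neg hlt, abs_of_neg (lt_of_le_of_lt hl hlt)]
    exact fs_mono hp hp1 (by linarith) (by linarith)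
  · exact fs_mono hp hp1 (by linarith) (by linarith)

/-- `fs_major` with `x = log s`, `w = log m - log s`, `y = log t`, `z = log m - log t`
(`x ≤ z` because `s t ≤ m`; `t < m` because `1 < s`) -/
theorem rh_right {p m s t : ℝ} (hp : 0 < p) (hp1 : p ≤ 1) (hm : 1 < m) (hs : 1 < s) (hst : s ≤ t)
    (hm2 : s * t ≤ m) : rh p m t ≤ rh p m s := by
  have hs0 : 0 < s := by linarith
  have ht0 : 0 < t := by linarith
  have htm : t < m := by nlinarith
  have hls : 0 < Real.log s := Real.log_pos hs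
  have hl : Real.log s ≤ Real.log t := Real.log_le_log hs0 hst
  have hsum : Real.log s + Real.log t ≤ Real.log m := by
    rw [← Real.log_mul hs0.ne' ht0.ne']
    exact Real.log_le_log (by positivity) hm2
  rw [rh_eq hp hm ht0 htm (by linarith), rh_eq hp hm hs0 (by linarith) hs.ne']
  refine mul_le_mul_of_nonneg_left (Real.exp_le_exp.2 ?_) (by positivity)
  rw [abs_of_pos hls, abs_of_pos (lt_of_lt_of_le hls hl)]
  exact fs_major hp hp1 hls hl (by linarith) (by ring)

end

end EQG
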