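import Pool.Agent.Lib.MP_226de1_co.G.Cmp

/-! Local existence of the unstable manifold, with nonnegative coefficients: the step
(compare `LocalExist.lean` one directory up, `k = 2`, where the private lemmas `MPr_*` can be copied). -/

set_option autoImplicit false

namespace EQG

open Complex Set Filter Topology
open EQ2 (dd dr xv ell pt NNS)

variable {k μ : ℝ}

/-- complex one-step map, written with nonnegative coefficients -/
noncomputable def PsiC (k μ : ℝ) (d d' : ℂ) : ℂ := gg k μ d + Sg k μ d * ps k μ d'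

theorem PsiC_ofReal (hk : 1 < k) (hk2 : k ≤ 2) (hμ : 1 < μ) {d d' : ℝ} (h0 : 0 ≤ d) (h1 : d < 1)
    (h0' : 0 ≤ d') (h1' : d' < 1) : PsiC k μ (d : ℂ) (d' : ℂ) = (Psi k μ d d' : ℂ) := by
  have hc := cT_ge hk hk2 hμ
  have hμ2 : 0 < μ ^ 2 := by positivity
  unfold PsiC gg Psi
  rw [Sg_ofReal hk hμ (by linarith) h1, ps_ofReal hk hμ (by linarith) h1,
    ps_ofReal hk hμ (by linarith) h1']
  push_cast
  ring

/-- negative axis: `Sg_ofReal`, `ps_ofReal` at `-e`, `-e'` -/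
theorem PsiC_neg (hk : 1 < k) (hk2 : k ≤ 2) (hμ : 1 < μ) {e e' : ℝ} (h0 : 0 ≤ e)
    (h1 : 1 + e < cT k μ) (h0' : 0 ≤ e') (h1' : 1 + e' < cT k μ) :
    PsiC k μ ((-e : ℝ) : ℂ) ((-e' : ℝ) : ℂ) = ((-Ph k μ e e' : ℝ) : ℂ) := by
  have _ := hk2
  unfold PsiC gg Ph
  rw [Sg_ofReal hk hμ (by linarith) (by linarith), ps_ofReal hk hμ (by linarith) (by linarith),
    ps_ofReal hk hμ (by linarith) (by linarith)]
  unfold Sr psr
  rw [sub_neg_eq_add, sub_neg_eq_add]
  push_cast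
  ring

/-- a coefficientwise monotone pair of power series with the same constant term `c` -/
private def MPr (c r : ℝ) (f g : ℂ → ℂ) : Prop :=
  ∃ a b : ℕ → ℝ, a 0 = c ∧ b 0 = c ∧ (∀ n, 0 ≤ a n) ∧ (∀ n, a n ≤ b n) ∧
    ∀ v : ℂ, ‖v‖ < r →
      HasSum (fun n => (a n : ℂ) * v ^ n) (f v) ∧ HasSum (fun n => (b n : ℂ) * v ^ n) (g v)

private theorem single_hasSum (c : ℝ) (v : ℂ) :
    HasSum (fun n => (((Pi.single 0 c : ℕ → ℝ) n : ℝ) : ℂ) * v ^ n) (c : ℂ) := by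
  have h := hasSum_single (f := fun n => (((Pi.single 0 c : ℕ → ℝ) n : ℝ) : ℂ) * v ^ n) 0
    (fun n hn => by simp [Pi.single_eq_of_ne hn])
  simpa using h

private theorem MPr_const (r : ℝ) {c : ℝ} (hc : 0 ≤ c) :
    MPr c r (fun _ => (c : ℂ)) (fun _ => (c : ℂ)) := by
  refine ⟨Pi.single 0 c, Pi.single 0 c, by simp, by simp, fun n => ?_, fun n => le_rfl,
    fun v _ => ⟨single_hasSum c v, single_hasSum c v⟩⟩
  by_cases h : n = 0
  · subst h
    simpa using hc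
  · simp [Pi.single_eq_of_ne h]

private theorem MPr_add {c c' r : ℝ} {f g f' g' : ℂ → ℂ} (h : MPr c r f g) (h' : MPr c' r f' g') :
    MPr (c + c') r (fun v => f v + f' v) (fun v => g v + g' v) := by
  obtain ⟨a, b, h1, h2, h3, h4, h5⟩ := h
  obtain ⟨a', b', k1, k2, k3, k4, k5⟩ := h'
  refine ⟨fun n => a n + a' n, fun n => b n + b' n, by simp [h1, k1], by simp [h2, k2],
    fun n => add_nonneg (h3 n) (k3 n), fun n => add_le_add (h4 n) (k4 n), fun v hv => ⟨?_, ?_⟩⟩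
  · have := (h5 v hv).1.add (k5 v hv).1
    simpa [add_mul] using this
  · have := (h5 v hv).2.add (k5 v hv).2
    simpa [add_mul] using this

private theorem MPr_sub {c c' r : ℝ} {f g : ℂ → ℂ} (h : MPr c r f g) (hc : c' ≤ c) :
    MPr (c - c') r (fun v => f v - (c' : ℂ)) (fun v => g v - (c' : ℂ)) := by
  obtain ⟨a, b, h1, h2, h3, h4, h5⟩ := h
  have hnn : ∀ d : ℕ → ℝ, d 0 = c → (∀ n, 0 ≤ d n) → ∀ n, 0 ≤ d n - (Pi.single 0 c' : ℕ → ℝ) n := by
    intro d hd hd' n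
    by_cases h : n = 0
    · subst h
      simp [hd, hc]
    · simpa [Pi.single_eq_of_ne h] using hd' n
  refine ⟨fun n => a n - (Pi.single 0 c' : ℕ → ℝ) n, fun n => b n - (Pi.single 0 c' : ℕ → ℝ) n,
    by simp [h1], by simp [h2], hnn a h1 h3, fun n => sub_le_sub_right (h4 n) _,
    fun v hv => ⟨?_, ?_⟩⟩
  · have := (h5 v hv).1.sub (single_hasSum c' v)
    simpa [sub_mul] using this
  · have := (h5 v hv).2.sub (single_hasSum c' v)
    simpa [sub_mul] using this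

/-- norm summability -/
private theorem norm_summable {a : ℕ → ℝ} {r : ℝ} {f : ℂ → ℂ}
    (h : ∀ v : ℂ, ‖v‖ < r → HasSum (fun n => (a n : ℂ) * v ^ n) (f v)) (v : ℂ) (hv : ‖v‖ < r) :
    Summable fun n => ‖(a n : ℂ) * v ^ n‖ := by
  have h1 := (h (‖v‖ : ℂ) (by simpa using hv)).summable.norm
  simpa using h1

private theorem MPr_mul {c c' r : ℝ} {f g f' g' : ℂ → ℂ} (h : MPr c r f g) (h' : MPr c' r f' g') :
    MPr (c * c') r (fun v => f v * f' v) (fun v => g v * g' v) := by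
  obtain ⟨a, b, h1, h2, h3, h4, h5⟩ := h
  obtain ⟨a', b', k1, k2, k3, k4, k5⟩ := h'
  have key : ∀ (x y : ℕ → ℝ) (F G : ℂ → ℂ),
      (∀ v : ℂ, ‖v‖ < r → HasSum (fun n => (x n : ℂ) * v ^ n) (F v)) →
      (∀ v : ℂ, ‖v‖ < r → HasSum (fun n => (y n : ℂ) * v ^ n) (G v)) → ∀ v : ℂ, ‖v‖ < r →
      HasSum (fun n => ((∑ kl ∈ Finset.HasAntidiagonal.antidiagonal n, x kl.1 * y kl.2 : ℝ) : ℂ) * v ^ n)
        (F v * G v) := by
    intro x y F G hF hG v hv
    have n1 := norm_summable hF v hv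
    have n2 := norm_summable hG v hv
    have e1 := tsum_mul_tsum_eq_tsum_sum_antidiagonal_of_summable_norm n1 n2
    have e2 := (summable_norm_sum_mul_antidiagonal_of_summable_norm n1 n2).of_norm
    rw [(hF v hv).tsum_eq, (hG v hv).tsum_eq] at e1
    rw [e1]
    have e3 : (fun n => ((∑ kl ∈ Finset.HasAntidiagonal.antidiagonal n, x kl.1 * y kl.2 : ℝ) : ℂ) * v ^ n)
        = fun n => ∑ kl ∈ Finset.HasAntidiagonal.antidiagonal n, ((x kl.1 : ℂ) * v ^ kl.1)
          * ((y kl.2 : ℂ) * v ^ kl.2) := by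
      funext n
      push_cast
      rw [Finset.sum_mul]
      refine Finset.sum_congr rfl fun kl hkl => ?_
      rw [← Finset.HasAntidiagonal.mem_antidiagonal.1 hkl, pow_add]
      ring
    rw [e3]
    exact e2.hasSum
  refine ⟨fun n => ∑ kl ∈ Finset.HasAntidiagonal.antidiagonal n, a kl.1 * a' kl.2,
    fun n => ∑ kl ∈ Finset.HasAntidiagonal.antidiagonal n, b kl.1 * b' kl.2, by simp [h1, k1], by simp [h2, k2],
    fun n => Finset.sum_nonneg fun kl _ => mul_nonneg (h3 _) (k3 _),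
    fun n => Finset.sum_le_sum fun kl _ => mul_le_mul (h4 _) (k4 _) (k3 _) ((h3 _).trans (h4 _)),
    fun v hv => ⟨key a a' f f' (fun v hv => (h5 v hv).1) (fun v hv => (k5 v hv).1) v hv,
      key b b' g g' (fun v hv => (h5 v hv).2) (fun v hv => (k5 v hv).2) v hv⟩⟩

private theorem MPr_pow {r : ℝ} {f g : ℂ → ℂ} (h : MPr 0 r f g) (n : ℕ) :
    MPr (if n = 0 then 1 else 0) r (fun v => f v ^ n) (fun v => g v ^ n) := by
  induction n with
  | zero => simpa using MPr_const r zero_le_one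
  | succ n ih =>
    have := MPr_mul ih h
    simpa [pow_succ] using this

/-- real part of a real power series at a real point -/
private theorem real_hasSum {a : ℕ → ℝ} {t : ℝ} {z : ℂ}
    (h : HasSum (fun n => (a n : ℂ) * (t : ℂ) ^ n) z) :
    HasSum (fun n => a n * t ^ n) z.re ∧ z = (z.re : ℂ) := by
  have e : (fun n => (a n : ℂ) * (t : ℂ) ^ n) = fun n => ((a n * t ^ n : ℝ) : ℂ) := by
    funext n
    push_cast
    rfl
  rw [e] at h
  have h1 : HasSum (fun n => a n * t ^ n) z.re := by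
    have := Complex.reCLM.hasSum h
    exact this
  refine ⟨h1, ?_⟩
  have h2 : HasSum (fun n => ((a n * t ^ n : ℝ) : ℂ)) (z.re : ℂ) := Complex.hasSum_ofReal.2 h1
  exact h.unique h2

private theorem comp_aux {s : ℕ → ℝ} {G : ℂ → ℂ} (hs : ∀ n, 0 ≤ s n)
    (hG : ∀ z : ℂ, ‖z‖ < 1 → HasSum (fun n => (s n : ℂ) * z ^ n) (G z)) {r : ℝ}
    {f : ℂ → ℂ} {P : ℕ → ℕ → ℝ} (hP : ∀ n k, 0 ≤ P n k)
    (hPs : ∀ n, ∀ v : ℂ, ‖v‖ < r → HasSum (fun k => (P n k : ℂ) * v ^ k) (f v ^ n))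
    (hlt : ∀ t : ℝ, 0 ≤ t → t < r → (f t).re < 1) :
    (∀ t : ℝ, 0 ≤ t → t < r → Summable fun p : ℕ × ℕ => s p.1 * P p.1 p.2 * t ^ p.2) ∧
    ∀ v : ℂ, ‖v‖ < r → HasSum (fun k => ((∑' n, s n * P n k : ℝ) : ℂ) * v ^ k) (G (f v)) := by
  have hreal : ∀ t : ℝ, 0 ≤ t → t < r → f t = ((f t).re : ℂ) ∧ 0 ≤ (f t).re := by
    intro t ht htr
    have h1 := hPs 1 (t : ℂ) (by rw [Complex.norm_real, Real.norm_of_nonneg ht]; exact htr)
    rw [pow_one] at h1
    obtain ⟨h2, h3⟩ := real_hasSum h1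
    exact ⟨h3, h2.nonneg fun n => mul_nonneg (hP 1 n) (pow_nonneg ht n)⟩
  have hsum : ∀ t : ℝ, 0 ≤ t → t < r →
      Summable fun p : ℕ × ℕ => s p.1 * P p.1 p.2 * t ^ p.2 := by
    intro t ht htr
    obtain ⟨h1, h2⟩ := hreal t ht htr
    have h3 := hlt t ht htr
    have hnt : ‖(t : ℂ)‖ < r := by rw [Complex.norm_real, Real.norm_of_nonneg ht]; exact htr
    have hn : ∀ n, HasSum (fun k => P n k * t ^ k) ((f t).re ^ n) := by
      intro n
      have h4 := (real_hasSum (hPs n (t : ℂ) hnt)).1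
      have h5 : (f t ^ n).re = (f t).re ^ n := by
        rw [h1]
        rw [← Complex.ofReal_pow, Complex.ofReal_re, Complex.ofReal_re]
      rw [h5] at h4
      exact h4
    rw [summable_prod_of_nonneg (fun p => mul_nonneg (mul_nonneg (hs _) (hP _ _))
      (pow_nonneg ht _))]
    constructor
    · intro n
      have := ((hn n).mul_left (s n)).summable
      simpa [mul_assoc] using this
    · have h6 : (fun n => ∑' k, s n * P n k * t ^ k) = fun n => s n * (f t).re ^ n := by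
        funext n
        have := ((hn n).mul_left (s n)).tsum_eq
        simpa [mul_assoc] using this
      show Summable fun n => ∑' k, s n * P n k * t ^ k
      rw [h6]
      have h7 := hG ((f t).re : ℂ) (by
        rw [Complex.norm_real, Real.norm_of_nonneg h2]
        exact h3)
      exact (real_hasSum h7).1.summable
  refine ⟨hsum, fun v hv => ?_⟩
  have hsv : Summable fun p : ℕ × ℕ => (s p.1 : ℂ) * (P p.1 p.2 : ℂ) * v ^ p.2 := by
    refine Summable.of_norm ?_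
    have h1 := hsum ‖v‖ (norm_nonneg v) hv
    refine h1.congr fun p => ?_
    rw [norm_mul, norm_mul, norm_pow, Complex.norm_real, Complex.norm_real,
      Real.norm_of_nonneg (hs _), Real.norm_of_nonneg (hP _ _)]
  have hle : ‖f v‖ < 1 := by
    have h1 := hPs 1 v hv
    have h2 := hPs 1 (‖v‖ : ℂ) (by simpa using hv)
    rw [pow_one] at h1 h2
    have h3 := (real_hasSum h2).1
    have h4 : ‖f v‖ ≤ (f ‖v‖).re := by
      rw [← h1.tsum_eq]
      refine tsum_of_norm_bounded h3 fun k => ?_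
      rw [norm_mul, norm_pow, Complex.norm_real, Real.norm_of_nonneg (hP _ _)]
    exact h4.trans_lt (hlt ‖v‖ (norm_nonneg v) hv)
  have hA : HasSum (fun p : ℕ × ℕ => (s p.1 : ℂ) * (P p.1 p.2 : ℂ) * v ^ p.2) (G (f v)) := by
    have h1 := hsv.hasSum
    have h2 : HasSum (fun n => (s n : ℂ) * f v ^ n)
        (∑' p : ℕ × ℕ, (s p.1 : ℂ) * (P p.1 p.2 : ℂ) * v ^ p.2) := by
      refine h1.prod_fiberwise fun n => ?_
      have := (hPs n v hv).mul_left (s n : ℂ)
      simpa [mul_assoc] using this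
    have h3 := (hG (f v) hle).unique h2
    rw [h3]
    exact h1
  have hB : HasSum (fun p : ℕ × ℕ => (s p.2 : ℂ) * (P p.2 p.1 : ℂ) * v ^ p.1) (G (f v)) := by
    have := (Equiv.prodComm ℕ ℕ).hasSum_iff.2 hA
    exact this
  refine hB.prod_fiberwise fun k => ?_
  by_cases hv0 : v = 0
  · by_cases hk : k = 0
    · subst hk
      have h1 : Summable fun n => s n * P n 0 := by
        have h2 := (hsum 0 le_rfl (by simpa [hv0] using hv))
        have h3 := h2.comp_injective (i := fun n : ℕ => ((n, 0) : ℕ × ℕ))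
          (fun a b hab => (Prod.mk.inj hab).1)
        simpa [Function.comp_def] using h3
      have h4 : HasSum (fun n => ((s n * P n 0 : ℝ) : ℂ)) ((∑' n, s n * P n 0 : ℝ) : ℂ) :=
        Complex.hasSum_ofReal.2 h1.hasSum
      simpa using h4
    · simp [hv0, hk]
  · have hvpos : 0 < ‖v‖ := norm_pos_iff.2 hv0
    have h1 : Summable fun n => s n * P n k := by
      have h2 := hsum ‖v‖ (norm_nonneg v) hv
      have h3 := h2.comp_injective (i := fun n : ℕ => ((n, k) : ℕ × ℕ))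
        (fun a b hab => (Prod.mk.inj hab).1)
      have h4 := h3.mul_right ((‖v‖ ^ k)⁻¹)
      refine h4.congr fun n => ?_
      simp only [Function.comp_def]
      field_simp
    have h4 : HasSum (fun n => ((s n * P n k : ℝ) : ℂ)) ((∑' n, s n * P n k : ℝ) : ℂ) :=
      Complex.hasSum_ofReal.2 h1.hasSum
    have h5 := h4.mul_right (v ^ k)
    simpa using h5

private theorem MPr_comp {s : ℕ → ℝ} {G : ℂ → ℂ} (hs : ∀ n, 0 ≤ s n)
    (hG : ∀ z : ℂ, ‖z‖ < 1 → HasSum (fun n => (s n : ℂ) * z ^ n) (G z)) {r : ℝ} (hr : 0 < r)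
    {f g : ℂ → ℂ} (h : MPr 0 r f g) (hlt : ∀ t : ℝ, 0 ≤ t → t < r → (g t).re < 1) :
    MPr (s 0) r (fun v => G (f v)) (fun v => G (g v)) := by
  have hpow := MPr_pow h
  choose P Q hP0 hQ0 hPn hPQ hPQs using hpow
  have hQn : ∀ n k, 0 ≤ Q n k := fun n k => (hPn n k).trans (hPQ n k)
  have hflt : ∀ t : ℝ, 0 ≤ t → t < r → (f t).re < 1 := by
    intro t ht htr
    have hnt : ‖(t : ℂ)‖ < r := by rw [Complex.norm_real, Real.norm_of_nonneg ht]; exact htr
    have h1 := (hPQs 1 (t : ℂ) hnt).1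
    have h2 := (hPQs 1 (t : ℂ) hnt).2
    simp only [pow_one] at h1 h2
    refine lt_of_le_of_lt ?_ (hlt t ht htr)
    exact hasSum_le (fun n => mul_le_mul_of_nonneg_right (hPQ 1 n) (pow_nonneg ht n))
      (real_hasSum h1).1 (real_hasSum h2).1
  obtain ⟨a1, a2⟩ := comp_aux hs hG hPn (fun n v hv => (hPQs n v hv).1) hflt
  obtain ⟨b1, b2⟩ := comp_aux hs hG hQn (fun n v hv => (hPQs n v hv).2) hlt
  have hsumm : ∀ R : ℕ → ℕ → ℝ,
      (∀ t : ℝ, 0 ≤ t → t < r → Summable fun p : ℕ × ℕ => s p.1 * R p.1 p.2 * t ^ p.2) →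
      ∀ k, Summable fun n => s n * R n k := by
    intro R hR k
    have hr2 : 0 < r / 2 := by linarith
    have h2 := hR (r / 2) hr2.le (by linarith)
    have h3 := h2.comp_injective (i := fun n : ℕ => ((n, k) : ℕ × ℕ))
      (fun a b hab => (Prod.mk.inj hab).1)
    have h4 := h3.mul_right (((r / 2) ^ k)⁻¹)
    refine h4.congr fun n => ?_
    simp only [Function.comp_def]
    have : (r / 2) ^ k ≠ 0 := (pow_pos hr2 k).ne'
    field_simp
  have hz : ∀ R : ℕ → ℕ → ℝ, (∀ n, R n 0 = if n = 0 then 1 else 0) →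
      ∑' n, s n * R n 0 = s 0 := by
    intro R hR
    rw [tsum_eq_single 0]
    · rw [hR 0]
      simp
    · intro n hn
      rw [hR n, if_neg hn, mul_zero]
  refine ⟨fun k => ∑' n, s n * P n k, fun k => ∑' n, s n * Q n k, hz P hP0, hz Q hQ0,
    fun k => tsum_nonneg fun n => mul_nonneg (hs n) (hPn n k), fun k => ?_,
    fun v hv => ⟨a2 v hv, b2 v hv⟩⟩
  exact (hsumm P a1 k).tsum_le_tsum (fun n => mul_le_mul_of_nonneg_left (hPQ n k) (hs n))
    (hsumm Q b1 k)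

private theorem Sg_zero' (hk : 1 < k) (hμ : 1 < μ) : Sg k μ 0 = (μ : ℂ) := by
  unfold Sg
  rw [Lg_zero hk hμ, ← Complex.ofReal_exp, Real.exp_log (by linarith)]

private theorem gg_zero' (hk : 1 < k) (hμ : 1 < μ) : gg k μ 0 = 0 := by
  unfold gg
  rw [Sg_zero' hk hμ, ps_zero hk hμ]
  ring

private theorem coeff_zero {s : ℕ → ℝ} {G : ℂ → ℂ} {c : ℝ} (hG0 : G 0 = (c : ℂ))
    (hG : ∀ z : ℂ, ‖z‖ < 1 → HasSum (fun n => (s n : ℂ) * z ^ n) (G z)) : s 0 = c := by
  have h1 := (hG 0 (by simp)).tsum_eq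
  rw [tsum_eq_single 0 (fun n hn => by simp [hn]), hG0] at h1
  simpa using h1

/-- coefficientwise monotone step: if `f`, `g` are given on `|v| < r` by series with
nonnegative coefficients `a ≤ b` and the sum of `b` stays `< 1` on `[0, r/μ²)`, then the steps of
`f`, `g` on `|v| < r` have nonnegative coefficients `a' ≤ b'`.  (`NNS_gg`, `NNS_Sg`, `NNS_ps`,
`gg 0 = 0`, `ps 0 = 0`; composition, sums and products of coefficientwise monotone pairs as for
`k = 2`.) -/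
theorem PsiC_step_mono {r : ℝ} (hk : 1 < k) (hk2 : k ≤ 2) (hμ : 1 < μ) (hr : 0 < r)
    {a b : ℕ → ℝ} (ha0 : a 0 = 0) (hb0 : b 0 = 0) (ha : ∀ n, 0 ≤ a n) (hab : ∀ n, a n ≤ b n)
    (hs : ∀ t : ℝ, 0 ≤ t → t < r / μ ^ 2 → Summable (fun n => b n * t ^ n) ∧
      ∑' n, b n * t ^ n < 1) :
    ∃ a' b' : ℕ → ℝ, a' 0 = 0 ∧ b' 0 = 0 ∧ (∀ n, 0 ≤ a' n) ∧ (∀ n, a' n ≤ b' n) ∧
      ∀ v : ℂ, ‖v‖ < r →
        HasSum (fun n => (a' n : ℂ) * v ^ n)
          (PsiC k μ (dd a (v / (μ : ℂ) ^ 2)) (dd a (v / (μ : ℂ) ^ 4))) ∧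
        HasSum (fun n => (b' n : ℂ) * v ^ n)
          (PsiC k μ (dd b (v / (μ : ℂ) ^ 2)) (dd b (v / (μ : ℂ) ^ 4))) := by
  have hb : ∀ n, 0 ≤ b n := fun n => (ha n).trans (hab n)
  have hμ0 : 0 < μ := by linarith
  have hm : 0 < μ ^ 2 := by positivity
  -- the scaled series
  have hsc : ∀ j : ℕ, 2 ≤ j → MPr 0 r (fun v => dd a (v / (μ : ℂ) ^ j))
      (fun v => dd b (v / (μ : ℂ) ^ j)) := by
    intro j hj
    have hmj : 0 < μ ^ j := by positivity
    have hpow : μ ^ 2 ≤ μ ^ j := pow_le_pow_right₀ hμ.le hj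
    have key : ∀ x : ℕ → ℝ, (∀ n, 0 ≤ x n) → (∀ n, x n ≤ b n) → ∀ v : ℂ, ‖v‖ < r →
        HasSum (fun n => ((x n / (μ ^ j) ^ n : ℝ) : ℂ) * v ^ n) (dd x (v / (μ : ℂ) ^ j)) := by
      intro x hx hxb v hv
      have ht : ‖v‖ / μ ^ j < r / μ ^ 2 :=
        (div_le_div_of_nonneg_left (norm_nonneg v) hm hpow).trans_lt
          ((div_lt_div_iff_of_pos_right hm).2 hv)
      have h1 := (hs (‖v‖ / μ ^ j) (by positivity) ht).1
      have h2 : Summable fun n => (x n : ℂ) * (v / (μ : ℂ) ^ j) ^ n := by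
        refine Summable.of_norm_bounded h1 fun n => ?_
        rw [norm_mul, norm_pow, norm_div, norm_pow, Complex.norm_real, Complex.norm_real,
          Real.norm_of_nonneg (hx n), Real.norm_of_nonneg hμ0.le]
        exact mul_le_mul_of_nonneg_right (hxb n) (by positivity)
      have h3 := h2.hasSum
      have h4 : (fun n => ((x n / (μ ^ j) ^ n : ℝ) : ℂ) * v ^ n)
          = fun n => (x n : ℂ) * (v / (μ : ℂ) ^ j) ^ n := by
        funext n
        push_cast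
        rw [div_pow]
        ring
      rw [h4]
      exact h3
    refine ⟨fun n => a n / (μ ^ j) ^ n, fun n => b n / (μ ^ j) ^ n, by simp [ha0], by simp [hb0],
      fun n => div_nonneg (ha n) (by positivity),
      fun n => div_le_div_of_nonneg_right (hab n) (by positivity),
      fun v hv => ⟨key a ha hab v hv, key b hb (fun n => le_rfl) v hv⟩⟩
  have hd := hsc 2 le_rfl
  have hd' := hsc 4 (by norm_num)
  have hlt : ∀ j : ℕ, 2 ≤ j → ∀ t : ℝ, 0 ≤ t → t < r →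
      (dd b ((t : ℂ) / (μ : ℂ) ^ j)).re < 1 := by
    intro j hj t ht htr
    have hmj : 0 < μ ^ j := by positivity
    have hpow : μ ^ 2 ≤ μ ^ j := pow_le_pow_right₀ hμ.le hj
    have h1 := hs (t / μ ^ j) (by positivity)
      ((div_le_div_of_nonneg_left ht hm hpow).trans_lt ((div_lt_div_iff_of_pos_right hm).2 htr))
    have h2 : dd b ((t : ℂ) / (μ : ℂ) ^ j) = ((∑' n, b n * (t / μ ^ j) ^ n : ℝ) : ℂ) := by
      unfold dd
      rw [Complex.ofReal_tsum]
      refine tsum_congr fun n => ?_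
      push_cast
      rfl
    rw [h2, Complex.ofReal_re]
    exact h1.2
  obtain ⟨s1, hs1, hsS1⟩ := NNS_gg hk hk2 hμ
  obtain ⟨s2, hs2, hsS2⟩ := NNS_Sg hk hk2 hμ
  obtain ⟨s3, hs3, hsS3⟩ := NNS_ps hk hk2 hμ
  have z1 : s1 0 = 0 := coeff_zero (c := 0) (by rw [gg_zero' hk hμ]; simp) hsS1
  have z2 : s2 0 = μ := coeff_zero (Sg_zero' hk hμ) hsS2
  have z3 : s3 0 = 0 := coeff_zero (c := 0) (by rw [ps_zero hk hμ]; simp) hsS3
  have t1 := MPr_comp hs1 hsS1 hr hd (hlt 2 le_rfl)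
  have t2 := MPr_comp hs2 hsS2 hr hd (hlt 2 le_rfl)
  have t3 := MPr_comp hs3 hsS3 hr hd' (hlt 4 (by norm_num))
  rw [z1] at t1
  rw [z2] at t2
  rw [z3] at t3
  obtain ⟨a', b', h1, h2, h3, h4, h5⟩ := MPr_add t1 (MPr_mul t2 t3)
  refine ⟨a', b', ?_, ?_, h3, h4, fun v hv => ?_⟩
  · rw [h1]
    ring
  · rw [h2]
    ring
  · exact h5 v hv

end EQG
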