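import Pool.Agent.Lib.MP_226de1_co.G.XTop
import Pool.Agent.Lib.MP_226de1_co.MaxPrinc
import Pool.Agent.Lib.MP_226de1_co.TypReal

/-! The quadrant loop: definition and base case (compare `LoopDef.lean`, `k = 2`).
The abstract lemmas are `EQ2.halfstep_sum`, `EQ2.halfstep_diff`, `EQ2.im_neg_of_nonpos`,
`EQ2.deriv_neg_of_im_nonpos_up`, `EQ2.eq_const_of_loc_const`. -/

set_option autoImplicit false

namespace EQG

open Complex Set Filter Topology
open EQ2 (dd dr xv ell pt NNS)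

/-- `q` lies in the closed fourth quadrant on `Re x ≤ r`, `0 ≤ Im x ≤ π/2` -/
def QB (k μ : ℝ) (F : ℕ → ℝ) (ly : ℂ → ℂ) (r : ℝ) : Prop :=
  ∀ x : ℂ, x.re ≤ r → 0 ≤ x.im → x.im ≤ Real.pi / 2 →
    0 ≤ (qx k μ F ly x).re ∧ (qx k μ F ly x).im ≤ 0

variable {k μ : ℝ} {F : ℕ → ℝ} {ly : ℂ → ℂ}

private theorem ld_conj_tendsto :
    Tendsto (fun v : ℂ => (starRingEnd ℂ) v) (𝓝 0) (𝓝 0) := by
  have h := Complex.continuous_conj.tendsto (0 : ℂ)
  simpa using h

private theorem ld_norm_sub_conj (z : ℂ) : ‖z - (starRingEnd ℂ) z‖ = 2 * |z.im| := by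
  rw [Complex.sub_conj, norm_mul, Complex.norm_I, mul_one, Complex.norm_real, Real.norm_eq_abs,
    abs_mul, abs_of_pos (by norm_num : (0 : ℝ) < 2)]

private theorem ld_im_bound {g : ℂ → ℂ} (hg : AnalyticAt ℂ g 0)
    (hc : ∀ᶠ v in 𝓝 (0 : ℂ), g ((starRingEnd ℂ) v) = (starRingEnd ℂ) (g v)) :
    ∃ K : ℝ, 0 ≤ K ∧ ∀ᶠ v in 𝓝 (0 : ℂ), |(g v).im| ≤ K * |v.im| := by
  obtain ⟨K, s, hs, hL⟩ := hg.hasStrictFDerivAt.exists_lipschitzOnWith
  refine ⟨K, K.2, ?_⟩
  have e1 : ∀ᶠ v in 𝓝 (0 : ℂ), v ∈ s := hs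
  have e2 : ∀ᶠ v in 𝓝 (0 : ℂ), (starRingEnd ℂ) v ∈ s := ld_conj_tendsto.eventually e1
  filter_upwards [e1, e2, hc] with v h1 h2 h3
  have h4 := hL.dist_le_mul v h1 _ h2
  rw [h3, dist_eq_norm, dist_eq_norm, ld_norm_sub_conj, ld_norm_sub_conj] at h4
  linarith

private theorem ld_div_lt (h : HF k μ F) {v : ℂ} (hv : ‖v‖ < 1) : ‖v / (μ : ℂ) ^ 2‖ < 1 := by
  have hμ := h.hμ
  rw [norm_div, norm_pow, Complex.norm_real, Real.norm_of_nonneg (by linarith),
    div_lt_one (by positivity)]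
  nlinarith

private theorem ld_Xv_analytic (h : HF k μ F) : AnalyticAt ℂ (Xv k μ F) 0 := by
  have hμ := h.hμ
  have hd : DifferentiableOn ℂ (Xv k μ F) (Metric.ball 0 1) := by
    intro v hv
    rw [mem_ball_zero_iff] at hv
    have hv2 : v ∈ Metric.ball (0 : ℂ) (μ ^ 2) := by
      rw [mem_ball_zero_iff]
      nlinarith
    have hw := ld_div_lt h hv
    have hw2 : v / (μ : ℂ) ^ 2 ∈ Metric.ball (0 : ℂ) (μ ^ 2) := by
      rw [mem_ball_zero_iff]
      nlinarith
    have h1 : DifferentiableAt ℂ (dd F) v :=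
      h.dd_differentiableOn.differentiableAt (Metric.isOpen_ball.mem_nhds hv2)
    have h2 : DifferentiableAt ℂ (dd F) (v / (μ : ℂ) ^ 2) :=
      h.dd_differentiableOn.differentiableAt (Metric.isOpen_ball.mem_nhds hw2)
    have h3 : DifferentiableAt ℂ (fun v : ℂ => v / (μ : ℂ) ^ 2) v :=
      differentiableAt_id.div_const _
    have h4 : DifferentiableAt ℂ (fun v : ℂ => dd F (v / (μ : ℂ) ^ 2)) v :=
      DifferentiableAt.comp (g := dd F) (f := fun v : ℂ => v / (μ : ℂ) ^ 2) v h2 h3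
    have h5 : DifferentiableAt ℂ (ps k μ) (dd F (v / (μ : ℂ) ^ 2)) :=
      ps_differentiableAt h.hk h.hk2 h.hμ (h.adm hw)
    have h6 : DifferentiableAt ℂ (fun v : ℂ => ps k μ (dd F (v / (μ : ℂ) ^ 2))) v :=
      DifferentiableAt.comp (g := ps k μ) (f := fun v : ℂ => dd F (v / (μ : ℂ) ^ 2)) v h5 h4
    have h7 : DifferentiableAt ℂ (Xv k μ F) v :=
      (differentiableAt_const _).add ((h1.add h6).div_const _)
    exact h7.differentiableWithinAt
  exact hd.analyticAt (Metric.ball_mem_nhds _ one_pos)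

private theorem ld_Xv_conj (h : HF k μ F) {v : ℂ} (hv : ‖v‖ < 1) :
    Xv k μ F ((starRingEnd ℂ) v) = (starRingEnd ℂ) (Xv k μ F v) := by
  unfold Xv
  have e : (starRingEnd ℂ) v / (μ : ℂ) ^ 2 = (starRingEnd ℂ) (v / (μ : ℂ) ^ 2) := by
    simp
  rw [e, h.dd_conj, h.dd_conj, ps_conj h.hk h.hk2 h.hμ (h.adm (ld_div_lt h hv))]
  simp only [map_add, map_one, map_div₀, map_mul, map_sub, Complex.conj_ofReal, map_ofNat]

private theorem ld_tendsto_ofReal :
    Tendsto (fun t : ℝ => (t : ℂ)) atBot (comap Complex.re atBot) := by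
  rw [tendsto_comap_iff]
  have : Complex.re ∘ (fun t : ℝ => (t : ℂ)) = id := by
    funext t
    simp
  rw [this]
  exact tendsto_id

private theorem ld_xv_tendsto : Tendsto (fun t : ℝ => xv (t : ℂ)) atBot (𝓝 0) :=
  EQ2.tendsto_xv_zero.comp ld_tendsto_ofReal

/-- eventually small -/
private theorem ld_small {P : ℂ → Prop} (hP : ∀ᶠ v in 𝓝 (0 : ℂ), P v) :
    ∃ r : ℝ, r < 0 ∧ ∀ x : ℂ, x.re ≤ r → P (xv x) := by
  obtain ⟨ε, hε, hb⟩ := Metric.eventually_nhds_iff.mp hP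
  have h1 : Tendsto (fun t : ℝ => Real.exp (2 * t)) atBot (𝓝 0) := by
    have h2 : Tendsto (fun t : ℝ => 2 * t) atBot atBot :=
      tendsto_id.const_mul_atBot (by norm_num : (0 : ℝ) < 2)
    exact Real.tendsto_exp_atBot.comp h2
  have h3 : ∀ᶠ t : ℝ in atBot, Real.exp (2 * t) < ε := h1.eventually (gt_mem_nhds hε)
  obtain ⟨r, hr⟩ := Filter.eventually_atBot.1 h3
  refine ⟨min r (-1), by have := min_le_right r (-1 : ℝ); linarith, fun x hx => ?_⟩
  apply hb
  rw [dist_zero_right, EQ2.norm_xv]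
  exact hr _ (hx.trans (min_le_left _ _))

/-- base case.  `q x = e^{-x} g (xv x)` with `g = Xv exp (-ly)` holomorphic near `0`, `g` real on the
real axis, `g 0 > 0`; hence `|Im g v| ≤ K |Im v|` and `Re g v ≥ g 0 / 2` for `|v|` small;
`Im v = - e^{2s} sin 2θ`, so `Im q = e^{-s} (cos θ Im g - sin θ Re g) ≤ 0` and
`Re q = e^{-s} (cos θ Re g + sin θ Im g) ≥ 0`. -/
theorem loop_base (h : HF k μ F) (hy : HY k μ F ly) : ∃ r : ℝ, r < 0 ∧ QB k μ F ly r := by
  have hμ0 : (0 : ℝ) < μ := by linarith [h.hμ]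
  have hm : (0 : ℝ) < μ ^ 2 := by positivity
  have h0 : (0 : ℂ) ∈ Metric.ball (0 : ℂ) (μ ^ 2) := Metric.mem_ball_self hm
  have hya : AnalyticAt ℂ ly 0 := hy.an.analyticAt (Metric.ball_mem_nhds _ hm)
  have hga : AnalyticAt ℂ (fun v => Xv k μ F v * Complex.exp (-ly v)) 0 :=
    (ld_Xv_analytic h).mul hya.neg.cexp
  have hball : ∀ᶠ v in 𝓝 (0 : ℂ), v ∈ Metric.ball (0 : ℂ) (μ ^ 2) := Metric.ball_mem_nhds _ hm
  have hball1 : ∀ᶠ v in 𝓝 (0 : ℂ), v ∈ Metric.ball (0 : ℂ) 1 := Metric.ball_mem_nhds _ one_pos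
  have hgc : ∀ᶠ v in 𝓝 (0 : ℂ), (fun v => Xv k μ F v * Complex.exp (-ly v)) ((starRingEnd ℂ) v) =
      (starRingEnd ℂ) ((fun v => Xv k μ F v * Complex.exp (-ly v)) v) := by
    filter_upwards [hball, hball1] with v hv hv1
    rw [mem_ball_zero_iff] at hv1
    show Xv k μ F ((starRingEnd ℂ) v) * Complex.exp (-ly ((starRingEnd ℂ) v)) =
      (starRingEnd ℂ) (Xv k μ F v * Complex.exp (-ly v))
    rw [ld_Xv_conj h hv1, hy.conj v hv, map_mul, ← Complex.exp_conj, map_neg]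
  obtain ⟨K, hK, hKb⟩ := ld_im_bound hga hgc
  have hX0 : Xv k μ F 0 = 1 := h.Xv_zero
  have hly0 : (ly 0).im = 0 := by
    have h1 := hy.conj 0 h0
    rw [map_zero] at h1
    have h2 := congrArg Complex.im h1
    rw [Complex.conj_im] at h2
    linarith
  have hg0 : 0 < ((fun v => Xv k μ F v * Complex.exp (-ly v)) (0 : ℂ)).re := by
    simp only
    rw [hX0, one_mul, Complex.exp_re, Complex.neg_im, hly0, neg_zero, Real.cos_zero, mul_one]
    exact Real.exp_pos _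
  set g : ℂ → ℂ := fun v => Xv k μ F v * Complex.exp (-ly v) with hg
  set g0 : ℝ := (g 0).re with hg0d
  have hcont : Tendsto (fun v => (g v).re) (𝓝 0) (𝓝 g0) :=
    (Complex.continuous_re.tendsto _).comp hga.continuousAt.tendsto
  have hre : ∀ᶠ v in 𝓝 (0 : ℂ), g0 / 2 < (g v).re :=
    hcont.eventually (lt_mem_nhds (by linarith))
  have hsm : ∀ᶠ v in 𝓝 (0 : ℂ), 2 * K * ‖v‖ < g0 / 2 := by
    have h1 : Tendsto (fun v : ℂ => 2 * K * ‖v‖) (𝓝 0) (𝓝 (2 * K * ‖(0 : ℂ)‖)) := by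
      have : Continuous (fun v : ℂ => 2 * K * ‖v‖) := by fun_prop
      exact this.tendsto 0
    rw [norm_zero, mul_zero] at h1
    exact h1.eventually (gt_mem_nhds (by linarith))
  obtain ⟨r, hr0, hr⟩ := ld_small (hKb.and (hre.and hsm))
  refine ⟨r, hr0, fun x hx1 hx2 hx3 => ?_⟩
  obtain ⟨h1, h2, h3⟩ := hr x hx1
  -- the value of `q`
  have hq : qx k μ F ly x = Complex.exp (-x) * g (xv x) := by
    unfold qx Xx Yx LY
    rw [hg]
    simp only
    rw [Complex.exp_add, Complex.exp_neg, Complex.exp_neg, div_eq_mul_inv, mul_inv]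
    ring
  set s : ℝ := x.re with hs
  set θ : ℝ := x.im with hθ
  have hexp : Complex.exp (-x) = ⟨Real.exp (-s) * Real.cos θ, -(Real.exp (-s) * Real.sin θ)⟩ := by
    apply Complex.ext
    · rw [Complex.exp_re, Complex.neg_re, Complex.neg_im, Real.cos_neg]
    · rw [Complex.exp_im, Complex.neg_re, Complex.neg_im, Real.sin_neg]
      ring
  have hvim : (xv x).im = -(Real.exp (2 * s) * (2 * Real.sin θ * Real.cos θ)) := by
    unfold xv
    rw [Complex.neg_im, Complex.exp_im]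
    have e1 : (2 * x).re = 2 * s := by simp [hs]
    have e2 : (2 * x).im = 2 * θ := by simp [hθ]
    rw [e1, e2, Real.sin_two_mul]
  have hsin : 0 ≤ Real.sin θ :=
    Real.sin_nonneg_of_nonneg_of_le_pi hx2 (by linarith [Real.pi_pos])
  have hcos : 0 ≤ Real.cos θ :=
    Real.cos_nonneg_of_neg_pi_div_two_le_of_le (by linarith [Real.pi_pos]) hx3
  have hsin1 : Real.sin θ ≤ 1 := Real.sin_le_one θ
  have hcos1 : Real.cos θ ≤ 1 := Real.cos_le_one θ
  have habs : |(xv x).im| = Real.exp (2 * s) * (2 * Real.sin θ * Real.cos θ) := by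
    rw [hvim, abs_neg, abs_of_nonneg (by positivity)]
  rw [habs] at h1
  rw [EQ2.norm_xv] at h3
  rw [← hs] at h3
  have hE : 0 < Real.exp (2 * s) := Real.exp_pos _
  have hKE : 0 ≤ 2 * K * Real.exp (2 * s) := by positivity
  have hb := abs_le.mp h1
  set E : ℝ := Real.exp (2 * s) with hEd
  have hG : 2 * K * E ≤ (g (xv x)).re := by linarith
  have h5 : Real.sin θ * |(g (xv x)).im| ≤ Real.cos θ * (g (xv x)).re := by
    calc Real.sin θ * |(g (xv x)).im| ≤
          Real.sin θ * (K * (E * (2 * Real.sin θ * Real.cos θ))) :=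
          mul_le_mul_of_nonneg_left h1 hsin
      _ = (Real.sin θ * Real.sin θ) * (2 * K * E) * Real.cos θ := by ring
      _ ≤ 1 * (2 * K * E) * Real.cos θ := by
          refine mul_le_mul_of_nonneg_right (mul_le_mul_of_nonneg_right ?_ hKE) hcos
          nlinarith
      _ ≤ Real.cos θ * (g (xv x)).re := by
          rw [one_mul, mul_comm]
          exact mul_le_mul_of_nonneg_left hG hcos
  have h6 : Real.cos θ * |(g (xv x)).im| ≤ Real.sin θ * (g (xv x)).re := by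
    calc Real.cos θ * |(g (xv x)).im| ≤
          Real.cos θ * (K * (E * (2 * Real.sin θ * Real.cos θ))) :=
          mul_le_mul_of_nonneg_left h1 hcos
      _ = (Real.cos θ * Real.cos θ) * (2 * K * E) * Real.sin θ := by ring
      _ ≤ 1 * (2 * K * E) * Real.sin θ := by
          refine mul_le_mul_of_nonneg_right (mul_le_mul_of_nonneg_right ?_ hKE) hsin
          nlinarith
      _ ≤ Real.sin θ * (g (xv x)).re := by
          rw [one_mul, mul_comm]
          exact mul_le_mul_of_nonneg_left hG hsin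
  have hEs : 0 < Real.exp (-s) := Real.exp_pos _
  rw [hq, hexp]
  constructor
  · rw [Complex.mul_re]
    have e1 : Real.exp (-s) * Real.cos θ * (g (xv x)).re -
        -(Real.exp (-s) * Real.sin θ) * (g (xv x)).im =
        Real.exp (-s) * (Real.cos θ * (g (xv x)).re + Real.sin θ * (g (xv x)).im) := by ring
    show 0 ≤ Real.exp (-s) * Real.cos θ * (g (xv x)).re -
        -(Real.exp (-s) * Real.sin θ) * (g (xv x)).im
    rw [e1]
    refine mul_nonneg hEs.le ?_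
    have := neg_abs_le (g (xv x)).im
    nlinarith [mul_le_mul_of_nonneg_left this hsin]
  · rw [Complex.mul_im]
    have e1 : Real.exp (-s) * Real.cos θ * (g (xv x)).im +
        -(Real.exp (-s) * Real.sin θ) * (g (xv x)).re =
        -(Real.exp (-s) * (Real.sin θ * (g (xv x)).re - Real.cos θ * (g (xv x)).im)) := by ring
    show Real.exp (-s) * Real.cos θ * (g (xv x)).im +
        -(Real.exp (-s) * Real.sin θ) * (g (xv x)).re ≤ 0
    rw [e1, neg_nonpos]
    refine mul_nonneg hEs.le ?_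
    have := le_abs_self (g (xv x)).im
    nlinarith [mul_le_mul_of_nonneg_left this hcos]

/-- the analogous base case for `D = dd F (xv x)`: `Im D ≤ 0` for `Re x` very negative
(`Im dd F v = Im v * (F 1 + O(|v|))`) -/
theorem P1_base (h : HF k μ F) : ∃ r : ℝ, r < 0 ∧
    ∀ x : ℂ, x.re ≤ r → 0 ≤ x.im → x.im ≤ Real.pi / 2 → (Dx F x).im ≤ 0 := by
  have hμ0 : (0 : ℝ) < μ := by linarith [h.hμ]
  have hm : (0 : ℝ) < μ ^ 2 := by positivity
  have h1 : AnalyticAt ℂ (dd F) 0 :=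
    h.dd_differentiableOn.analyticAt (Metric.ball_mem_nhds _ hm)
  have h2 : HasStrictDerivAt (dd F) (F 1 : ℂ) 0 := by
    have h3 := h1.hasStrictDerivAt
    rwa [h.deriv_dd_zero] at h3
  have hF1 := h.F1
  have h3 := h2.isLittleO.def (show (0 : ℝ) < F 1 / 2 by linarith)
  have h4 : Tendsto (fun v : ℂ => (v, (starRingEnd ℂ) v)) (𝓝 0) (𝓝 ((0 : ℂ), (0 : ℂ))) :=
    tendsto_id.prodMk_nhds ld_conj_tendsto
  have h5 := h4.eventually h3
  have h6 : ∀ᶠ v in 𝓝 (0 : ℂ), |(dd F v).im - F 1 * v.im| ≤ F 1 / 2 * |v.im| := by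
    filter_upwards [h5] with v hv
    rw [h.dd_conj] at hv
    have e : dd F v - (starRingEnd ℂ) (dd F v) - (v - (starRingEnd ℂ) v) • (F 1 : ℂ) =
        (dd F v - (F 1 : ℂ) * v) - (starRingEnd ℂ) (dd F v - (F 1 : ℂ) * v) := by
      rw [map_sub, map_mul, Complex.conj_ofReal, smul_eq_mul]
      ring
    have e' : ‖dd F v - (starRingEnd ℂ) (dd F v) - (v - (starRingEnd ℂ) v) • (F 1 : ℂ)‖ =
        2 * |(dd F v).im - F 1 * v.im| := by
      rw [e, ld_norm_sub_conj, Complex.sub_im, Complex.im_ofReal_mul]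
    have hv2 : ‖dd F v - (starRingEnd ℂ) (dd F v) - (v - (starRingEnd ℂ) v) • (F 1 : ℂ)‖ ≤
        F 1 / 2 * ‖v - (starRingEnd ℂ) v‖ := by simpa using hv
    rw [e', ld_norm_sub_conj] at hv2
    linarith
  obtain ⟨r, hr0, hr⟩ := ld_small h6
  refine ⟨r, hr0, fun x hx1 hx2 hx3 => ?_⟩
  have h7 := hr x hx1
  have h8 := EQ2.xv_im_nonpos hx2 hx3
  unfold Dx
  rw [abs_of_nonpos h8] at h7
  have h9 := (abs_le.mp h7).2
  nlinarith

/-- none of the functions is locally constant on `Re x < ell μ`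
(`EQ2.eq_const_of_loc_const` + limits at `Re x → -∞`: `Dx → 0` but `Dx F (pt 0 (π/2)) = 1`;
`LY` is unbounded). -/
theorem Dx_not_loc_const (h : HF k μ F) {x : ℂ} (hx : x.re < ell μ) :
    ¬ ∀ᶠ z in 𝓝 x, Dx F z = Dx F x := by
  intro hc
  have hμ0 : (0 : ℝ) < μ := by linarith [h.hμ]
  have hm : (0 : ℝ) < μ ^ 2 := by positivity
  have hell := EQ2.ell_pos h.hμ
  have hconst := EQ2.eq_const_of_loc_const (fun z hz => h.Dx_differentiableAt hz) hx hc
  have h1 : ContinuousAt (dd F) 0 :=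
    (h.dd_differentiableOn.differentiableAt (Metric.ball_mem_nhds _ hm)).continuousAt
  have h2 : Tendsto (fun t : ℝ => Dx F (t : ℂ)) atBot (𝓝 0) := by
    have h3 : Tendsto (fun t : ℝ => dd F (xv (t : ℂ))) atBot (𝓝 (dd F 0)) :=
      h1.tendsto.comp ld_xv_tendsto
    rw [h.dd_zero] at h3
    exact h3
  have h4 : ∀ᶠ t : ℝ in atBot, Dx F (t : ℂ) = Dx F x := by
    filter_upwards [eventually_lt_atBot (ell μ)] with t ht
    exact hconst _ (by simpa using ht)
  have h5 : Dx F x = 0 := by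
    have h6 : Tendsto (fun t : ℝ => Dx F (t : ℂ)) atBot (𝓝 (Dx F x)) :=
      (tendsto_congr' h4).mpr tendsto_const_nhds
    exact tendsto_nhds_unique h6 h2
  have h7 : Dx F (pt 0 (Real.pi / 2)) = Dx F x := hconst _ (by simpa using hell)
  rw [h.Dx_top hell, h5] at h7
  have h8 : tD F 0 = 1 := by
    unfold tD
    rw [mul_zero, Real.exp_zero]
    exact h.dr_one
  rw [h8] at h7
  simp at h7

theorem LY_not_loc_const (h : HF k μ F) (hy : HY k μ F ly) {x : ℂ} (hx : x.re < ell μ) :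
    ¬ ∀ᶠ z in 𝓝 x, LY ly z = LY ly x := by
  intro hc
  have hμ0 : (0 : ℝ) < μ := by linarith [h.hμ]
  have hm : (0 : ℝ) < μ ^ 2 := by positivity
  have hconst := EQ2.eq_const_of_loc_const (fun z hz => HY.LY_differentiableAt h hy hz) hx hc
  have h1 : ContinuousAt ly 0 :=
    (hy.an.differentiableAt (Metric.ball_mem_nhds _ hm)).continuousAt
  have h2 : Tendsto (fun t : ℝ => (LY ly (t : ℂ)).re) atBot atBot := by
    have h3 : Tendsto (fun t : ℝ => (ly (xv (t : ℂ))).re) atBot (𝓝 (ly 0).re) :=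
      (Complex.continuous_re.tendsto _).comp (h1.tendsto.comp ld_xv_tendsto)
    have h4 : Tendsto (fun t : ℝ => t + (ly (xv (t : ℂ))).re) atBot atBot :=
      tendsto_id.atBot_add h3
    refine h4.congr fun t => ?_
    unfold LY
    rw [Complex.add_re, Complex.ofReal_re]
  have h3 : ∀ᶠ t : ℝ in atBot, (LY ly (t : ℂ)).re < (LY ly x).re :=
    h2.eventually (eventually_lt_atBot _)
  obtain ⟨t, ht, ht2⟩ := (h3.and (eventually_lt_atBot (ell μ))).exists
  have h4 := hconst (t : ℂ) (by simpa using ht2)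
  rw [h4] at ht
  exact lt_irrefl _ ht

end EQG
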