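import Pool.Agent.Lib.MP_226de1_co.G.LoopReal
import Pool.Agent.Lib.MP_226de1_co.LoopDeriv

/-! `q' ∈ Q2` (compare `LoopDeriv.lean`, `k = 2`; `EQ2.LoopDeriv_vert`, `EQ2.LoopDeriv_re`,
`EQ2.LoopDeriv_im`, `EQ2.LoopDeriv_strict` can be used). -/

set_option autoImplicit false

namespace EQG

open Complex Set Filter Topology
open EQ2 (dd dr xv ell pt NNS)

variable {k μ : ℝ} {F : ℕ → ℝ} {ly : ℂ → ℂ} {r : ℝ}

/-- Apply `EQ2.halfstep_diff` with `h = ℓ/2`, `c ≤ r` to `f = qx` and to `f = i qx`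
(`(i q).re = - q.im`).
Sides: `q (c-ℓ/2+is) - q (c+ℓ/2+is) = (μ-1)/Y (c+ℓ/2+is)` (`HY.qx_shift`, at
`x = ⟨c - ℓ/2, s⟩`), and `Y ∈ Q1` (`QB_Y`), so the difference is in `Q4`.
Bottom: `QB_real` for `q`, and `Im q = 0` for `i q`.  Top: `q = -i u` (`HY.qx_top`):
`Re q = 0`, and `HY.tu_reflect`. -/
theorem QB_deriv (h : HF k μ F) (hy : HY k μ F ly) (hr : r < 0) (hQ : QB k μ F ly r) :
    ∀ x : ℂ, x.re ≤ r → 0 ≤ x.im → x.im ≤ Real.pi / 2 →
      (deriv (qx k μ F ly) x).re ≤ 0 ∧ 0 ≤ (deriv (qx k μ F ly) x).im := by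
  intro x hx hx0 hx1
  have hl := EQ2.ell_pos h.hμ
  set c := x.re with hc
  have hpos : (0 : ℝ) < ell μ / 2 := by linarith
  have hxc : x = ⟨c, x.im⟩ := Complex.ext rfl rfl
  have hdiff : ∀ z : ℂ, |z.re - c| ≤ ell μ / 2 → 0 ≤ z.im → z.im ≤ Real.pi / 2 →
      DifferentiableAt ℂ (qx k μ F ly) z := by
    intro z hz _ _
    refine hy.qx_differentiableAt h ?_
    have := (abs_le.1 hz).2
    linarith
  -- the sides
  have hside : ∀ s : ℝ, 0 ≤ s → s ≤ Real.pi / 2 →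
      (qx k μ F ly ⟨c + ell μ / 2, s⟩).re ≤ (qx k μ F ly ⟨c - ell μ / 2, s⟩).re ∧
      (qx k μ F ly ⟨c - ell μ / 2, s⟩).im ≤ (qx k μ F ly ⟨c + ell μ / 2, s⟩).im := by
    intro s h0 h1
    have e : (⟨c - ell μ / 2, s⟩ : ℂ) + (ell μ : ℂ) = ⟨c + ell μ / 2, s⟩ := by
      apply Complex.ext
      · simp; ring
      · simp
    have hre : (⟨c - ell μ / 2, s⟩ : ℂ).re < 0 := by show c - ell μ / 2 < 0; linarith
    have hq := hy.qx_shift h hre
    rw [e] at hq
    have hY := QB_Y h hy hr hQ (⟨c + ell μ / 2, s⟩ : ℂ)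
      (by show c + ell μ / 2 ≤ r + ell μ / 2; linarith) h0 h1
    have hre2 : (((μ : ℂ) - 1) / Yx ly ⟨c + ell μ / 2, s⟩).re =
        (μ - 1) * (Yx ly ⟨c + ell μ / 2, s⟩).re / Complex.normSq (Yx ly ⟨c + ell μ / 2, s⟩) := by
      rw [Complex.div_re]; simp
    have him2 : (((μ : ℂ) - 1) / Yx ly ⟨c + ell μ / 2, s⟩).im =
        -((μ - 1) * (Yx ly ⟨c + ell μ / 2, s⟩).im / Complex.normSq (Yx ly ⟨c + ell μ / 2, s⟩)) := by
      rw [Complex.div_im]; simp
    have hμ := h.hμ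
    have hns := Complex.normSq_nonneg (Yx ly ⟨c + ell μ / 2, s⟩)
    have p1 : 0 ≤ (μ - 1) * (Yx ly ⟨c + ell μ / 2, s⟩).re /
        Complex.normSq (Yx ly ⟨c + ell μ / 2, s⟩) :=
      div_nonneg (mul_nonneg (by linarith) hY.1) hns
    have p2 : 0 ≤ (μ - 1) * (Yx ly ⟨c + ell μ / 2, s⟩).im /
        Complex.normSq (Yx ly ⟨c + ell μ / 2, s⟩) :=
      div_nonneg (mul_nonneg (by linarith) hY.2) hns
    have q1 := congrArg Complex.re hq
    have q2 := congrArg Complex.im hq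
    rw [Complex.sub_re, hre2] at q1
    rw [Complex.sub_im, him2] at q2
    constructor <;> linarith
  -- values on the real line
  have hreal : ∀ t : ℝ, t < ell μ → qx k μ F ly ⟨t, 0⟩ = (rq k μ F ly t : ℂ) := by
    intro t ht
    have e : (⟨t, 0⟩ : ℂ) = (t : ℂ) := Complex.ext rfl rfl
    rw [e]; exact hy.qx_ofReal h ht
  have htop : ∀ t : ℝ, t < ell μ → qx k μ F ly ⟨t, Real.pi / 2⟩ = -Complex.I * (tu k μ F ly t : ℂ) :=
    fun t ht => hy.qx_top h ht
  constructor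
  · rw [hxc]
    refine EQ2.halfstep_diff (f := qx k μ F ly) (c := c) (h := ell μ / 2) hpos hdiff ?_ ?_ ?_ x.im hx0 hx1
    · intro t ht0 ht1
      rw [hreal _ (by linarith), hreal _ (by linarith), Complex.ofReal_re, Complex.ofReal_re]
      exact QB_real h hy hr hQ (by linarith) (by linarith) (by linarith)
    · intro t ht0 ht1
      rw [htop _ (by linarith), htop _ (by linarith)]
      simp
    · intro s h0 h1
      exact (hside s h0 h1).1
  · have key : (deriv (fun z => I * qx k μ F ly z) ⟨c, x.im⟩).re ≤ 0 := by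
      refine EQ2.halfstep_diff (f := fun z => I * qx k μ F ly z) (c := c) (h := ell μ / 2) hpos
        (fun z h1 h2 h3 => (hdiff z h1 h2 h3).const_mul I) ?_ ?_ ?_ x.im hx0 hx1
      · intro t ht0 ht1
        show (I * qx k μ F ly ⟨c + t, 0⟩).re ≤ (I * qx k μ F ly ⟨c - t, 0⟩).re
        rw [hreal _ (by linarith), hreal _ (by linarith)]
        simp
      · intro t ht0 ht1
        show (I * qx k μ F ly ⟨c + t, Real.pi / 2⟩).re ≤ (I * qx k μ F ly ⟨c - t, Real.pi / 2⟩).re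
        rw [htop _ (by linarith), htop _ (by linarith)]
        have := hy.tu_reflect h (s1 := c - t) (s2 := c + t) (by linarith) (by linarith)
          (by linarith)
        simpa using this
      · intro s h0 h1
        show (I * qx k μ F ly ⟨c + ell μ / 2, s⟩).re ≤ (I * qx k μ F ly ⟨c - ell μ / 2, s⟩).re
        have := (hside s h0 h1).2
        simpa using this
    have hd : DifferentiableAt ℂ (qx k μ F ly) ⟨c, x.im⟩ :=
      hdiff _ (by show |c - c| ≤ _; rw [sub_self, abs_zero]; linarith) hx0 hx1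
    rw [deriv_const_mul I hd] at key
    rw [hxc]
    simpa using key

/-- strictness on the line `Re x = r`: `s ↦ Re q (r + i s)` is nonincreasing (derivative
`-Im q'`), is `0` at `s = π/2` with strictly negative derivative there
(`HY.deriv_qx_top_im`). -/
theorem QB_re_pos (h : HF k μ F) (hy : HY k μ F ly) (hr : r < 0) (hQ : QB k μ F ly r) {s : ℝ}
    (h0 : 0 ≤ s) (h1 : s < Real.pi / 2) : 0 < (qx k μ F ly ⟨r, s⟩).re := by
  have hl := EQ2.ell_pos h.hμ
  have hdiff : ∀ t : ℝ, DifferentiableAt ℂ (qx k μ F ly) ⟨r, t⟩ := fun t =>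
    hy.qx_differentiableAt h (by show r < ell μ; linarith)
  have hanti : AntitoneOn (fun t : ℝ => (qx k μ F ly ⟨r, t⟩).re) (Icc s (Real.pi / 2)) := by
    refine antitoneOn_of_deriv_nonpos (convex_Icc _ _)
      (fun t _ => (EQ2.LoopDeriv_re (hdiff t)).continuousAt.continuousWithinAt)
      (fun t _ => (EQ2.LoopDeriv_re (hdiff t)).differentiableAt.differentiableWithinAt) ?_
    intro t ht
    rw [interior_Icc] at ht
    rw [(EQ2.LoopDeriv_re (hdiff t)).deriv]
    have := (QB_deriv h hy hr hQ ⟨r, t⟩ le_rfl (by show 0 ≤ t; linarith [ht.1])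
      (by show t ≤ Real.pi / 2; linarith [ht.2])).2
    linarith
  have hd := EQ2.LoopDeriv_re (hdiff (Real.pi / 2))
  have hne : -(deriv (qx k μ F ly) ⟨r, Real.pi / 2⟩).im ≠ 0 := by
    have := hy.deriv_qx_top_im h (s := r) hr.le
    have e : (pt r (Real.pi / 2)) = (⟨r, Real.pi / 2⟩ : ℂ) := rfl
    rw [e] at this
    linarith
  have hlt := EQ2.LoopDeriv_strict h1 hanti (right_mem_Icc.2 h1.le) hd hne
  have hz : (qx k μ F ly ⟨r, Real.pi / 2⟩).re = 0 := by
    have e : (pt r (Real.pi / 2)) = (⟨r, Real.pi / 2⟩ : ℂ) := rfl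
    rw [← e, hy.qx_top h (by linarith)]
    simp
  simp only [hz] at hlt
  exact hlt

/-- `s ↦ Im q (r + i s)` is nonincreasing (derivative `Re q'`), `0` at `s = 0` with strictly
negative derivative (`QB_real_deriv`). -/
theorem QB_im_neg (h : HF k μ F) (hy : HY k μ F ly) (hr : r < 0) (hQ : QB k μ F ly r) {s : ℝ}
    (h0 : 0 < s) (h1 : s ≤ Real.pi / 2) : (qx k μ F ly ⟨r, s⟩).im < 0 := by
  have hl := EQ2.ell_pos h.hμ
  have hdiff : ∀ t : ℝ, DifferentiableAt ℂ (qx k μ F ly) ⟨r, t⟩ := fun t =>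
    hy.qx_differentiableAt h (by show r < ell μ; linarith)
  have hanti : AntitoneOn (fun t : ℝ => (qx k μ F ly ⟨r, t⟩).im) (Icc 0 s) := by
    refine antitoneOn_of_deriv_nonpos (convex_Icc _ _)
      (fun t _ => (EQ2.LoopDeriv_im (hdiff t)).continuousAt.continuousWithinAt)
      (fun t _ => (EQ2.LoopDeriv_im (hdiff t)).differentiableAt.differentiableWithinAt) ?_
    intro t ht
    rw [interior_Icc] at ht
    rw [(EQ2.LoopDeriv_im (hdiff t)).deriv]
    exact (QB_deriv h hy hr hQ ⟨r, t⟩ le_rfl (by show 0 ≤ t; linarith [ht.1])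
      (by show t ≤ Real.pi / 2; linarith [ht.2])).1
  have hd := EQ2.LoopDeriv_im (hdiff 0)
  have e0 : (⟨r, 0⟩ : ℂ) = (r : ℂ) := Complex.ext rfl rfl
  have hne : (deriv (qx k μ F ly) ⟨r, 0⟩).re ≠ 0 := by
    rw [e0]
    exact (QB_real_deriv h hy hr hQ le_rfl).ne
  have hlt := EQ2.LoopDeriv_strict h0 hanti (left_mem_Icc.2 h0.le) hd hne
  have hz : (qx k μ F ly ⟨r, 0⟩).im = 0 := by
    rw [e0, hy.qx_ofReal h (by linarith)]
    simp
  simp only [hz] at hlt
  exact hlt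

end EQG
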