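import Pool.Agent.Lib.MP_226de1_co.G.LoopDef

/-! First consequences of the quadrant condition (compare `LoopP.lean`, `k = 2`). -/

set_option autoImplicit false

namespace EQG

open Complex Set Filter Topology
open EQ2 (dd dr xv ell pt NNS)

variable {k μ : ℝ} {F : ℕ → ℝ} {ly : ℂ → ℂ} {r : ℝ}

private theorem loopP_ivt {g : ℝ → ℝ} {b lo hi e : ℝ} (hb : 0 ≤ b) (hg : ContinuousOn g (Icc 0 b))
    (h0 : lo ≤ g 0) (h0' : g 0 ≤ hi) (he : 0 < e)
    (hbad : ∀ s, 0 ≤ s → s ≤ b → hi < g s → g s < hi + e → False)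
    (hbad' : ∀ s, 0 ≤ s → s ≤ b → g s < lo → lo - e < g s → False) :
    lo ≤ g b ∧ g b ≤ hi := by
  constructor
  · by_contra hcon
    push Not at hcon
    have h1 := intermediate_value_Icc' hb hg
    obtain ⟨s, hs, hs'⟩ := h1 (⟨le_max_left (g b) (lo - e / 2), max_le (by linarith) (by linarith)⟩ :
      max (g b) (lo - e / 2) ∈ Icc (g b) (g 0))
    refine hbad' s hs.1 hs.2 ?_ ?_
    · rw [hs']
      exact max_lt hcon (by linarith)
    · rw [hs']
      exact lt_of_lt_of_le (by linarith) (le_max_right (g b) (lo - e / 2))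
  · by_contra hcon
    push Not at hcon
    have h1 := intermediate_value_Icc hb hg
    obtain ⟨s, hs, hs'⟩ := h1 (⟨le_min (by linarith) (by linarith), min_le_left (g b) (hi + e / 2)⟩ :
      min (g b) (hi + e / 2) ∈ Icc (g 0) (g b))
    refine hbad s hs.1 hs.2 ?_ ?_
    · rw [hs']
      exact lt_min hcon (by linarith)
    · rw [hs']
      exact lt_of_le_of_lt (min_le_right (g b) (hi + e / 2)) (by linarith)

private theorem loopP_vert (c : ℝ) : Continuous (fun s : ℝ => (⟨c, s⟩ : ℂ)) := by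
  have h5 : (fun s : ℝ => (⟨c, s⟩ : ℂ)) = fun s : ℝ => (c : ℂ) + (s : ℂ) * I := by
    funext s
    apply Complex.ext <;> simp
  rw [h5]
  fun_prop

private theorem loopP_LY_cont (h : HF k μ F) (hy : HY k μ F ly) {c : ℝ} (hc : c < ell μ) :
    Continuous (fun s : ℝ => LY ly ⟨c, s⟩) := by
  rw [continuous_iff_continuousAt]
  intro s
  have h3 : ContinuousAt (LY ly) (⟨c, s⟩ : ℂ) :=
    (HY.LY_differentiableAt h hy (x := ⟨c, s⟩) hc).continuousAt
  exact ContinuousAt.comp (f := fun s : ℝ => (⟨c, s⟩ : ℂ)) (x := s) h3 (loopP_vert c).continuousAt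

private theorem loopP_slit {d : ℂ} (hd : ‖d‖ < 1) : 1 - d ∈ Complex.slitPlane := by
  left
  rw [Complex.sub_re, Complex.one_re]
  have := (abs_le.mp (Complex.abs_re_le_norm d)).2
  linarith

private theorem loopP_LQ_cont (h : HF k μ F) (hy : HY k μ F ly) {c : ℝ} (hc : c < 0) :
    Continuous (fun s : ℝ => LQ F ly ⟨c, s⟩) := by
  have hl := EQ2.ell_pos h.hμ
  have h1 : Continuous (fun s : ℝ => Complex.log (1 - Dx F ⟨c, s⟩)) := by
    rw [continuous_iff_continuousAt]
    intro s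
    have h2 : ContinuousAt (Dx F) (⟨c, s⟩ : ℂ) :=
      (h.Dx_differentiableAt (x := ⟨c, s⟩) (by show c < ell μ; linarith)).continuousAt
    have h3 : ContinuousAt (fun s : ℝ => Dx F ⟨c, s⟩) s :=
      ContinuousAt.comp (f := fun s : ℝ => (⟨c, s⟩ : ℂ)) (x := s) h2 (loopP_vert c).continuousAt
    exact (continuousAt_const.sub h3).clog
      (loopP_slit (h.norm_Dx_lt (x := ⟨c, s⟩) hc))
  exact h1.sub (continuous_const.mul (loopP_LY_cont h hy (by linarith)))

/-- On `Re x ≤ r`: `exp LQ = 1 + q²` (`HY.exp_LQ`, `|D| < 1`) has `Im ≤ 0` (`q ∈ Q4`) and is `≠ 0`;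
`LQ` is continuous on the vertical segment and real at `Im x = 0`; a value of `Im LQ` in `(0,π)` or in
`(-2π,-π)` is impossible, so `Im LQ ∈ [-π, 0]` (intermediate value theorem). -/
theorem QB_LQ (h : HF k μ F) (hy : HY k μ F ly) (hr : r < 0) (hQ : QB k μ F ly r) :
    ∀ x : ℂ, x.re ≤ r → 0 ≤ x.im → x.im ≤ Real.pi / 2 →
      -Real.pi ≤ (LQ F ly x).im ∧ (LQ F ly x).im ≤ 0 := by
  intro x hx h0 h1
  have hl := EQ2.ell_pos h.hμ
  have hx0 : x.re < 0 := lt_of_le_of_lt hx hr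
  have hxl : x.re < ell μ := by linarith
  have hsin : ∀ s, 0 ≤ s → s ≤ x.im → Real.sin (LQ F ly ⟨x.re, s⟩).im ≤ 0 := by
    intro s hs0 hs1
    have hn := h.norm_Dx_lt (x := ⟨x.re, s⟩) hx0
    have hne : Dx F ⟨x.re, s⟩ ≠ 1 := by
      intro e
      rw [e, norm_one] at hn
      exact lt_irrefl _ hn
    have h2 := HY.exp_LQ h hy (x := ⟨x.re, s⟩) hxl hne
    obtain ⟨h3, h4⟩ := hQ ⟨x.re, s⟩ hx hs0 (hs1.trans h1)
    have h5 := congrArg Complex.im h2
    rw [Complex.exp_im, Complex.add_im, Complex.one_im, pow_two, Complex.mul_im] at h5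
    have h6 : Real.exp (LQ F ly ⟨x.re, s⟩).re * Real.sin (LQ F ly ⟨x.re, s⟩).im ≤ 0 := by
      rw [h5]
      have := mul_nonneg h3 (neg_nonneg.2 h4)
      linarith
    by_contra hcon
    push Not at hcon
    have := mul_pos (Real.exp_pos (LQ F ly ⟨x.re, s⟩).re) hcon
    linarith
  have hz : (LQ F ly ⟨x.re, 0⟩).im = 0 := by
    have e : (⟨x.re, 0⟩ : ℂ) = (x.re : ℂ) := rfl
    rw [e]
    unfold LQ
    have h2 := h.norm_Dx_lt (x := (x.re : ℂ)) (by simpa using hx0)
    rw [HF.Dx_ofReal h hxl, Complex.norm_real] at h2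
    have h3 : 0 ≤ 1 - rD F x.re := by
      have := (abs_lt.mp h2).2
      linarith
    rw [HF.Dx_ofReal h hxl, HY.LY_ofReal h hy hxl]
    have h4 : Complex.log (1 - (rD F x.re : ℂ)) = (Real.log (1 - rD F x.re) : ℂ) := by
      rw [Complex.ofReal_log h3]
      push_cast
      rfl
    rw [h4]
    simp [Complex.sub_im, Complex.mul_im]
  have hcont : Continuous (fun s : ℝ => (LQ F ly ⟨x.re, s⟩).im) :=
    Complex.continuous_im.comp (loopP_LQ_cont h hy hx0)
  have key := loopP_ivt (g := fun s : ℝ => (LQ F ly ⟨x.re, s⟩).im) (b := x.im) (lo := -Real.pi)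
    (hi := 0) (e := Real.pi) h0 hcont.continuousOn
    (by
      show -Real.pi ≤ (LQ F ly ⟨x.re, 0⟩).im
      rw [hz]
      linarith [Real.pi_pos])
    (by
      show (LQ F ly ⟨x.re, 0⟩).im ≤ 0
      rw [hz])
    Real.pi_pos
    (fun s hs0 hs1 h2 h3 => by
      have h4 := hsin s hs0 hs1
      have h5 : 0 < Real.sin (LQ F ly ⟨x.re, s⟩).im :=
        Real.sin_pos_of_pos_of_lt_pi h2 (by simpa using h3)
      linarith)
    (fun s hs0 hs1 h2 h3 => by
      have h4 := hsin s hs0 hs1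
      have h5 : 0 < Real.sin ((LQ F ly ⟨x.re, s⟩).im + 2 * Real.pi) :=
        Real.sin_pos_of_pos_of_lt_pi (by linarith) (by linarith)
      rw [Real.sin_add_two_pi] at h5
      linarith)
  exact key

/-- the values of `p` lie in the sector `0 ≤ arg ≤ kπ/2` for `Re x ≤ r + ℓ/2`, written as two half
planes.  On `Re x ≤ r` the sum `p(x) + p(x+ℓ) = C exp (-(k/2) LQ)` (`HY.px_sum`) has argument in
`[0, kπ/2]` (`QB_LQ`), `kπ/2 ≤ π`.  Apply `EQ2.halfstep_sum` with `h = ℓ/2`, `c ≤ r + ℓ/2` to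
`f = px` and to `f = - e^{-ikπ/2} px`; on `Im x = 0` `px > 0` (real), on `Im x = π/2`
`px = e^{ikπ/2} tw` (`HY.px_top`). -/
theorem QB_sec (h : HF k μ F) (hy : HY k μ F ly) (hr : r < 0) (hQ : QB k μ F ly r) :
    ∀ x : ℂ, x.re ≤ r + ell μ / 2 → 0 ≤ x.im → x.im ≤ Real.pi / 2 →
      0 ≤ (px k μ ly x).im ∧
      (Complex.exp (-((k * Real.pi / 2 : ℝ) * Complex.I)) * px k μ ly x).im ≤ 0 := by
  intro x hx h0 h1
  have hμ := h.hμ
  have hk := h.hk
  have hk2 := h.hk2
  have hl := EQ2.ell_pos hμ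
  have hpi := Real.pi_pos
  have hkp0 : 0 ≤ k * Real.pi / 2 := by positivity
  have hkp1 : k * Real.pi / 2 ≤ Real.pi := by nlinarith
  have hsink : 0 ≤ Real.sin (k * Real.pi / 2) := Real.sin_nonneg_of_nonneg_of_le_pi hkp0 hkp1
  have hC : 0 < Cc k μ := by
    have h2 : 0 < μ - 1 := by linarith
    have h3 : 0 < μ ^ k := Real.rpow_pos_of_pos (by linarith) k
    have h4 : 0 < cK k μ := by
      unfold cK
      linarith
    unfold Cc
    exact div_pos h4 (Real.rpow_pos_of_pos h2 k)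
  have hxe : (⟨x.re, x.im⟩ : ℂ) = x := Complex.ext rfl rfl
  -- the sum on the two sides
  have hsum : ∀ s : ℝ, 0 ≤ s → s ≤ Real.pi / 2 → ∃ ρ φ : ℝ, 0 < ρ ∧ 0 ≤ φ ∧ φ ≤ k * Real.pi / 2 ∧
      px k μ ly ⟨x.re - ell μ / 2, s⟩ + px k μ ly ⟨x.re + ell μ / 2, s⟩ =
        (ρ : ℂ) * Complex.exp ((φ : ℂ) * Complex.I) := by
    intro s hs0 hs1
    have ha : (x.re - ell μ / 2) ≤ r := by linarith
    have e1 : (⟨x.re - ell μ / 2, s⟩ : ℂ) + (ell μ : ℂ) = ⟨x.re + ell μ / 2, s⟩ := by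
      apply Complex.ext
      · simp
        ring
      · simp
    have h2 := HY.px_sum h hy (x := ⟨x.re - ell μ / 2, s⟩) (by show x.re - ell μ / 2 < 0; linarith)
    rw [e1] at h2
    obtain ⟨h3, h4⟩ := QB_LQ h hy hr hQ ⟨x.re - ell μ / 2, s⟩ ha hs0 hs1
    set L : ℂ := LQ F ly ⟨x.re - ell μ / 2, s⟩ with hL
    refine ⟨Cc k μ * Real.exp (-(k / 2) * L.re), -(k / 2) * L.im, by positivity, by nlinarith,
      by nlinarith, ?_⟩
    rw [h2]
    rw [Complex.ofReal_mul, Complex.ofReal_exp, mul_assoc, ← Complex.exp_add]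
    congr 2
    apply Complex.ext
    · simp
    · simp
  have hre : ∀ z : ℂ, ∀ ρ φ : ℝ, z = (ρ : ℂ) * Complex.exp ((φ : ℂ) * Complex.I) →
      z.im = ρ * Real.sin φ := by
    intro z ρ φ hz
    rw [hz, Complex.im_ofReal_mul, Complex.exp_ofReal_mul_I_im]
  have hrot : ∀ ρ φ : ℝ, Complex.exp (-((k * Real.pi / 2 : ℝ) * Complex.I)) *
      ((ρ : ℂ) * Complex.exp ((φ : ℂ) * Complex.I)) =
        (ρ : ℂ) * Complex.exp (((φ - k * Real.pi / 2 : ℝ) : ℂ) * Complex.I) := by
    intro ρ φ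
    rw [mul_left_comm, ← Complex.exp_add]
    congr 2
    push_cast
    ring
  constructor
  · have key := EQ2.halfstep_sum (f := px k μ ly) (c := x.re) (h := ell μ / 2) (by linarith)
      (fun z hz _ _ => HY.px_differentiableAt h hy (by have := (abs_le.1 hz).2; linarith))
      (fun t ht => by
        have ht' : t < ell μ := by have := (abs_le.1 ht).2; linarith
        have e : (⟨t, 0⟩ : ℂ) = (t : ℂ) := rfl
        rw [e, HY.px_ofReal h hy ht', Complex.ofReal_im])
      (fun t ht => by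
        have ht' : t < ell μ := by have := (abs_le.1 ht).2; linarith
        have e := HY.px_top h hy ht'
        show 0 ≤ (px k μ ly (pt t (Real.pi / 2))).im
        rw [e, mul_comm, Complex.im_ofReal_mul, Complex.exp_ofReal_mul_I_im]
        exact mul_nonneg (tw_pos hμ ly t).le hsink)
      (fun s hs0 hs1 => by
        obtain ⟨ρ, φ, h2, h3, h4, h5⟩ := hsum s hs0 hs1
        rw [← Complex.add_im, hre _ ρ φ h5]
        exact mul_nonneg h2.le (Real.sin_nonneg_of_nonneg_of_le_pi h3 (h4.trans hkp1)))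
    have := key x.im h0 h1
    rwa [hxe] at this
  · have key := EQ2.halfstep_sum
      (f := fun z => -(Complex.exp (-((k * Real.pi / 2 : ℝ) * Complex.I)) * px k μ ly z))
      (c := x.re) (h := ell μ / 2) (by linarith)
      (fun z hz _ _ => ((HY.px_differentiableAt h hy
        (by have := (abs_le.1 hz).2; linarith)).const_mul _).neg)
      (fun t ht => by
        have ht' : t < ell μ := by have := (abs_le.1 ht).2; linarith
        have e : (⟨t, 0⟩ : ℂ) = (t : ℂ) := rfl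
        rw [e, HY.px_ofReal h hy ht']
        have e2 := hre _ (rp k μ ly t) (0 - k * Real.pi / 2) (hrot (rp k μ ly t) 0)
        rw [Complex.ofReal_zero, zero_mul, Complex.exp_zero, mul_one, zero_sub, Real.sin_neg] at e2
        rw [Complex.neg_im, e2]
        have h2 : 0 ≤ rp k μ ly t := by
          unfold rp
          exact Real.rpow_nonneg (div_nonneg (rY_pos ly t).le (by linarith)) k
        have := mul_nonneg h2 hsink
        linarith)
      (fun t ht => by
        have ht' : t < ell μ := by have := (abs_le.1 ht).2; linarith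
        have e := HY.px_top h hy ht'
        show 0 ≤ (-(Complex.exp (-((k * Real.pi / 2 : ℝ) * Complex.I)) *
          px k μ ly (pt t (Real.pi / 2)))).im
        rw [e, ← mul_assoc, ← Complex.exp_add, neg_add_cancel, Complex.exp_zero, one_mul,
          Complex.neg_im, Complex.ofReal_im, neg_zero])
      (fun s hs0 hs1 => by
        obtain ⟨ρ, φ, h2, h3, h4, h5⟩ := hsum s hs0 hs1
        have e2 := hre _ ρ (φ - k * Real.pi / 2) (hrot ρ φ)
        rw [← h5, mul_add, Complex.add_im] at e2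
        rw [Complex.neg_im, Complex.neg_im]
        have h6 : Real.sin (φ - k * Real.pi / 2) ≤ 0 :=
          Real.sin_nonpos_of_nonpos_of_neg_pi_le (by linarith) (by linarith)
        have := mul_nonneg h2.le (neg_nonneg.2 h6)
        linarith)
    have h2 := key x.im h0 h1
    rw [hxe, Complex.neg_im] at h2
    linarith

/-- `px = exp (k (LY - log (μ-1)))` in the sector, `k Im LY` continuous on the vertical segment and `0`
at `Im x = 0`: it cannot take values in `(kπ/2, 2π)` nor in `(-π, 0)`... so `k Im LY ∈ [0, kπ/2]`.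
(A value `φ` slightly above `kπ/2` or slightly below `0` violates one of the two half planes; for
`k = 2` use `φ ∈ (π, 2π)`.) -/
theorem QB_LY (h : HF k μ F) (hy : HY k μ F ly) (hr : r < 0) (hQ : QB k μ F ly r) :
    ∀ x : ℂ, x.re ≤ r + ell μ / 2 → 0 ≤ x.im → x.im ≤ Real.pi / 2 →
      0 ≤ (LY ly x).im ∧ (LY ly x).im ≤ Real.pi / 2 := by
  intro x hx h0 h1
  have hμ := h.hμ
  have hk := h.hk
  have hk2 := h.hk2
  have hl := EQ2.ell_pos hμ
  have hpi := Real.pi_pos
  have hxl : x.re < ell μ := by linarith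
  have hz : (LY ly ⟨x.re, 0⟩).im = 0 := by
    have e : (⟨x.re, 0⟩ : ℂ) = (x.re : ℂ) := rfl
    rw [e, HY.LY_ofReal h hy hxl, Complex.ofReal_im]
  have hcont : Continuous (fun s : ℝ => (LY ly ⟨x.re, s⟩).im) :=
    Complex.continuous_im.comp (loopP_LY_cont h hy hxl)
  have hsin : ∀ s, 0 ≤ s → s ≤ x.im → 0 ≤ Real.sin (k * (LY ly ⟨x.re, s⟩).im) ∧
      Real.sin (k * (LY ly ⟨x.re, s⟩).im - k * Real.pi / 2) ≤ 0 := by
    intro s hs0 hs1
    obtain ⟨h3, h4⟩ := QB_sec h hy hr hQ ⟨x.re, s⟩ hx hs0 (hs1.trans h1)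
    unfold px lp at h3 h4
    rw [← Complex.exp_add] at h4
    rw [Complex.exp_im] at h3 h4
    have e1 : ((k : ℂ) * (LY ly ⟨x.re, s⟩ - (Real.log (μ - 1) : ℂ))).im =
        k * (LY ly ⟨x.re, s⟩).im := by
      rw [Complex.im_ofReal_mul, Complex.sub_im, Complex.ofReal_im, sub_zero]
    have e2 : (-(((k * Real.pi / 2 : ℝ) : ℂ) * Complex.I) +
        (k : ℂ) * (LY ly ⟨x.re, s⟩ - (Real.log (μ - 1) : ℂ))).im =
        k * (LY ly ⟨x.re, s⟩).im - k * Real.pi / 2 := by
      rw [Complex.add_im, e1, Complex.neg_im, Complex.im_ofReal_mul, Complex.I_im]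
      ring
    rw [e1] at h3
    rw [e2] at h4
    constructor
    · exact nonneg_of_mul_nonneg_right h3 (Real.exp_pos _)
    · by_contra hcon
      push Not at hcon
      exact absurd h4 (not_le.2 (mul_pos (Real.exp_pos _) hcon))
  have key := loopP_ivt (g := fun s : ℝ => (LY ly ⟨x.re, s⟩).im) (b := x.im) (lo := 0)
    (hi := Real.pi / 2) (e := Real.pi / 2) h0 hcont.continuousOn
    (by
      show 0 ≤ (LY ly ⟨x.re, 0⟩).im
      rw [hz])
    (by
      show (LY ly ⟨x.re, 0⟩).im ≤ Real.pi / 2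
      rw [hz]
      positivity)
    (by positivity)
    (fun s hs0 hs1 h2 h3 => by
      obtain ⟨-, h4⟩ := hsin s hs0 hs1
      have h5 : 0 < Real.sin (k * (LY ly ⟨x.re, s⟩).im - k * Real.pi / 2) :=
        Real.sin_pos_of_pos_of_lt_pi (by nlinarith) (by nlinarith)
      linarith)
    (fun s hs0 hs1 h2 h3 => by
      obtain ⟨h4, -⟩ := hsin s hs0 hs1
      have h5 : Real.sin (k * (LY ly ⟨x.re, s⟩).im) < 0 :=
        Real.sin_neg_of_neg_of_neg_pi_lt (by nlinarith) (by nlinarith)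
      linarith)
  exact key

theorem QB_Y (h : HF k μ F) (hy : HY k μ F ly) (hr : r < 0) (hQ : QB k μ F ly r) :
    ∀ x : ℂ, x.re ≤ r + ell μ / 2 → 0 ≤ x.im → x.im ≤ Real.pi / 2 →
      0 ≤ (Yx ly x).re ∧ 0 ≤ (Yx ly x).im := by
  intro x hx h0 h1
  obtain ⟨h2, h3⟩ := QB_LY h hy hr hQ x hx h0 h1
  have hpi := Real.pi_pos
  unfold Yx
  rw [Complex.exp_re, Complex.exp_im]
  exact ⟨mul_nonneg (Real.exp_pos _).le
      (Real.cos_nonneg_of_neg_pi_div_two_le_of_le (by linarith) h3),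
    mul_nonneg (Real.exp_pos _).le
      (Real.sin_nonneg_of_nonneg_of_le_pi h2 (by linarith))⟩

end EQG
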