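import Pool.Agent.Lib.MP_226de1_co.G.NTop

/-! The corner `Im x = π/2` is impossible (compare `NCorner.lean`, `k = 2`). -/

set_option autoImplicit false

namespace EQG

open Complex Set Filter Topology
open EQ2 (dd dr xv ell pt NNS Dom US)

variable {k μ : ℝ} {Q P : ℂ → ℂ} {u w : ℝ → ℝ}

private theorem NCorner_exp {k : ℝ} (hk : 1 < k) (hk2 : k ≤ 2) :
    ∃ δ : ℝ, 0 < δ ∧ ∀ L : ℂ, |L.im| < 2 * Real.pi →
      ‖Complex.exp ((k : ℂ) / 2 * L) - 1‖ < δ →
      ‖Complex.exp L - 1‖ ≤ 6 * ‖Complex.exp ((k : ℂ) / 2 * L) - 1‖ := by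
  rcases hk2.lt_or_eq with hlt | heq
  · refine ⟨min (1 / 3) (2 - k), lt_min (by norm_num) (by linarith), ?_⟩
    intro L hL hρ
    set ρ := Complex.exp ((k : ℂ) / 2 * L) with hρdef
    have h1 : ‖ρ - 1‖ < 1 / 3 := lt_of_lt_of_le hρ (min_le_left _ _)
    have h2 : ‖ρ - 1‖ < 2 - k := lt_of_lt_of_le hρ (min_le_right _ _)
    have h3 : ‖Complex.log ρ‖ ≤ 3 / 2 * ‖ρ - 1‖ := by
      have := Complex.norm_log_one_add_half_le_self (z := ρ - 1) (by linarith)
      rwa [add_sub_cancel] at this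
    have hρ0 : ρ ≠ 0 := Complex.exp_ne_zero _
    have h4 : Complex.exp ((k : ℂ) / 2 * L) = Complex.exp (Complex.log ρ) := by
      rw [Complex.exp_log hρ0]
    rw [Complex.exp_eq_exp_iff_exists_int] at h4
    obtain ⟨m, hm⟩ := h4
    have hpi := Real.pi_pos
    have hpi3 := Real.pi_gt_three
    have him : (k / 2) * L.im = (Complex.log ρ).im + m * (2 * Real.pi) := by
      have h5 := congrArg Complex.im hm
      have e2 : ((m : ℂ) * (2 * (Real.pi : ℂ) * Complex.I)).im = m * (2 * Real.pi) := by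
        have : (m : ℂ) * (2 * (Real.pi : ℂ) * Complex.I) =
          (((m : ℝ) * (2 * Real.pi) : ℝ) : ℂ) * Complex.I := by push_cast; ring
        rw [this]
        simp
      rw [Complex.add_im, e2] at h5
      rw [← h5]
      have : (k : ℂ) / 2 = ((k / 2 : ℝ) : ℂ) := by push_cast; ring
      rw [this, Complex.im_ofReal_mul]
    have hlogim : |(Complex.log ρ).im| < (2 - k) * Real.pi := by
      have h5 := Complex.abs_im_le_norm (Complex.log ρ)
      have h6 : (0 : ℝ) < 2 - k := by linarith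
      nlinarith
    have hm0 : m = 0 := by
      have h7 : |(m : ℝ) * (2 * Real.pi)| < 2 * Real.pi := by
        have e : (m : ℝ) * (2 * Real.pi) = (k / 2) * L.im - (Complex.log ρ).im := by linarith
        rw [e]
        have h8 : |(k / 2) * L.im| ≤ k / 2 * (2 * Real.pi) := by
          rw [abs_mul, abs_of_pos (by linarith : (0 : ℝ) < k / 2)]
          exact mul_le_mul_of_nonneg_left hL.le (by linarith)
        have h9 := abs_sub ((k / 2) * L.im) (Complex.log ρ).im
        nlinarith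
      rw [abs_mul, abs_of_pos (by positivity : (0 : ℝ) < 2 * Real.pi)] at h7
      have h8 : |(m : ℝ)| < 1 := by
        by_contra hcon
        rw [not_lt] at hcon
        nlinarith
      have h9 : |m| < 1 := by exact_mod_cast h8
      exact Int.abs_lt_one_iff.1 h9
    rw [hm0] at hm
    have hL2 : L = (2 / (k : ℂ)) * Complex.log ρ := by
      have hk0 : (k : ℂ) ≠ 0 := by
        have : k ≠ 0 := by linarith
        exact_mod_cast this
      have h5 : (k : ℂ) / 2 * L = Complex.log ρ := by rw [hm]; simp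
      rw [← h5]
      field_simp
    have hLn : ‖L‖ ≤ 3 * ‖ρ - 1‖ := by
      rw [hL2, norm_mul]
      have h5 : ‖(2 : ℂ) / (k : ℂ)‖ ≤ 2 := by
        rw [norm_div, Complex.norm_real, Real.norm_of_nonneg (by linarith)]
        rw [div_le_iff₀ (by linarith)]
        simp
        linarith
      calc ‖(2 : ℂ) / (k : ℂ)‖ * ‖Complex.log ρ‖ ≤ 2 * (3 / 2 * ‖ρ - 1‖) :=
            mul_le_mul h5 h3 (norm_nonneg _) (by norm_num)
        _ = 3 * ‖ρ - 1‖ := by ring
    have h10 := Complex.norm_exp_sub_one_le (x := L) (by linarith)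
    linarith
  · refine ⟨1, one_pos, ?_⟩
    intro L _ _
    have h1 : (k : ℂ) / 2 * L = L := by
      rw [heq]
      push_cast
      ring
    rw [h1]
    have := norm_nonneg (Complex.exp L - 1)
    linarith

private theorem NCorner_normGC {k μ : ℝ} (hC : 0 < Cc k μ) (q : ℂ) :
    ‖GC k μ q‖ = Cc k μ * Real.exp (-(k / 2) * Real.log ‖1 + q ^ 2‖) := by
  unfold GC
  rw [norm_mul, Complex.norm_real, Real.norm_of_nonneg hC.le, Complex.norm_exp]
  congr 2
  have : -((k : ℂ) / 2) = ((-(k / 2) : ℝ) : ℂ) := by push_cast; ring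
  rw [this, Complex.re_ofReal_mul, Complex.log_re]

private theorem NCorner_Cc {k μ : ℝ} (hμ : 1 < μ) : 0 < Cc k μ := by
  unfold Cc cK
  have h1 : 0 < μ - 1 := by linarith
  have h2 : 0 < μ ^ k := Real.rpow_pos_of_pos (by linarith) _
  have h3 : 0 < (μ - 1) ^ k := Real.rpow_pos_of_pos h1 _
  positivity

/-- Abstract corner.  `p_n → ∞`: the values `G(qx_n) = p_n + a_n`, `G(qw_n) = p_n + b_n` with bounded
`a_n, b_n` and `G(q) = C (1+q²)^(-k/2)` principal determine `1 + q² = C^(2/k) exp (-(2/k) log G)`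
(`-(k/2) log (1+q²)` has imaginary part in `(-π, π)` as `k ≤ 2`).  If `k < 2` the arguments of
`G(qx_n)`, `G(qw_n)` lie in `(-kπ/2, kπ/2)`, so the difference of their principal logarithms is
`O(1/|p_n|)` for large `n` (their quotient tends to `1`, and the difference of the arguments is
`< kπ < 2π` in modulus); if `k = 2`, `exp (-log G) = 1/G`.  In both cases
`|qx_n² - qw_n²| ≤ K |p_n|^(-2/k-1)`.  As `|qx_n + qw_n| = |p_n|^(-1/k)`:
`|qx_n - qw_n| ≤ K |p_n|^(-1/k-1) → 0`. -/
theorem corner_abs {k μ : ℝ} (hk : 1 < k) (hk2 : k ≤ 2) (hμ : 1 < μ)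
    {qx qw p a b : ℕ → ℂ} {M : ℝ} (hp : ∀ n, p n ∈ Complex.slitPlane)
    (hs : ∀ n, qx n + qw n = Complex.exp (-Complex.log (p n) / (k : ℂ)))
    (h1 : ∀ n, 1 + qx n ^ 2 ∈ Complex.slitPlane) (h2 : ∀ n, 1 + qw n ^ 2 ∈ Complex.slitPlane)
    (e1 : ∀ n, a n + p n = GC k μ (qx n)) (e2 : ∀ n, b n + p n = GC k μ (qw n))
    (ha : ∀ n, ‖a n‖ ≤ M) (hb : ∀ n, ‖b n‖ ≤ M)
    (hinf : Tendsto (fun n => ‖p n‖) atTop atTop) :
    Tendsto (fun n => qx n - qw n) atTop (𝓝 0) := by
  have hC := NCorner_Cc (k := k) hμ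
  have hM : 0 ≤ M := (norm_nonneg _).trans (ha 0)
  obtain ⟨δ, hδ, hexp⟩ := NCorner_exp hk hk2
  have hk0 : (0 : ℝ) < k := by linarith
  -- the norm of `1 + qw²` tends to zero
  have hGw : Tendsto (fun n => ‖GC k μ (qw n)‖) atTop atTop := by
    refine tendsto_atTop_mono (f := fun n => ‖p n‖ - M) (fun n => ?_) ?_
    · rw [← e2 n]
      have h3 := norm_sub_norm_le (p n) (-(b n))
      rw [norm_neg, sub_neg_eq_add, add_comm (p n)] at h3
      have h4 := hb n
      linarith
    · exact tendsto_atTop_add_const_right _ (-M) hinf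
  have hw0 : Tendsto (fun n => ‖1 + qw n ^ 2‖) atTop (𝓝 0) := by
    have h3 : Tendsto (fun n => Real.log (‖GC k μ (qw n)‖ / Cc k μ)) atTop atTop :=
      Real.tendsto_log_atTop.comp (hGw.atTop_div_const hC)
    have h4 : Tendsto (fun n => Real.exp (-((2 / k) * Real.log (‖GC k μ (qw n)‖ / Cc k μ))))
        atTop (𝓝 0) := by
      refine Real.tendsto_exp_neg_atTop_nhds_zero.comp ?_
      exact Tendsto.const_mul_atTop (by positivity) h3
    refine h4.congr (fun n => ?_)
    rw [NCorner_normGC hC, mul_div_assoc, mul_comm (Cc k μ), div_mul_cancel₀ _ hC.ne', Real.log_exp]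
    have hne : 0 < ‖1 + qw n ^ 2‖ := norm_pos_iff.2 (Complex.slitPlane_ne_zero (h2 n))
    have e : -(2 / k * (-(k / 2) * Real.log ‖1 + qw n ^ 2‖)) = Real.log ‖1 + qw n ^ 2‖ := by
      field_simp
    rw [e, Real.exp_log hne]
  -- eventual bound
  have hev : ∀ᶠ n in atTop, ‖qx n - qw n‖ ≤ 24 * M * ‖1 + qw n ^ 2‖ := by
    have hE1 := hinf.eventually_ge_atTop 1
    have hE2 := hinf.eventually_ge_atTop (2 * M)
    have hE3 := hinf.eventually_gt_atTop (4 * M / δ)
    filter_upwards [hE1, hE2, hE3] with n hn1 hn2 hn3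
    set L1 := Complex.log (1 + qx n ^ 2) with hL1
    set L2 := Complex.log (1 + qw n ^ 2) with hL2
    have hx1 : Complex.exp L1 = 1 + qx n ^ 2 := Complex.exp_log (Complex.slitPlane_ne_zero (h1 n))
    have hx2 : Complex.exp L2 = 1 + qw n ^ 2 := Complex.exp_log (Complex.slitPlane_ne_zero (h2 n))
    have hGx : GC k μ (qx n) = (Cc k μ : ℂ) * Complex.exp (-((k : ℂ) / 2) * L1) := rfl
    have hGw' : GC k μ (qw n) = (Cc k μ : ℂ) * Complex.exp (-((k : ℂ) / 2) * L2) := rfl
    have hGxn : ‖p n‖ / 2 ≤ ‖GC k μ (qx n)‖ := by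
      rw [← e1 n]
      have h3 := norm_sub_norm_le (p n) (-(a n))
      rw [norm_neg, sub_neg_eq_add, add_comm (p n)] at h3
      have h4 := ha n
      linarith
    have hp0 : 0 < ‖p n‖ := by linarith
    have hGx0 : 0 < ‖GC k μ (qx n)‖ := by linarith
    have hGxne : GC k μ (qx n) ≠ 0 := norm_pos_iff.1 hGx0
    have hratio : Complex.exp ((k : ℂ) / 2 * (L1 - L2)) = GC k μ (qw n) / GC k μ (qx n) := by
      rw [eq_div_iff hGxne, hGx, hGw']
      rw [mul_left_comm, ← Complex.exp_add]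
      congr 2
      ring
    have hρ : Complex.exp ((k : ℂ) / 2 * (L1 - L2)) - 1 = (b n - a n) / GC k μ (qx n) := by
      rw [hratio, div_sub_one hGxne, ← e1 n, ← e2 n]
      congr 1
      ring
    have hρn : ‖Complex.exp ((k : ℂ) / 2 * (L1 - L2)) - 1‖ ≤ 4 * M / ‖p n‖ := by
      rw [hρ, norm_div]
      have h3 : ‖b n - a n‖ ≤ 2 * M := by
        have := norm_sub_le (b n) (a n)
        linarith [ha n, hb n]
      rw [div_le_div_iff₀ hGx0 hp0]
      have h4 : 0 ≤ ‖b n - a n‖ := norm_nonneg _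
      nlinarith
    have hLim : |(L1 - L2).im| < 2 * Real.pi := by
      rw [Complex.sub_im, hL1, hL2, Complex.log_im, Complex.log_im]
      have i1 := Complex.neg_pi_lt_arg (1 + qx n ^ 2)
      have i2 := Complex.arg_le_pi (1 + qx n ^ 2)
      have i3 := Complex.neg_pi_lt_arg (1 + qw n ^ 2)
      have i4 := Complex.arg_le_pi (1 + qw n ^ 2)
      rw [abs_lt]
      constructor <;> linarith
    have hδ' : ‖Complex.exp ((k : ℂ) / 2 * (L1 - L2)) - 1‖ < δ := by
      refine lt_of_le_of_lt hρn ?_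
      rw [div_lt_iff₀ hp0]
      rw [div_lt_iff₀ hδ] at hn3
      linarith
    have h5 := hexp (L1 - L2) hLim hδ'
    have h6 : ‖qx n ^ 2 - qw n ^ 2‖ ≤ ‖1 + qw n ^ 2‖ * (24 * M / ‖p n‖) := by
      have e : qx n ^ 2 - qw n ^ 2 = (1 + qw n ^ 2) * (Complex.exp (L1 - L2) - 1) := by
        rw [Complex.exp_sub, hx1, hx2]
        have := Complex.slitPlane_ne_zero (h2 n)
        field_simp
        ring
      rw [e, norm_mul]
      refine mul_le_mul_of_nonneg_left ?_ (norm_nonneg _)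
      refine h5.trans ?_
      have : 24 * M / ‖p n‖ = 6 * (4 * M / ‖p n‖) := by ring
      rw [this]
      linarith
    -- the sum
    have hsn : 1 / ‖p n‖ ≤ ‖qx n + qw n‖ := by
      rw [hs n, Complex.norm_exp]
      have e : (-Complex.log (p n) / (k : ℂ)).re = -(Real.log ‖p n‖ / k) := by
        rw [Complex.div_ofReal_re, Complex.neg_re, Complex.log_re]
        ring
      rw [e, one_div, ← Real.exp_log (inv_pos.2 hp0), Real.log_inv]
      apply Real.exp_le_exp.2
      have hl : 0 ≤ Real.log ‖p n‖ := Real.log_nonneg hn1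
      have : Real.log ‖p n‖ / k ≤ Real.log ‖p n‖ := div_le_self hl hk.le
      linarith
    have hsp : 0 < ‖qx n + qw n‖ := lt_of_lt_of_le (by positivity) hsn
    have h7 : ‖qx n - qw n‖ * ‖qx n + qw n‖ ≤ ‖1 + qw n ^ 2‖ * (24 * M / ‖p n‖) := by
      rw [← norm_mul]
      have e : (qx n - qw n) * (qx n + qw n) = qx n ^ 2 - qw n ^ 2 := by ring
      rw [e]
      exact h6
    have h8 : ‖qx n - qw n‖ * (1 / ‖p n‖) ≤ ‖1 + qw n ^ 2‖ * (24 * M / ‖p n‖) :=
      (mul_le_mul_of_nonneg_left hsn (norm_nonneg _)).trans h7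
    have h9 : ‖qx n - qw n‖ = (‖qx n - qw n‖ * (1 / ‖p n‖)) * ‖p n‖ := by
      field_simp
    rw [h9]
    calc ‖qx n - qw n‖ * (1 / ‖p n‖) * ‖p n‖ ≤ ‖1 + qw n ^ 2‖ * (24 * M / ‖p n‖) * ‖p n‖ :=
          mul_le_mul_of_nonneg_right h8 hp0.le
      _ = 24 * M * ‖1 + qw n ^ 2‖ := by field_simp
  have hlim : Tendsto (fun n => 24 * M * ‖1 + qw n ^ 2‖) atTop (𝓝 0) := by
    have := hw0.const_mul (24 * M)
    rwa [mul_zero] at this
  exact squeeze_zero_norm' hev hlim

/-- Limit of matched vertices.  Put `ux = u(Re x*)`, `uw = u(Re w*)`, `θ = kπ/2`: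
`Q x* = -i ux`, `P x* = e^{iθ} w(Re x*)`, `Q w* = i uw`, `P w* = e^{-iθ} w(Re w*)` (conjugation),
`Q x_n + Q w_n = p_n^(-1/k) → D* = -i(ux - uw)`, and `ux ≤ 1` as `Re x* ≥ 0`.
* `ux < 1`: `G(Q x_n) → g = C (1-ux²)^(-k/2) > 0`, so `p_n → p* = g - e^{iθ} w(Re x*)`, whose real part
  is `> 0` (`cos θ ≤ 0`... `< 0`), so `p*^(-1/k)` has positive real part, but `D*` is imaginary.
* `ux = 1`: `Re x* = 0`, `‖G(Q x_n)‖ → ∞`, so `‖p_n‖ → ∞`, `D* = 0`, `uw = 1`, `Re w* = 0`
  (`u_gt`, `u_lt`), so `Q x* - Q w* = -2i`, against `corner_abs`. -/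
theorem VM_limit (hp : Pack k μ Q P u w) {xs ws : ℕ → ℂ} {x z : ℂ}
    (hv : ∀ n, VM k μ Q P (xs n) (ws n)) (hx : Tendsto xs atTop (𝓝 x))
    (hw : Tendsto ws atTop (𝓝 z)) (hxi : x.im = Real.pi / 2) (hzi : z.im = -(Real.pi / 2))
    (hx0 : 0 ≤ x.re) (hx1 : x.re < ell μ) (hz1 : z.re < ell μ) : False := by
  have hk := hp.hk
  have hk2 := hp.hk2
  have hk0 : (0 : ℝ) < k := by linarith
  have hC := NCorner_Cc (k := k) hp.hμ
  have hxe : x = ⟨x.re, Real.pi / 2⟩ := Complex.ext rfl hxi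
  have hze : z = (starRingEnd ℂ) ⟨z.re, Real.pi / 2⟩ := Complex.ext rfl (by simpa using hzi)
  have hDx : Dom μ x := Or.inr hx1
  have hDz : Dom μ z := Or.inr hz1
  have hDz' : Dom μ ⟨z.re, Real.pi / 2⟩ := Or.inr hz1
  have qx : Q x = -Complex.I * (u x.re : ℂ) := by
    conv_lhs => rw [hxe]
    exact hp.topQ _ hx1
  have px : P x = Complex.exp ((k * Real.pi / 2 : ℝ) * Complex.I) * (w x.re : ℂ) := by
    conv_lhs => rw [hxe]
    exact hp.topP _ hx1
  have qz : Q z = Complex.I * (u z.re : ℂ) := by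
    conv_lhs => rw [hze]
    rw [hp.conjQ _ hDz', hp.topQ _ hz1]
    simp
  have tQx : Tendsto (fun n => Q (xs n)) atTop (𝓝 (Q x)) :=
    (hp.dQ x hDx).continuousAt.tendsto.comp hx
  have tPx : Tendsto (fun n => P (xs n)) atTop (𝓝 (P x)) :=
    (hp.dP x hDx).continuousAt.tendsto.comp hx
  have tQz : Tendsto (fun n => Q (ws n)) atTop (𝓝 (Q z)) :=
    (hp.dQ z hDz).continuousAt.tendsto.comp hw
  have tPz : Tendsto (fun n => P (ws n)) atTop (𝓝 (P z)) :=
    (hp.dP z hDz).continuousAt.tendsto.comp hw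
  have tD := tQx.add tQz
  choose p hpS hpD hp1 hp2 hpe1 hpe2 using hv
  have hI : Complex.I ^ 2 = -1 := Complex.I_sq
  have hQx2 : 1 + Q x ^ 2 = ((1 - (u x.re) ^ 2 : ℝ) : ℂ) := by
    rw [qx, mul_pow, neg_sq, hI]
    push_cast
    ring
  have ha1 : u x.re ≤ 1 := by
    rcases hx0.lt_or_eq with h | h
    · exact (hp.u_lt _ h hx1).le
    · rw [← h]
      exact hp.u_zero.le
  have ha0 := hp.upos x.re hx1
  have hDre : (Q x + Q z).re = 0 := by
    rw [qx, qz]
    simp
  rcases ha1.lt_or_eq with hlt | heq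
  · -- `u < 1`
    have hpos : 0 < 1 - (u x.re) ^ 2 := by nlinarith
    have hslit : 1 + Q x ^ 2 ∈ Complex.slitPlane := by
      rw [hQx2]
      exact Complex.ofReal_mem_slitPlane.2 hpos
    have tG : Tendsto (fun n => GC k μ (Q (xs n))) atTop (𝓝 (GC k μ (Q x))) :=
      (GC_differentiableAt hslit).continuousAt.tendsto.comp tQx
    have tp : Tendsto p atTop (𝓝 (GC k μ (Q x) - P x)) := by
      refine (tG.sub tPx).congr (fun n => ?_)
      rw [← hpe1 n]
      ring
    have hGpos : 0 < (GC k μ (Q x)).re := by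
      have e : GC k μ (Q x) = ((Cc k μ * Real.exp (-(k / 2) * Real.log (1 - (u x.re) ^ 2)) : ℝ) : ℂ) := by
        unfold GC
        rw [hQx2, ← Complex.ofReal_log hpos.le]
        push_cast
        ring_nf
      rw [e, Complex.ofReal_re]
      positivity
    have hPneg : (P x).re < 0 := by
      rw [px, Complex.re_mul_ofReal, Complex.exp_ofReal_mul_I_re]
      have hcos : Real.cos (k * Real.pi / 2) < 0 := by
        apply Real.cos_neg_of_pi_div_two_lt_of_lt
        · nlinarith [Real.pi_pos]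
        · nlinarith [Real.pi_pos]
      have hw0 := hp.wpos x.re hx1
      nlinarith
    have hre : 0 < (GC k μ (Q x) - P x).re := by
      rw [Complex.sub_re]
      linarith
    have hsl : GC k μ (Q x) - P x ∈ Complex.slitPlane := Or.inl hre
    have tE : Tendsto (fun n => Complex.exp (-Complex.log (p n) / (k : ℂ))) atTop
        (𝓝 (Complex.exp (-Complex.log (GC k μ (Q x) - P x) / (k : ℂ)))) := by
      refine (Complex.continuous_exp.tendsto _).comp ?_
      exact ((tp.clog hsl).neg).div_const _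
    have hD : Q x + Q z = Complex.exp (-Complex.log (GC k μ (Q x) - P x) / (k : ℂ)) := by
      refine tendsto_nhds_unique tD (tE.congr (fun n => ?_))
      exact (hpD n).symm
    have h1 : 0 < (Q x + Q z).re := by
      rw [hD, Complex.exp_re]
      refine mul_pos (Real.exp_pos _) ?_
      have e : (-Complex.log (GC k μ (Q x) - P x) / (k : ℂ)).im =
          -(Complex.arg (GC k μ (Q x) - P x) / k) := by
        rw [Complex.div_ofReal_im, Complex.neg_im, Complex.log_im]
        ring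
      rw [e, Real.cos_neg]
      have harg := Complex.abs_arg_lt_pi_div_two_iff.2 (Or.inl hre)
      rw [abs_lt] at harg
      apply Real.cos_pos_of_mem_Ioo
      constructor
      · rw [lt_div_iff₀ hk0]
        nlinarith [Real.pi_pos]
      · rw [div_lt_iff₀ hk0]
        nlinarith [Real.pi_pos]
    rw [hDre] at h1
    exact lt_irrefl _ h1
  · -- `u = 1`
    have hzero : 1 + Q x ^ 2 = 0 := by
      rw [hQx2, heq]
      simp
    have t0 : Tendsto (fun n => 1 + Q (xs n) ^ 2) atTop (𝓝 0) := by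
      have := (tQx.pow 2).const_add 1
      rwa [hzero] at this
    have tn : Tendsto (fun n => ‖1 + Q (xs n) ^ 2‖) atTop (𝓝[>] 0) := by
      rw [tendsto_nhdsWithin_iff]
      refine ⟨by simpa using t0.norm, Eventually.of_forall fun n => ?_⟩
      exact norm_pos_iff.2 (Complex.slitPlane_ne_zero (hp1 n))
    have tG : Tendsto (fun n => ‖GC k μ (Q (xs n))‖) atTop atTop := by
      have h1 : Tendsto (fun n => Real.log ‖1 + Q (xs n) ^ 2‖) atTop atBot :=
        Real.tendsto_log_nhdsGT_zero.comp tn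
      have h2 : Tendsto (fun n => -(k / 2) * Real.log ‖1 + Q (xs n) ^ 2‖) atTop atTop :=
        Tendsto.const_mul_atBot_of_neg (by linarith) h1
      have h3 := (Real.tendsto_exp_atTop.comp h2).const_mul_atTop hC
      refine h3.congr (fun n => ?_)
      rw [NCorner_normGC hC]
      rfl
    obtain ⟨M1, hM1⟩ := tPx.norm.bddAbove_range
    obtain ⟨M2, hM2⟩ := tPz.norm.bddAbove_range
    have hb1 : ∀ n, ‖P (xs n)‖ ≤ M1 := fun n => hM1 ⟨n, rfl⟩
    have hb2 : ∀ n, ‖P (ws n)‖ ≤ M2 := fun n => hM2 ⟨n, rfl⟩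
    have tp : Tendsto (fun n => ‖p n‖) atTop atTop := by
      refine tendsto_atTop_mono (f := fun n => ‖GC k μ (Q (xs n))‖ - M1) (fun n => ?_) ?_
      · rw [← hpe1 n]
        have h3 := norm_add_le (P (xs n)) (p n)
        have h4 := hb1 n
        linarith
      · exact tendsto_atTop_add_const_right _ (-M1) tG
    have hcorner := corner_abs (k := k) (μ := μ) hk hk2 hp.hμ (M := max M1 M2) hpS hpD hp1 hp2
      hpe1 hpe2 (fun n => (hb1 n).trans (le_max_left _ _)) (fun n => (hb2 n).trans (le_max_right _ _)) tp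
    have hlim : Q x - Q z = 0 := tendsto_nhds_unique (tQx.sub tQz) hcorner
    -- `D* = 0`
    have tE : Tendsto (fun n => ‖Complex.exp (-Complex.log (p n) / (k : ℂ))‖) atTop (𝓝 0) := by
      have h1 : Tendsto (fun n => Real.log ‖p n‖ / k) atTop atTop :=
        (Real.tendsto_log_atTop.comp tp).atTop_div_const hk0
      have h2 := Real.tendsto_exp_neg_atTop_nhds_zero.comp h1
      refine h2.congr (fun n => ?_)
      rw [Complex.norm_exp, Complex.div_ofReal_re, Complex.neg_re, Complex.log_re]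
      simp only [Function.comp_apply]
      congr 1
      ring
    have hD0 : Q x + Q z = 0 := by
      refine tendsto_nhds_unique tD ?_
      rw [tendsto_zero_iff_norm_tendsto_zero]
      refine tE.congr (fun n => ?_)
      rw [hpD n]
    have hfin : Q x = 0 := by linear_combination (hlim + hD0) / 2
    rw [qx, heq] at hfin
    simp at hfin

end EQG
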