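import Pool.Agent.Lib.MP_226de1_co.G.PackDef
import Pool.Agent.Lib.MP_226de1_co.NDefs

/-! End game: matched pairs `(x, z)` (a line seen from the end A and from the end B); compare
`NDefs.lean`, `k = 2`. -/

set_option autoImplicit false

namespace EQG

open Complex Set Filter Topology
open EQ2 (dd dr xv ell pt NNS Dom US)

/-- line matching -/
def LM (k μ : ℝ) (Q P : ℂ → ℂ) (x z : ℂ) : Prop :=
  Q x + Q z = 0 ∧ 1 + Q x ^ 2 ∈ Complex.slitPlane ∧ P x + P z = GC k μ (Q x)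

/-- vertex matching: lines `x` and `w` are consecutive, `D = Q x + Q w = p^(-1/k)` -/
def VM (k μ : ℝ) (Q P : ℂ → ℂ) (x w : ℂ) : Prop :=
  ∃ p : ℂ, p ∈ Complex.slitPlane ∧ Q x + Q w = Complex.exp (-Complex.log p / (k : ℂ)) ∧
    1 + Q x ^ 2 ∈ Complex.slitPlane ∧ 1 + Q w ^ 2 ∈ Complex.slitPlane ∧
    P x + p = GC k μ (Q x) ∧ P w + p = GC k μ (Q w)

/-- good pair: line matching holds along an analytic germ -/
def GG (k μ : ℝ) (Q P : ℂ → ℂ) (x z : ℂ) : Prop :=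
  US μ x ∧ US μ z ∧ ∃ Z : ℂ → ℂ, AnalyticAt ℂ Z x ∧ Z x = z ∧
    ∀ᶠ x' in 𝓝 x, LM k μ Q P x' (Z x')

variable {k μ : ℝ} {Q P : ℂ → ℂ} {u w : ℝ → ℝ}

theorem GC_neg (k μ : ℝ) (q : ℂ) : GC k μ (-q) = GC k μ q := by
  unfold GC
  rw [neg_sq]

private theorem NDefs_ell_pos (hμ : 1 < μ) : 0 < ell μ := Real.log_pos hμ

private theorem NDefs_US_dom {x : ℂ} (hx : US μ x) : Dom μ x := Or.inl hx

private theorem NDefs_US_open : IsOpen {x : ℂ | US μ x} := by
  have h1 : IsOpen {x : ℂ | x.re < 3 * ell μ / 2} :=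
    isOpen_lt Complex.continuous_re continuous_const
  have h2 : IsOpen {x : ℂ | |x.im| < Real.pi / 2} :=
    isOpen_lt Complex.continuous_im.abs continuous_const
  exact h1.inter h2

private theorem NDefs_US_conj {x : ℂ} (hx : US μ x) : US μ ((starRingEnd ℂ) x) := by
  refine ⟨?_, ?_⟩
  · rw [Complex.conj_re]
    exact hx.1
  · rw [Complex.conj_im, abs_neg]
    exact hx.2

private theorem NDefs_conj_slit {q : ℂ} (hq : 1 + q ^ 2 ∈ Complex.slitPlane) :
    1 + (starRingEnd ℂ) q ^ 2 ∈ Complex.slitPlane := by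
  have e : 1 + (starRingEnd ℂ) q ^ 2 = (starRingEnd ℂ) (1 + q ^ 2) := by simp
  rw [e, Complex.mem_slitPlane_iff, Complex.conj_re, Complex.conj_im, neg_ne_zero]
  exact hq

theorem GC_conj {q : ℂ} (hq : 1 + q ^ 2 ∈ Complex.slitPlane) :
    GC k μ ((starRingEnd ℂ) q) = (starRingEnd ℂ) (GC k μ q) := by
  have e : 1 + (starRingEnd ℂ) q ^ 2 = (starRingEnd ℂ) (1 + q ^ 2) := by simp
  unfold GC
  rw [e, Complex.log_conj _ (Complex.mem_slitPlane_iff_arg.1 hq).1, map_mul, ← Complex.exp_conj,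
    map_mul, Complex.conj_ofReal, map_neg, map_div₀, Complex.conj_ofReal, Complex.conj_ofNat]

theorem GC_differentiableAt {q : ℂ} (hq : 1 + q ^ 2 ∈ Complex.slitPlane) :
    DifferentiableAt ℂ (GC k μ) q := by
  unfold GC
  have h1 : DifferentiableAt ℂ (fun q : ℂ => 1 + q ^ 2) q := by fun_prop
  have h2 : DifferentiableAt ℂ (fun q : ℂ => Complex.log (1 + q ^ 2)) q := h1.clog hq
  exact ((h2.const_mul _).cexp).const_mul _

theorem GG.lm {x z : ℂ} (hg : GG k μ Q P x z) : LM k μ Q P x z := by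
  obtain ⟨_, _, Z, _, hZx, hev⟩ := hg
  have h := hev.self_of_nhds
  rwa [hZx] at h

theorem LM.symm {x z : ℂ} (hl : LM k μ Q P x z) : LM k μ Q P z x := by
  obtain ⟨h1, h2, h3⟩ := hl
  have hqq : Q z = -Q x := eq_neg_of_add_eq_zero_right h1
  refine ⟨by rw [add_comm]; exact h1, ?_, ?_⟩
  · rw [hqq, neg_sq]
    exact h2
  · rw [hqq, GC_neg, add_comm (P z)]
    exact h3

private theorem NDefs_lm_conj (hp : Pack k μ Q P u w) {x z : ℂ} (hx : US μ x) (hz : US μ z)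
    (hl : LM k μ Q P x z) : LM k μ Q P ((starRingEnd ℂ) x) ((starRingEnd ℂ) z) := by
  obtain ⟨h1, h2, h3⟩ := hl
  have a1 := hp.conjQ x (NDefs_US_dom hx)
  have a2 := hp.conjQ z (NDefs_US_dom hz)
  have a3 := hp.conjP x (NDefs_US_dom hx)
  have a4 := hp.conjP z (NDefs_US_dom hz)
  refine ⟨?_, ?_, ?_⟩
  · rw [a1, a2, ← map_add, h1, map_zero]
  · rw [a1]
    exact NDefs_conj_slit h2
  · rw [a1, a3, a4, GC_conj h2, ← h3, map_add]

theorem GG.conj (hp : Pack k μ Q P u w) {x z : ℂ} (hg : GG k μ Q P x z) :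
    GG k μ Q P ((starRingEnd ℂ) x) ((starRingEnd ℂ) z) := by
  obtain ⟨hx, hz, Z, hZ, hZx, hev⟩ := hg
  refine ⟨NDefs_US_conj hx, NDefs_US_conj hz,
    fun x' => (starRingEnd ℂ) (Z ((starRingEnd ℂ) x')), ?_, ?_, ?_⟩
  · rw [Complex.analyticAt_iff_eventually_differentiableAt] at hZ ⊢
    have hc : Tendsto (fun y : ℂ => (starRingEnd ℂ) y) (𝓝 ((starRingEnd ℂ) x)) (𝓝 x) := by
      have := (Complex.continuous_conj).tendsto ((starRingEnd ℂ) x)
      rwa [Complex.conj_conj] at this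
    filter_upwards [hc.eventually hZ] with y hy
    have h1 := hy.hasDerivAt.conj_conj
    rw [Complex.conj_conj] at h1
    exact h1.differentiableAt
  · simp [hZx]
  · have hc : Tendsto (fun y : ℂ => (starRingEnd ℂ) y) (𝓝 ((starRingEnd ℂ) x)) (𝓝 x) := by
      have := (Complex.continuous_conj).tendsto ((starRingEnd ℂ) x)
      rwa [Complex.conj_conj] at this
    have e1 : ∀ᶠ x' in 𝓝 x, US μ x' := NDefs_US_open.mem_nhds hx
    have e2 : ∀ᶠ x' in 𝓝 x, US μ (Z x') := by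
      refine hZ.continuousAt.eventually ?_
      rw [hZx]
      exact NDefs_US_open.mem_nhds hz
    filter_upwards [hc.eventually hev, hc.eventually e1, hc.eventually e2] with y h1 h2 h3
    have h4 := NDefs_lm_conj hp h2 h3 h1
    rwa [Complex.conj_conj] at h4

/-- shift of a matched line: `P (x+ℓ) = G(Q x) - P x = P z`, so by `stepD`
`Q x - Q (x+ℓ) = exp (-log P (x+ℓ) / k) = exp (-log P z / k) = Q (z-ℓ) - Q z`; hence
`Q (x+ℓ) + Q (z-ℓ) = 0`; `1 + Q(x+ℓ)² = 1 + Q(z-ℓ)²` is in the slit plane by `nz` (`Re (z-ℓ) < ℓ/2`),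
and `P(x+ℓ) + P(z-ℓ) = P z + P (z-ℓ) = G(Q (z-ℓ)) = G(Q (x+ℓ))` by `rel`. -/
theorem LM.shift (hp : Pack k μ Q P u w) {x z : ℂ} (hx : US μ x) (hz : US μ z)
    (hl : LM k μ Q P x z) (hr : x.re < ell μ / 2) :
    LM k μ Q P (x + (ell μ : ℂ)) (z - (ell μ : ℂ)) := by
  obtain ⟨h1, h2, h3⟩ := hl
  have hℓ := NDefs_ell_pos hp.hμ
  have hzr : (z - (ell μ : ℂ)).re < ell μ / 2 := by
    have := hz.1
    simp only [Complex.sub_re, Complex.ofReal_re]
    linarith
  have hzi : |(z - (ell μ : ℂ)).im| < Real.pi / 2 := by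
    simp only [Complex.sub_im, Complex.ofReal_im, sub_zero]
    exact hz.2
  have d1 := hp.stepD x hr hx.2
  have r1 := hp.rel x hr hx.2
  have d2 := hp.stepD _ hzr hzi
  have r2 := hp.rel _ hzr hzi
  rw [sub_add_cancel] at d2 r2
  have hP : P z = P (x + (ell μ : ℂ)) := add_left_cancel (h3.trans r1.symm)
  rw [← hP, ← d2] at d1
  have hq : Q (x + (ell μ : ℂ)) + Q (z - (ell μ : ℂ)) = 0 := by
    linear_combination h1 - d1
  have hqq : Q (x + (ell μ : ℂ)) = -Q (z - (ell μ : ℂ)) := eq_neg_of_add_eq_zero_left hq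
  refine ⟨hq, ?_, ?_⟩
  · rw [hqq, neg_sq]
    exact hp.nz _ (by linarith) hzi
  · rw [hqq, GC_neg, ← hP, add_comm (P z)]
    exact r2

private theorem NDefs_GG_shift_aux {x z : ℂ} (c : ℂ)
    {Z : ℂ → ℂ} (hZ : AnalyticAt ℂ Z x) (hZx : Z x = z) :
    AnalyticAt ℂ (fun x' => Z (x' - c) - c) (x + c) ∧ Z (x + c - c) - c = z - c ∧
      Tendsto (fun x' : ℂ => x' - c) (𝓝 (x + c)) (𝓝 x) := by
  have hc : Tendsto (fun x' : ℂ => x' - c) (𝓝 (x + c)) (𝓝 (x + c - c)) :=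
    (continuous_id.sub continuous_const).tendsto _
  rw [add_sub_cancel_right] at hc ⊢
  refine ⟨?_, by rw [hZx], hc⟩
  have h1 : AnalyticAt ℂ (fun x' : ℂ => x' - c) (x + c) := analyticAt_id.sub analyticAt_const
  have h2 : AnalyticAt ℂ Z ((fun x' : ℂ => x' - c) (x + c)) := by
    show AnalyticAt ℂ Z (x + c - c)
    rw [add_sub_cancel_right]
    exact hZ
  have h3 : AnalyticAt ℂ (Z ∘ (fun x' : ℂ => x' - c)) (x + c) :=
    AnalyticAt.comp (g := Z) (f := fun x' : ℂ => x' - c) (x := x + c) h2 h1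
  exact h3.sub analyticAt_const

theorem GG.shift (hp : Pack k μ Q P u w) {x z : ℂ} (hg : GG k μ Q P x z)
    (hr : x.re < ell μ / 2) : GG k μ Q P (x + (ell μ : ℂ)) (z - (ell μ : ℂ)) := by
  obtain ⟨hx, hz, Z, hZ, hZx, hev⟩ := hg
  have hl := NDefs_ell_pos hp.hμ
  obtain ⟨a1, a2, a3⟩ := NDefs_GG_shift_aux (ell μ : ℂ) hZ hZx
  refine ⟨⟨?_, ?_⟩, ⟨?_, ?_⟩, _, a1, a2, ?_⟩
  · simp only [Complex.add_re, Complex.ofReal_re]
    linarith
  · simp only [Complex.add_im, Complex.ofReal_im, add_zero]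
    exact hx.2
  · simp only [Complex.sub_re, Complex.ofReal_re]
    linarith [hz.1]
  · simp only [Complex.sub_im, Complex.ofReal_im, sub_zero]
    exact hz.2
  · have e1 : ∀ᶠ x' in 𝓝 x, US μ x' := NDefs_US_open.mem_nhds hx
    have e2 : ∀ᶠ x' in 𝓝 x, US μ (Z x') := by
      refine hZ.continuousAt.eventually ?_
      rw [hZx]
      exact NDefs_US_open.mem_nhds hz
    have e3 : ∀ᶠ x' in 𝓝 x, x'.re < ell μ / 2 :=
      (isOpen_lt Complex.continuous_re continuous_const).mem_nhds hr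
    filter_upwards [a3.eventually hev, a3.eventually e1, a3.eventually e2, a3.eventually e3]
      with y h1 h2 h3 h4
    have h5 := LM.shift hp h2 h3 h1 h4
    rwa [sub_add_cancel] at h5

theorem GG.shift' (hp : Pack k μ Q P u w) {x z : ℂ} (hg : GG k μ Q P x z)
    (hr : z.re < ell μ / 2) : GG k μ Q P (x - (ell μ : ℂ)) (z + (ell μ : ℂ)) := by
  obtain ⟨hx, hz, Z, hZ, hZx, hev⟩ := hg
  have hl := NDefs_ell_pos hp.hμ
  obtain ⟨a1, a2, a3⟩ := NDefs_GG_shift_aux (-(ell μ : ℂ)) hZ hZx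
  simp only [sub_neg_eq_add, ← sub_eq_add_neg] at a1 a2 a3
  refine ⟨⟨?_, ?_⟩, ⟨?_, ?_⟩, _, a1, a2, ?_⟩
  · simp only [Complex.sub_re, Complex.ofReal_re]
    linarith [hx.1]
  · simp only [Complex.sub_im, Complex.ofReal_im, sub_zero]
    exact hx.2
  · simp only [Complex.add_re, Complex.ofReal_re]
    linarith
  · simp only [Complex.add_im, Complex.ofReal_im, add_zero]
    exact hz.2
  · have e1 : ∀ᶠ x' in 𝓝 x, US μ x' := NDefs_US_open.mem_nhds hx
    have e2 : ∀ᶠ x' in 𝓝 x, US μ (Z x') := by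
      refine hZ.continuousAt.eventually ?_
      rw [hZx]
      exact NDefs_US_open.mem_nhds hz
    have e3 : ∀ᶠ x' in 𝓝 x, (Z x').re < ell μ / 2 := by
      have h := hZ.continuousAt.tendsto
      rw [hZx] at h
      exact h.eventually ((isOpen_lt Complex.continuous_re continuous_const).mem_nhds hr)
    filter_upwards [a3.eventually hev, a3.eventually e1, a3.eventually e2, a3.eventually e3]
      with y h1 h2 h3 h4
    have h5 := (LM.shift hp h3 h2 h1.symm h4).symm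
    rwa [add_sub_cancel_right] at h5

/-- from a matched line to matched vertices: `w = z - ℓ`, `p = P z` -/
theorem LM.vm (hp : Pack k μ Q P u w) {x z : ℂ} (hx : US μ x) (hz : US μ z)
    (hl : LM k μ Q P x z) : VM k μ Q P x (z - (ell μ : ℂ)) := by
  obtain ⟨h1, h2, h3⟩ := hl
  have hℓ := NDefs_ell_pos hp.hμ
  have hzr : (z - (ell μ : ℂ)).re < ell μ / 2 := by
    have := hz.1
    simp only [Complex.sub_re, Complex.ofReal_re]
    linarith
  have hzi : |(z - (ell μ : ℂ)).im| < Real.pi / 2 := by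
    simp only [Complex.sub_im, Complex.ofReal_im, sub_zero]
    exact hz.2
  have s2 := hp.stepS _ hzr hzi
  have d2 := hp.stepD _ hzr hzi
  have r2 := hp.rel _ hzr hzi
  rw [sub_add_cancel] at s2 d2 r2
  refine ⟨P z, s2, ?_, h2, hp.nz _ (by linarith) hzi, h3, r2⟩
  rw [← d2]
  linear_combination h1

/-- `p = P x` -/
theorem LM.vm' (hp : Pack k μ Q P u w) {x z : ℂ} (hx : US μ x) (hz : US μ z)
    (hl : LM k μ Q P x z) : VM k μ Q P (x - (ell μ : ℂ)) z := by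
  obtain ⟨p, h1, h2, h3, h4, h5, h6⟩ := LM.vm hp hz hx hl.symm
  exact ⟨p, h1, by rw [add_comm]; exact h2, h4, h3, h6, h5⟩

end EQG
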