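import Pool.Agent.Lib.MP_226de1_co.G.NWindow

/-! The extremal pair reaches the height `τ` (compare `NTop.lean`, `k = 2`). -/

set_option autoImplicit false

namespace EQG

open Complex Set Filter Topology
open EQ2 (dd dr xv ell pt NNS Dom US)

variable {k μ : ℝ} {Q P : ℂ → ℂ} {u w : ℝ → ℝ}

private theorem NTop_US_open : IsOpen {x : ℂ | US μ x} := by
  have h1 : IsOpen {x : ℂ | x.re < 3 * ell μ / 2} :=
    isOpen_lt Complex.continuous_re continuous_const
  have h2 : IsOpen {x : ℂ | |x.im| < Real.pi / 2} :=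
    isOpen_lt Complex.continuous_im.abs continuous_const
  exact h1.inter h2

/-- a good pair stays good at nearby points of its germ -/
theorem GG.near {x z : ℂ} (hg : GG k μ Q P x z) : ∃ Z : ℂ → ℂ, AnalyticAt ℂ Z x ∧ Z x = z ∧
    ∀ᶠ x' in 𝓝 x, GG k μ Q P x' (Z x') := by
  obtain ⟨hx, hz, Z, hZ, hZx, hev⟩ := hg
  refine ⟨Z, hZ, hZx, ?_⟩
  have e1 : ∀ᶠ x' in 𝓝 x, US μ x' := NTop_US_open.mem_nhds hx
  have e2 : ∀ᶠ x' in 𝓝 x, US μ (Z x') := by
    have h := hZ.continuousAt.tendsto
    rw [hZx] at h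
    exact h.eventually (NTop_US_open.mem_nhds hz)
  filter_upwards [e1, e2, hZ.eventually_analyticAt, eventually_eventually_nhds.2 hev]
    with x' h1 h2 h3 h4
  exact ⟨h1, h2, Z, h3, rfl, h4⟩

/-- Extremal pair.  Choose `p ∈ Win κ τ` minimising `Re (x+z)` and among these maximising `Im x`
(compactness).  Suppose `Im x < τ`.  Let `Z` be the germ, `W x' = x' + Z x'` (real at `x`).
If `W` is not constant near `x` it is open (`AnalyticAt.eventually_constant_or_nhds_le_map_nhds`):
there are `x'` arbitrarily near `x` with `W x'` real and `< W x`; if `Im x' ≥ 0` the pair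
`(x', Z x')` is good with smaller sum; if `Im x' < 0` (only possible when `Im x = 0`) use the
conjugate pair (`GG.conj`).  If `W` is constant near `x`, `x' = x + iε` contradicts maximality of
`Im x`.  In all cases move the new pair into the window by `exists_mem_Win`.
(`GG.near`) -/
theorem exists_top (hp : Pack k μ Q P u w) {κ τ : ℝ} (hκ : κ < ell μ) (h0 : 0 ≤ τ)
    (hτ : τ < Real.pi / 2) (hne : (Win k μ Q P κ τ).Nonempty) :
    ∃ p ∈ Win k μ Q P κ τ, p.1.im = τ := by
  have hcpt := Win_compact hp hκ hτ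
  have hcs : Continuous (fun p : ℂ × ℂ => p.1.re + p.2.re) :=
    (Complex.continuous_re.comp continuous_fst).add (Complex.continuous_re.comp continuous_snd)
  have hci : Continuous (fun p : ℂ × ℂ => p.1.im) := Complex.continuous_im.comp continuous_fst
  obtain ⟨p0, hp0, hmin⟩ := hcpt.exists_isMinOn hne hcs.continuousOn
  have hmin' : ∀ p ∈ Win k μ Q P κ τ, p0.1.re + p0.2.re ≤ p.1.re + p.2.re := fun p hp => hmin hp
  have hclosed : IsClosed {p : ℂ × ℂ | p.1.re + p.2.re = p0.1.re + p0.2.re} :=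
    isClosed_eq hcs continuous_const
  have hcpt2 := hcpt.inter_right hclosed
  obtain ⟨p1, hp1, hmax⟩ := hcpt2.exists_isMaxOn ⟨p0, hp0, rfl⟩ hci.continuousOn
  have hmax' : ∀ p ∈ Win k μ Q P κ τ, p.1.re + p.2.re = p0.1.re + p0.2.re → p.1.im ≤ p1.1.im :=
    fun p hp hps => hmax ⟨hp, hps⟩
  have hp1W : p1 ∈ Win k μ Q P κ τ := hp1.1
  have hp1s : p1.1.re + p1.2.re = p0.1.re + p0.2.re := hp1.2
  refine ⟨p1, hp1W, ?_⟩
  by_contra hneq
  obtain ⟨hg, _, _, hi0, hiτ, hi2, hs⟩ := id hp1W
  have hlt : p1.1.im < τ := lt_of_le_of_ne hiτ hneq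
  have hτ0 : 0 < τ := lt_of_le_of_lt hi0 hlt
  obtain ⟨Z, hZ, hZx, hev⟩ := hg.near
  have hW : AnalyticAt ℂ (fun x' => x' + Z x') p1.1 := analyticAt_id.add hZ
  rcases hW.eventually_constant_or_nhds_le_map_nhds with hc | hc
  · -- constant case
    have ht : Tendsto (fun ε : ℝ => p1.1 + (ε : ℂ) * Complex.I) (𝓝[>] 0) (𝓝 p1.1) := by
      have h1 : Continuous (fun ε : ℝ => p1.1 + (ε : ℂ) * Complex.I) := by fun_prop
      have h2 := h1.tendsto 0
      simp only [Complex.ofReal_zero, zero_mul, add_zero] at h2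
      exact h2.mono_left nhdsWithin_le_nhds
    have e1 : ∀ᶠ ε : ℝ in 𝓝[>] 0, p1.1.im + ε ≤ τ := by
      have h1 : Continuous (fun ε : ℝ => p1.1.im + ε) := by fun_prop
      have h2 := h1.tendsto 0
      rw [add_zero] at h2
      exact (h2.mono_left nhdsWithin_le_nhds).eventually_le_const hlt
    obtain ⟨ε, ⟨⟨h1, h2⟩, h3⟩, h4⟩ := (((ht.eventually hc).and (ht.eventually hev)).and e1 |>.and
      self_mem_nhdsWithin).exists
    have h4' : 0 < ε := h4
    set x' : ℂ := p1.1 + (ε : ℂ) * Complex.I with hx'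
    have him : x'.im = p1.1.im + ε := by simp [hx']
    have hre : x'.re = p1.1.re := by simp [hx']
    rw [hZx] at h1
    have h1r := congrArg Complex.re h1
    have h1i := congrArg Complex.im h1
    simp only [Complex.add_re, Complex.add_im] at h1r h1i
    obtain ⟨p, hpW, hpi, hps⟩ := exists_mem_Win hp hκ (τ := τ) h2 (by linarith) (by linarith)
      (by linarith) (by linarith)
    have h5 := hmax' p hpW (by linarith)
    linarith
  · -- open case
    have hN : {x' : ℂ | GG k μ Q P x' (Z x') ∧ |x'.im| < τ} ∈ 𝓝 p1.1 := by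
      have h1 : ∀ᶠ x' : ℂ in 𝓝 p1.1, |x'.im| < τ := by
        refine (isOpen_lt Complex.continuous_im.abs continuous_const).mem_nhds ?_
        show |p1.1.im| < τ
        rw [abs_of_nonneg hi0]
        exact hlt
      exact hev.and h1
    have hI := hc (Filter.image_mem_map hN)
    have ht : Tendsto (fun ε : ℝ => (p1.1 + Z p1.1) - (ε : ℂ)) (𝓝[>] 0) (𝓝 (p1.1 + Z p1.1)) := by
      have h1 : Continuous (fun ε : ℝ => (p1.1 + Z p1.1) - (ε : ℂ)) := by fun_prop
      have h2 := h1.tendsto 0
      simp only [Complex.ofReal_zero, sub_zero] at h2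
      exact h2.mono_left nhdsWithin_le_nhds
    obtain ⟨ε, h1, h4⟩ := ((ht.eventually hI).and self_mem_nhdsWithin).exists
    have h4' : 0 < ε := h4
    obtain ⟨x', ⟨hg', hxi⟩, hWx⟩ := h1
    have hWr := congrArg Complex.re hWx
    have hWi := congrArg Complex.im hWx
    rw [hZx] at hWr hWi
    simp only [Complex.add_re, Complex.add_im, Complex.sub_re, Complex.sub_im, Complex.ofReal_re,
      Complex.ofReal_im, sub_zero] at hWr hWi
    have hxi' := abs_lt.1 hxi
    rcases le_or_gt 0 x'.im with hx0 | hx0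
    · obtain ⟨p, hpW, hpi, hps⟩ := exists_mem_Win hp hκ (τ := τ) hg' hx0 hxi'.2.le
        (by linarith) (by linarith)
      have h5 := hmin' p hpW
      linarith
    · have hg2 := hg'.conj hp
      obtain ⟨p, hpW, hpi, hps⟩ := exists_mem_Win hp hκ (τ := τ) hg2
        (by rw [Complex.conj_im]; linarith) (by rw [Complex.conj_im]; linarith)
        (by rw [Complex.conj_im, Complex.conj_im]; linarith)
        (by rw [Complex.conj_re, Complex.conj_re]; linarith)
      rw [Complex.conj_re, Complex.conj_re] at hps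
      have h5 := hmin' p hpW
      linarith

end EQG
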