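import Pool.Agent.Lib.MP_226de1_co.G.Conseq

/-! Real line: `D > -μ²` for `t < ℓ/2` (compare `RealLine.lean`, `k = 2`). -/

set_option autoImplicit false

namespace EQG

open Complex Set Filter Topology
open EQ2 (dd dr xv ell pt NNS)

variable {k μ : ℝ} {F : ℕ → ℝ} {ly : ℂ → ℂ}

/-- `Er τ = -D(-τ)`; `rD F t = - Er F (exp (2t))` -/
noncomputable def Er (F : ℕ → ℝ) (τ : ℝ) : ℝ := - dr F (-τ)

theorem rD_eq_Er (t : ℝ) : rD F t = - Er F (Real.exp (2 * t)) := by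
  unfold rD Er
  rw [neg_neg]

/-- from `HF.feq_real` (`|Er| < 1` there) -/
theorem Er_feq' (h : HF k μ F) {τ : ℝ} (h0 : 0 ≤ τ) (h1 : τ < 1) :
    Er F (μ ^ 2 * τ) = 2 * μ * (μ - 1) - (μ ^ 2 - ST k μ (1 + Er F τ)) -
      Real.sqrt (ST k μ (1 + Er F τ) / (1 + Er F τ)) *
        (2 * (μ - 1) - Er F τ - (μ ^ 2 - ST k μ (1 + Er F (τ / μ ^ 2)))) := by
  have h2 := h.feq_real (t := -τ) (by rw [abs_neg, abs_of_nonneg h0]; exact h1)
  have e1 : μ ^ 2 * -τ = -(μ ^ 2 * τ) := by ring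
  have e2 : -τ / μ ^ 2 = -(τ / μ ^ 2) := by ring
  rw [e1, e2] at h2
  have g1 : ∀ d : ℝ, 1 - dr F (-d) = 1 + Er F d := fun d => by unfold Er; ring
  have h3 : Sr k μ (dr F (-τ)) = Real.sqrt (ST k μ (1 + Er F τ) / (1 + Er F τ)) := by
    unfold Sr
    rw [g1]
  have h4 : ∀ d : ℝ, psr k μ (dr F (-d)) = ST k μ (1 + Er F d) - μ ^ 2 := by
    intro d
    unfold psr
    rw [g1]
  rw [h3, h4, h4] at h2
  have e3 : dr F (-τ) = - Er F τ := by unfold Er; ring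
  have e5 : dr F (-(μ ^ 2 * τ)) = - Er F (μ ^ 2 * τ) := by unfold Er; ring
  rw [e3, e5] at h2
  linear_combination -h2

private theorem rg_Er_zero (h : HF k μ F) : Er F 0 = 0 := by
  have h1 := h.abs_dr_le (t := 0) (by simp)
  rw [abs_zero] at h1
  have h2 : dr F 0 = 0 := abs_eq_zero.1 (le_antisymm h1 (abs_nonneg _))
  unfold Er
  rw [neg_zero, h2, neg_zero]

private theorem rg_exp_log {τ : ℝ} (h0 : 0 < τ) : Real.exp (2 * (Real.log τ / 2)) = τ := by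
  rw [mul_div_cancel₀ _ two_ne_zero, Real.exp_log h0]

private theorem rg_lt {τ : ℝ} (h0 : 0 < τ) (h1 : τ < μ) : Real.log τ / 2 < ell μ / 2 := by
  have := Real.log_lt_log h0 h1
  unfold ell
  linarith

private theorem rg_Er_pos (h : HF k μ F) (hy : HY k μ F ly) {τ : ℝ} (h0 : 0 < τ) (h1 : τ < μ) :
    0 < Er F τ := by
  have h2 := rD_neg' h hy (rg_lt h0 h1)
  rw [rD_eq_Er, rg_exp_log h0] at h2
  linarith

/-- `τ < μ` iff `t < ℓ/2` -/
theorem Er_mono (h : HF k μ F) (hy : HY k μ F ly) : StrictMonoOn (Er F) (Set.Ico 0 μ) := by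
  intro a ha b hb hab
  have hb0 : 0 < b := lt_of_le_of_lt ha.1 hab
  rcases eq_or_lt_of_le ha.1 with h0 | h0
  · rw [← h0, rg_Er_zero h]
    exact rg_Er_pos h hy hb0 hb.2
  · have h2 := rD_strictAnti' h hy (rg_lt h0 ha.2) (rg_lt hb0 hb.2)
      (by have := Real.log_lt_log h0 hab; linarith)
    rw [rD_eq_Er, rD_eq_Er, rg_exp_log h0, rg_exp_log hb0] at h2
    linarith

theorem Er_nonneg (h : HF k μ F) (hy : HY k μ F ly) {τ : ℝ} (h0 : 0 ≤ τ) (h1 : τ < μ) :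
    0 ≤ Er F τ := by
  rcases eq_or_lt_of_le h0 with h2 | h2
  · rw [← h2, rg_Er_zero h]
  · exact (rg_Er_pos h hy h2 h1).le

theorem Er_le (h : HF k μ F) {τ : ℝ} (h0 : 0 ≤ τ) (h1 : τ ≤ 1) : Er F τ ≤ τ := by
  have h2 := h.abs_dr_le (t := -τ) (by rw [abs_neg, abs_of_nonneg h0]; exact h1)
  rw [abs_neg, abs_of_nonneg h0] at h2
  exact (neg_le_abs _).trans h2

/-- `X > 0` for `t ≤ 0` (`rX_pos`) -/
theorem Er_X (h : HF k μ F) (hy : HY k μ F ly) {τ : ℝ} (h0 : 0 ≤ τ) (h1 : τ ≤ 1) :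
    Er F τ + (μ ^ 2 - ST k μ (1 + Er F (τ / μ ^ 2))) < 2 * (μ - 1) := by
  have hμ := h.hμ
  rcases eq_or_lt_of_le h0 with h2 | h2
  · rw [← h2, zero_div, rg_Er_zero h, add_zero, ST_one h.hk h.hμ]
    linarith
  · have ht : Real.log τ / 2 ≤ 0 := by
      have := Real.log_nonpos h0 h1
      linarith
    have h3 := rX_pos h hy ht
    unfold rX at h3
    have e1 : rD F (Real.log τ / 2 - ell μ) = - Er F (τ / μ ^ 2) := by
      rw [rD_eq_Er]
      congr 2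
      have : 2 * (Real.log τ / 2 - ell μ) = Real.log τ - Real.log (μ ^ 2) := by
        rw [Real.log_pow]
        unfold ell
        push_cast
        ring
      rw [this, Real.exp_sub, Real.exp_log h2, Real.exp_log (by positivity)]
    have e2 : psr k μ (-Er F (τ / μ ^ 2)) = ST k μ (1 + Er F (τ / μ ^ 2)) - μ ^ 2 := by
      unfold psr
      rw [sub_neg_eq_add]
    rw [e1, e2, rD_eq_Er, rg_exp_log h2] at h3
    have h4 : 0 < 2 * (μ - 1) := by linarith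
    have h5 := mul_pos h4 h3
    have h6 : 2 * (μ - 1) * (1 + (-Er F τ + (ST k μ (1 + Er F (τ / μ ^ 2)) - μ ^ 2)) /
        (2 * (μ - 1))) = 2 * (μ - 1) - Er F τ + (ST k μ (1 + Er F (τ / μ ^ 2)) - μ ^ 2) := by
      have : 2 * (μ - 1) ≠ 0 := h4.ne'
      rw [mul_add, mul_div_cancel₀ _ this]
      ring
    rw [h6] at h5
    linarith

/-- `Er τ < μ²` for `τ < μ`.  Write `τ = m s`, `e = Er s ≤ s ≤ 1/μ`, `e' = Er (s/m) ≤ s/m ≤ 1/μ³`,
`X = 1 - (e + m - S(1+e'))/(2(μ-1)) > 0` (`Er_X`); `Er_feq'`: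
`Er τ = 2μ(μ-1) - (m - S(1+e)) - 2(μ-1) X sqrt(S(1+e)/(1+e))`, `m - S(1+e) ≥ 0`.
If `μ ≤ 2` then `Er τ < 2μ(μ-1) ≤ μ²`.  If `μ > 2`: `S(T) ≥ m/T` (`ST_ge`, `1 ≤ T ≤ m`), so
`sqrt(S(1+e)/(1+e)) ≥ μ/(1+e) ≥ μ²/(μ+1) ≥ μ - 1`, and `m - S(1+e') ≤ m - m/(1+e') ≤ m e' ≤ 1/μ`, so
`2(μ-1) X ≥ 2(μ-1) - 2/μ ≥ μ - 1`; hence the last term is `≥ (μ-1)² > μ(μ-2)`. -/
theorem Er_lt (h : HF k μ F) (hy : HY k μ F ly) {τ : ℝ} (h0 : 0 ≤ τ) (h1 : τ < μ) :
    Er F τ < μ ^ 2 := by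
  have hμ := h.hμ
  have hk := h.hk
  have hμ0 : 0 < μ := by linarith
  have hm : 0 < μ ^ 2 := by positivity
  have hm1 : 1 < μ ^ 2 := by nlinarith
  obtain ⟨s, hs⟩ : ∃ s : ℝ, s = τ / μ ^ 2 := ⟨_, rfl⟩
  have hτ : τ = μ ^ 2 * s := by
    rw [hs]
    field_simp
  have hs0 : 0 ≤ s := by rw [hs]; positivity
  have hsμ : μ * s ≤ 1 := by
    have h2 : μ * (μ * s) < μ * 1 := by
      calc μ * (μ * s) = τ := by rw [hτ]; ring
        _ < μ * 1 := by rw [mul_one]; exact h1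
    exact (lt_of_mul_lt_mul_left h2 hμ0.le).le
  have hs1 : s < 1 := by
    by_contra hc
    have h2 : μ * 1 ≤ μ * s := mul_le_mul_of_nonneg_left (not_lt.1 hc) hμ0.le
    linarith
  have hsm : s / μ ^ 2 ≤ s := div_le_self hs0 hm1.le
  have hsm0 : 0 ≤ s / μ ^ 2 := by positivity
  have e0 : 0 ≤ Er F s := Er_nonneg h hy hs0 (by linarith)
  have e0' : 0 ≤ Er F (s / μ ^ 2) := Er_nonneg h hy hsm0 (by linarith)
  have e1 : Er F s ≤ s := Er_le h hs0 hs1.le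
  have e2 : Er F (s / μ ^ 2) ≤ s / μ ^ 2 := Er_le h hsm0 (by linarith)
  have hX := Er_X h hy hs0 hs1.le
  have e3 : μ ^ 2 * Er F (s / μ ^ 2) ≤ s := by
    calc μ ^ 2 * Er F (s / μ ^ 2) ≤ μ ^ 2 * (s / μ ^ 2) := mul_le_mul_of_nonneg_left e2 hm.le
      _ = s := by field_simp
  rw [hτ, Er_feq' h hs0 hs1]
  generalize Er F s = e at *
  generalize Er F (s / μ ^ 2) = e' at *
  have hcT := cT_ge h.hk h.hk2 h.hμ
  have hS1 : 0 < ST k μ (1 + e) := ST_pos hk (by linarith) (by linarith)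
  have hSm : ST k μ (1 + e) ≤ μ ^ 2 := by
    rw [← ST_one hk hμ]
    exact (ST_strictAnti hk hμ).antitoneOn ⟨by linarith, by linarith⟩
      ⟨by linarith, by linarith⟩ (by linarith)
  have hq : 0 < ST k μ (1 + e) / (1 + e) := div_pos hS1 (by linarith)
  have hS : 0 < Real.sqrt (ST k μ (1 + e) / (1 + e)) := Real.sqrt_pos.2 hq
  have hY : 0 < 2 * (μ - 1) - e - (μ ^ 2 - ST k μ (1 + e')) := by linarith
  rcases le_or_gt μ 2 with h2 | h2
  · have h3 := mul_pos hS hY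
    have h4 : μ * (μ - 2) ≤ 0 := mul_nonpos_of_nonneg_of_nonpos hμ0.le (by linarith)
    nlinarith
  · have hs2 : s ≤ 1 / 2 := by
      have : 2 * s ≤ μ * s := mul_le_mul_of_nonneg_right h2.le hs0
      linarith
    have hm4 : 4 < μ ^ 2 := by nlinarith
    have he : μ * e ≤ 1 := (mul_le_mul_of_nonneg_left e1 hμ0.le).trans hsμ
    have h3 : μ - 1 ≤ Real.sqrt (ST k μ (1 + e) / (1 + e)) := by
      refine Real.le_sqrt_of_sq_le ?_
      have h4 : μ ^ 2 / (1 + e) ≤ ST k μ (1 + e) :=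
        ST_ge hk hμ (by linarith) (by linarith)
      have h5 : μ ^ 2 / (1 + e) / (1 + e) ≤ ST k μ (1 + e) / (1 + e) :=
        div_le_div_of_nonneg_right h4 (by linarith)
      refine le_trans ?_ h5
      rw [div_div, le_div_iff₀ (by positivity)]
      have h6 : (μ - 1) * (1 + e) ≤ μ := by nlinarith
      have h7 : 0 ≤ (μ - 1) * (1 + e) := mul_nonneg (by linarith) (by linarith)
      calc (μ - 1) ^ 2 * ((1 + e) * (1 + e)) = ((μ - 1) * (1 + e)) ^ 2 := by ring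
        _ ≤ μ ^ 2 := pow_le_pow_left₀ h7 h6 2
    have h4 : μ ^ 2 - ST k μ (1 + e') ≤ s := by
      have he'1 : e' ≤ 1 := by
        have : e' ≤ μ ^ 2 * e' := le_mul_of_one_le_left e0' hm1.le
        linarith
      have h5 : μ ^ 2 / (1 + e') ≤ ST k μ (1 + e') := ST_ge hk hμ (by linarith) (by linarith)
      have h6 : μ ^ 2 - μ ^ 2 * e' ≤ μ ^ 2 / (1 + e') := by
        rw [le_div_iff₀ (by linarith)]
        nlinarith [mul_nonneg hm.le (mul_nonneg e0' e0')]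
      linarith
    have h5 : μ - 1 ≤ 2 * (μ - 1) - e - (μ ^ 2 - ST k μ (1 + e')) := by linarith
    have h6 : (μ - 1) * (μ - 1) ≤
        Real.sqrt (ST k μ (1 + e) / (1 + e)) * (2 * (μ - 1) - e - (μ ^ 2 - ST k μ (1 + e'))) :=
      mul_le_mul h3 h5 (by linarith) hS.le
    nlinarith

theorem rD_gt (h : HF k μ F) (hy : HY k μ F ly) {t : ℝ} (ht : t < ell μ / 2) :
    -μ ^ 2 < rD F t := by
  have hμ0 : 0 < μ := by linarith [h.hμ]
  have h1 : Real.exp (2 * t) < μ := by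
    rw [← Real.lt_log_iff_exp_lt hμ0]
    unfold ell at ht
    linarith
  have h2 := Er_lt h hy (Real.exp_pos (2 * t)).le h1
  rw [rD_eq_Er]
  linarith

end EQG
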