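import Pool.Agent.Lib.MP_226de1_co.G.SqrtY

/-! Existence of `ly = log y`. -/

set_option autoImplicit false

namespace EQG

open Complex Set Filter Topology
open EQ2 (dd dr xv ell pt NNS)

variable {k μ : ℝ} {F : ℕ → ℝ}

private theorem ddN_zero (N : ℕ → ℝ) : dd N 0 = (N 0 : ℂ) := by
  unfold dd
  rw [tsum_eq_single 0]
  · simp
  · intro n hn
    simp [hn]

private theorem ddN_conj (N : ℕ → ℝ) (v : ℂ) :
    dd N ((starRingEnd ℂ) v) = (starRingEnd ℂ) (dd N v) := by
  unfold dd
  rw [Complex.conj_tsum]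
  simp

private theorem ddN_diff {N : ℕ → ℝ} {r : ℝ} (hN : ∀ n, 0 ≤ N n)
    (hs : ∀ v : ℂ, ‖v‖ < r → Summable (fun n => (N n : ℂ) * v ^ n)) :
    DifferentiableOn ℂ (dd N) (Metric.ball 0 r) := by
  intro v hv
  rw [mem_ball_zero_iff] at hv
  obtain ⟨ρ, h1, h2⟩ := exists_between hv
  have hρ : 0 < ρ := (norm_nonneg v).trans_lt h1
  have hsum : Summable (fun n => N n * ρ ^ n) := by
    have h3 := (hs (ρ : ℂ) (by rw [Complex.norm_real, Real.norm_of_nonneg hρ.le]; exact h2)).norm
    refine h3.congr fun n => ?_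
    rw [norm_mul, norm_pow, Complex.norm_real, Complex.norm_real, Real.norm_of_nonneg (hN n),
      Real.norm_of_nonneg hρ.le]
  have hd : DifferentiableOn ℂ (fun w : ℂ => ∑' n, (N n : ℂ) * w ^ n) (Metric.ball 0 ρ) := by
    refine differentiableOn_tsum_of_summable_norm hsum (fun n => ?_) Metric.isOpen_ball ?_
    · exact ((differentiable_const _).mul (differentiable_pow n)).differentiableOn
    · intro n w hw
      rw [mem_ball_zero_iff] at hw
      rw [norm_mul, norm_pow, Complex.norm_real, Real.norm_of_nonneg (hN n)]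
      exact mul_le_mul_of_nonneg_left (pow_le_pow_left₀ (norm_nonneg _) hw.le n) (hN n)
  exact ((hd v (mem_ball_zero_iff.mpr h1)).differentiableAt
    (Metric.isOpen_ball.mem_nhds (mem_ball_zero_iff.mpr h1))).differentiableWithinAt

/-- holomorphic logarithm on a disc -/
private theorem exists_logf {r : ℝ} (hr : 0 < r) {f : ℂ → ℂ}
    (hf : DifferentiableOn ℂ f (Metric.ball 0 r)) (hne : ∀ v ∈ Metric.ball (0 : ℂ) r, f v ≠ 0) :
    ∃ g : ℂ → ℂ, DifferentiableOn ℂ g (Metric.ball 0 r) ∧ g 0 = Complex.log (f 0) ∧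
      ∀ v ∈ Metric.ball (0 : ℂ) r, Complex.exp (g v) = f v := by
  have h0 : (0 : ℂ) ∈ Metric.ball (0 : ℂ) r := Metric.mem_ball_self hr
  have hd : DifferentiableOn ℂ (fun z => deriv f z / f z) (Metric.ball 0 r) :=
    (hf.deriv Metric.isOpen_ball).div hf hne
  obtain ⟨g, hg0, hg⟩ := hd.isExactOn_ball.with_val_at 0 (Complex.log (f 0))
  refine ⟨g, fun z hz => (hg z hz).differentiableAt.differentiableWithinAt, hg0, ?_⟩
  have hh : ∀ z ∈ Metric.ball (0 : ℂ) r, HasDerivAt (fun z => f z * Complex.exp (-g z)) 0 z := by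
    intro z hz
    have h1 : HasDerivAt f (deriv f z) z :=
      ((hf z hz).differentiableAt (Metric.isOpen_ball.mem_nhds hz)).hasDerivAt
    have h2 : HasDerivAt (fun z => Complex.exp (-g z))
        (Complex.exp (-g z) * (-(deriv f z / f z))) z := (hg z hz).neg.cexp
    have h3 := h1.mul h2
    have h4 : deriv f z * Complex.exp (-g z) +
        f z * (Complex.exp (-g z) * (-(deriv f z / f z))) = 0 := by
      have := hne z hz
      field_simp
      ring
    rwa [h4] at h3
  intro v hv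
  have h5 := Metric.isOpen_ball.is_const_of_deriv_eq_zero
    (convex_ball (0 : ℂ) r).isPreconnected
    (fun z hz => (hh z hz).differentiableAt.differentiableWithinAt)
    (fun z hz => (hh z hz).deriv) hv h0
  rw [hg0, Complex.exp_neg, Complex.exp_neg, Complex.exp_log (hne 0 h0),
    mul_inv_cancel₀ (hne 0 h0)] at h5
  have h6 := Complex.exp_ne_zero (g v)
  field_simp at h5
  exact h5.symm

/-- `-R = D + 2W + W²` with `W = X - 1` is given by a power series with nonnegative coefficients,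
zero constant term and positive linear term (`NNS` closure), on `|v| < μ²`. -/
theorem HF.negR_series (h : HF k μ F) : ∃ N : ℕ → ℝ, (∀ n, 0 ≤ N n) ∧ 0 < N 0 ∧
    ∀ v : ℂ, ‖v‖ < μ ^ 2 → Summable (fun n => (N n : ℂ) * v ^ n) ∧
      v * dd N v = - Rv k μ F v := by
  have hμ := h.hμ
  have hμ2 : 1 ≤ μ ^ 2 := by nlinarith
  have hμ2' : (0 : ℝ) < μ ^ 2 := by nlinarith
  have hW : NNS (μ ^ 2) (fun z => Xv k μ F z - 1) := h.NNS_X
  have hV := ((NNS.const (μ ^ 2) 2 (by norm_num)).mul hW).add (hW.mul hW)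
  obtain ⟨b, hb, hbs⟩ := hV
  have hRv : ∀ v : ℂ, ‖v‖ < μ ^ 2 →
      HasSum (fun n => ((F n + b n : ℝ) : ℂ) * v ^ n) (- Rv k μ F v) := by
    intro v hv
    have h1 := (h.hasSum hv).add (hbs v hv)
    have e1 : (fun n => ((F n + b n : ℝ) : ℂ) * v ^ n) =
        fun n => (F n : ℂ) * v ^ n + (b n : ℂ) * v ^ n := by
      funext n
      push_cast
      ring
    rw [e1]
    convert h1 using 1
    unfold Rv
    push_cast
    ring
  have h00 : F 0 + b 0 = 0 := by
    have h1 := hRv 0 (by simpa using hμ2')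
    have h2 : HasSum (fun n => ((F n + b n : ℝ) : ℂ) * (0 : ℂ) ^ n) ((F 0 + b 0 : ℝ) : ℂ) := by
      have h3 := hasSum_single (f := fun n => ((F n + b n : ℝ) : ℂ) * (0 : ℂ) ^ n) 0
        (fun n hn => by simp [hn])
      simpa using h3
    have h4 := h1.unique h2
    have h5 : Rv k μ F 0 = 0 := by
      unfold Rv
      rw [h.dd_zero, h.Xv_zero]
      ring
    rw [h5, neg_zero] at h4
    exact_mod_cast h4.symm
  refine ⟨fun n => F (n + 1) + b (n + 1), fun n => add_nonneg (h.nonneg _) (hb _), ?_, ?_⟩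
  · exact add_pos_of_pos_of_nonneg h.F1 (hb _)
  · intro v hv
    have h1 := hRv v hv
    have h2 : HasSum (fun n => ((F (n + 1) + b (n + 1) : ℝ) : ℂ) * v ^ (n + 1))
        (- Rv k μ F v) := by
      have h3 := (hasSum_nat_add_iff' 1).mpr h1
      rw [Finset.sum_range_one, h00, Complex.ofReal_zero, zero_mul, sub_zero] at h3
      exact h3
    have hsm : Summable (fun n => ((F (n + 1) + b (n + 1) : ℝ) : ℂ) * v ^ n) := by
      by_cases hv0 : v = 0
      · refine summable_of_ne_finset_zero (s := {0}) fun n hn => ?_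
        have : n ≠ 0 := by simpa using hn
        simp [hv0, this]
      · have h3 := h2.summable.mul_left v⁻¹
        refine h3.congr fun n => ?_
        rw [pow_succ]
        field_simp
    refine ⟨hsm, ?_⟩
    unfold dd
    rw [← tsum_mul_left, ← h2.tsum_eq]
    refine tsum_congr fun n => ?_
    ring

/-- `R(v) = S² R(v/μ²)` (`HF.Rv_feq`), so a zero `v ≠ 0` would give zeros `v/μ^{2j} → 0`. -/
theorem HF.N_ne (h : HF k μ F) {N : ℕ → ℝ} (hN : ∀ n, 0 ≤ N n) (hN0 : 0 < N 0)
    (hR : ∀ v : ℂ, ‖v‖ < μ ^ 2 → Summable (fun n => (N n : ℂ) * v ^ n) ∧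
      v * dd N v = - Rv k μ F v) {v : ℂ} (hv : ‖v‖ < μ ^ 2) : dd N v ≠ 0 := by
  intro hv0
  have hμ := h.hμ
  have hμ1 : 1 < μ ^ 2 := by nlinarith
  have hμ2 : (0 : ℝ) < μ ^ 2 := by linarith
  have hμC : ((μ : ℂ) ^ 2) ≠ 0 := by
    have : (μ : ℂ) ≠ 0 := by
      exact_mod_cast (by linarith : μ ≠ 0)
    exact pow_ne_zero 2 this
  have hnorm : ‖((μ : ℂ) ^ 2)‖ = μ ^ 2 := by
    rw [norm_pow, Complex.norm_real, Real.norm_eq_abs, sq_abs]
  have hdd0 : dd N 0 ≠ 0 := by
    rw [ddN_zero]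
    exact_mod_cast hN0.ne'
  have hvne : v ≠ 0 := by
    intro hc
    rw [hc] at hv0
    exact hdd0 hv0
  have hdiff := ddN_diff hN (fun v hv => (hR v hv).1)
  have key : ∀ i : ℕ, ‖v / ((μ : ℂ) ^ 2) ^ i‖ < μ ^ 2 ∧ dd N (v / ((μ : ℂ) ^ 2) ^ i) = 0 := by
    intro i
    induction i with
    | zero => simpa using ⟨hv, hv0⟩
    | succ i ih =>
      obtain ⟨h1, h2⟩ := ih
      set w := v / ((μ : ℂ) ^ 2) ^ i with hw
      have e1 : v / ((μ : ℂ) ^ 2) ^ (i + 1) = w / (μ : ℂ) ^ 2 := by
        rw [hw, pow_succ, div_div]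
      rw [e1]
      have h3 : ‖w / (μ : ℂ) ^ 2‖ < 1 := by
        rw [norm_div, hnorm, div_lt_one hμ2]
        exact h1
      refine ⟨h3.trans hμ1, ?_⟩
      have h4 := h.Rv_feq h3
      rw [mul_div_cancel₀ _ hμC] at h4
      have h5 : Rv k μ F w = 0 := by
        have := (hR w h1).2
        rw [h2, mul_zero] at this
        exact neg_eq_zero.mp this.symm
      rw [h5] at h4
      have h6 : Rv k μ F (w / (μ : ℂ) ^ 2) = 0 :=
        (mul_eq_zero.mp h4.symm).resolve_left (pow_ne_zero 2 (Sg_ne _ _ _))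
      have h7 := (hR _ (h3.trans hμ1)).2
      rw [h6, neg_zero] at h7
      refine (mul_eq_zero.mp h7).resolve_left ?_
      refine div_ne_zero ?_ hμC
      rw [hw]
      exact div_ne_zero hvne (pow_ne_zero _ hμC)
  have hlim : Tendsto (fun i : ℕ => v / ((μ : ℂ) ^ 2) ^ i) atTop (𝓝 0) := by
    rw [tendsto_zero_iff_norm_tendsto_zero]
    have e : (fun i : ℕ => ‖v / ((μ : ℂ) ^ 2) ^ i‖) = fun i => ‖v‖ * (1 / μ ^ 2) ^ i := by
      funext i
      rw [norm_div, norm_pow, hnorm, one_div, inv_pow, div_eq_mul_inv]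
    rw [e]
    have := (tendsto_pow_atTop_nhds_zero_of_lt_one (r := 1 / μ ^ 2) (by positivity)
      (by rw [div_lt_one hμ2]; exact hμ1)).const_mul ‖v‖
    simpa using this
  have hcont : ContinuousAt (dd N) 0 :=
    (hdiff 0 (Metric.mem_ball_self hμ2)).differentiableAt
      (Metric.isOpen_ball.mem_nhds (Metric.mem_ball_self hμ2)) |>.continuousAt
  have h8 : Tendsto (fun i : ℕ => dd N (v / ((μ : ℂ) ^ 2) ^ i)) atTop (𝓝 (dd N 0)) :=
    hcont.tendsto.comp hlim
  have h9 : (fun i : ℕ => dd N (v / ((μ : ℂ) ^ 2) ^ i)) = fun _ => 0 := by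
    funext i
    exact (key i).2
  rw [h9] at h8
  exact hdd0 (tendsto_nhds_unique h8 tendsto_const_nhds)

/-- two continuous functions with the same exponential which agree at one point agree -/
private theorem eq_of_exp_eq {s : Set ℂ} (hs : IsPreconnected s) {f g : ℂ → ℂ}
    (hf : ContinuousOn f s) (hg : ContinuousOn g s)
    (he : ∀ v ∈ s, Complex.exp (f v) = Complex.exp (g v)) {a : ℂ} (ha : a ∈ s)
    (h0 : f a = g a) : ∀ v ∈ s, f v = g v := by
  have hpi := Real.pi_pos
  set φ : ℂ → ℝ := fun v => (f v - g v).im / (2 * Real.pi) with hφd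
  have hφ : ContinuousOn φ s :=
    (Complex.continuous_im.comp_continuousOn (hf.sub hg)).div_const _
  have hint : ∀ v ∈ s, ∃ n : ℤ, f v = g v + n * (2 * Real.pi * I) := fun v hv =>
    Complex.exp_eq_exp_iff_exists_int.mp (he v hv)
  have hval : ∀ v : ℂ, ∀ n : ℤ, f v = g v + n * (2 * Real.pi * I) → φ v = n := by
    intro v n hn
    have e1 : f v - g v = (((n : ℝ) * (2 * Real.pi) : ℝ) : ℂ) * I := by
      rw [hn]
      push_cast
      ring
    rw [hφd]
    simp only
    rw [e1, Complex.im_ofReal_mul, Complex.I_im]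
    field_simp
  intro v hv
  obtain ⟨n, hn⟩ := hint v hv
  have hφa : φ a = 0 := by
    rw [hφd]
    simp [h0]
  have hφv : φ v = n := hval v n hn
  have hn0 : n = 0 := by
    by_contra hne
    rcases lt_or_gt_of_ne hne with hlt | hgt
    · have hn1 : (n : ℝ) ≤ -1 := by
        have : n ≤ -1 := by omega
        exact_mod_cast this
      obtain ⟨w, hw, hw'⟩ := hs.intermediate_value hv ha hφ
        (show (-1 / 2 : ℝ) ∈ Icc (φ v) (φ a) from ⟨by rw [hφv]; linarith, by rw [hφa]; norm_num⟩)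
      obtain ⟨m, hm⟩ := hint w hw
      rw [hval w m hm] at hw'
      have h2 : ((2 * m : ℤ) : ℝ) = ((-1 : ℤ) : ℝ) := by push_cast; linarith
      have h3 : 2 * m = -1 := by exact_mod_cast h2
      omega
    · have hn1 : (1 : ℝ) ≤ n := by
        have : 1 ≤ n := by omega
        exact_mod_cast this
      obtain ⟨w, hw, hw'⟩ := hs.intermediate_value ha hv hφ
        (show (1 / 2 : ℝ) ∈ Icc (φ a) (φ v) from ⟨by rw [hφa]; norm_num, by rw [hφv]; linarith⟩)
      obtain ⟨m, hm⟩ := hint w hw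
      rw [hval w m hm] at hw'
      have h2 : ((2 * m : ℤ) : ℝ) = ((1 : ℤ) : ℝ) := by push_cast; linarith
      have h3 : 2 * m = 1 := by exact_mod_cast h2
      omega
  rw [hn, hn0]
  simp

/-- `ly = (1/2) log (dd N)`: a holomorphic logarithm of the zero free function `dd N` on the disc
(simply connected), real at `0`.  `ly (conj v) = conj (ly v)` and
`log μ + ly (μ² v) = Lg (D v) + ly v`: both sides are continuous with the same exponential up to
sign..., precisely: `exp` of twice both sides agree (`Rv_feq`), so the difference is a constant in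
`π i ℤ` on the connected disc `|v| < 1`, and it is `0` at `v = 0` (`Lg_zero`). -/
theorem HF.exists_HY (h : HF k μ F) : ∃ ly : ℂ → ℂ, HY k μ F ly := by
  obtain ⟨N, hN, hN0, hR⟩ := h.negR_series
  have hk := h.hk
  have hk2 := h.hk2
  have hμ := h.hμ
  have hμ1 : 1 < μ ^ 2 := by nlinarith
  have hμ2 : (0 : ℝ) < μ ^ 2 := by linarith
  have hnorm : ‖((μ : ℂ) ^ 2)‖ = μ ^ 2 := by
    rw [norm_pow, Complex.norm_real, Real.norm_eq_abs, sq_abs]
  have hdiff := ddN_diff hN (fun v hv => (hR v hv).1)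
  have hne : ∀ v ∈ Metric.ball (0 : ℂ) (μ ^ 2), dd N v ≠ 0 := fun v hv =>
    h.N_ne hN hN0 hR (mem_ball_zero_iff.mp hv)
  obtain ⟨g, hg, hg0, hge⟩ := exists_logf hμ2 hdiff hne
  have hg0' : g 0 = ((Real.log (N 0) : ℝ) : ℂ) := by
    rw [hg0, ddN_zero, ← Complex.ofReal_log hN0.le]
  have h0mem : (0 : ℂ) ∈ Metric.ball (0 : ℂ) (μ ^ 2) := Metric.mem_ball_self hμ2
  have hconjmem : ∀ v ∈ Metric.ball (0 : ℂ) (μ ^ 2),
      (starRingEnd ℂ) v ∈ Metric.ball (0 : ℂ) (μ ^ 2) := by
    intro v hv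
    rw [mem_ball_zero_iff] at hv ⊢
    rwa [Complex.norm_conj]
  -- conjugation
  have hconj' : ∀ v ∈ Metric.ball (0 : ℂ) (μ ^ 2),
      (starRingEnd ℂ) (g ((starRingEnd ℂ) v)) = g v := by
    refine eq_of_exp_eq (convex_ball (0 : ℂ) (μ ^ 2)).isPreconnected ?_ hg.continuousOn ?_
      h0mem ?_
    · exact Complex.continuous_conj.comp_continuousOn
        (hg.continuousOn.comp Complex.continuous_conj.continuousOn hconjmem)
    · intro v hv
      rw [Complex.exp_conj, hge _ (hconjmem v hv), ddN_conj, Complex.conj_conj, hge v hv]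
    · simp only [map_zero]
      rw [hg0', Complex.conj_ofReal]
  have hmul : ∀ v ∈ Metric.ball (0 : ℂ) 1,
      (μ : ℂ) ^ 2 * v ∈ Metric.ball (0 : ℂ) (μ ^ 2) := by
    intro v hv
    rw [mem_ball_zero_iff] at hv ⊢
    rw [norm_mul, hnorm]
    nlinarith
  have hsub : ∀ v ∈ Metric.ball (0 : ℂ) 1, v ∈ Metric.ball (0 : ℂ) (μ ^ 2) := by
    intro v hv
    rw [mem_ball_zero_iff] at hv ⊢
    linarith
  have hLd : DifferentiableOn ℂ (fun v => Lg k μ (dd F v)) (Metric.ball (0 : ℂ) 1) := by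
    intro v hv
    have hv' := mem_ball_zero_iff.mp hv
    have h1 := Lg_differentiableAt hk hk2 hμ (h.adm hv')
    have h2 : DifferentiableAt ℂ (dd F) v :=
      (h.dd_differentiableOn v (hsub v hv)).differentiableAt
        (Metric.isOpen_ball.mem_nhds (hsub v hv))
    exact (h1.comp v h2).differentiableWithinAt
  have hfe : ∀ v ∈ Metric.ball (0 : ℂ) 1,
      2 * (Real.log μ : ℂ) + g ((μ : ℂ) ^ 2 * v) = 2 * Lg k μ (dd F v) + g v := by
    refine eq_of_exp_eq (convex_ball (0 : ℂ) 1).isPreconnected ?_ ?_ ?_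
      (Metric.mem_ball_self one_pos) ?_
    · exact continuousOn_const.add (hg.continuousOn.comp
        (continuousOn_const.mul continuousOn_id) hmul)
    · exact (continuousOn_const.mul hLd.continuousOn).add (hg.continuousOn.mono hsub)
    · intro v hv
      have e1 : Complex.exp (2 * (Real.log μ : ℂ)) = (μ : ℂ) ^ 2 := by
        have e3 : (2 * (Real.log μ : ℂ)) = ((2 : ℕ) : ℂ) * (Real.log μ : ℂ) := by norm_num
        rw [e3, Complex.exp_nat_mul, ← Complex.ofReal_exp, Real.exp_log (by linarith)]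
      have e2 : Complex.exp (2 * Lg k μ (dd F v)) = Sg k μ (dd F v) ^ 2 := by
        unfold Sg
        rw [← Complex.exp_nat_mul]
        norm_num
      rw [Complex.exp_add, Complex.exp_add, e1, e2, hge _ (hmul v hv), hge _ (hsub v hv)]
      by_cases hv0 : v = 0
      · rw [hv0, mul_zero, h.dd_zero]
        unfold Sg
        rw [Lg_zero hk hμ, ← Complex.ofReal_exp, Real.exp_log (by linarith)]
      · have hv' := mem_ball_zero_iff.mp hv
        have h1 := (hR _ (mem_ball_zero_iff.mp (hmul v hv))).2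
        have h2 := (hR _ (mem_ball_zero_iff.mp (hsub v hv))).2
        rw [h.Rv_feq hv'] at h1
        apply mul_left_cancel₀ hv0
        calc v * ((μ : ℂ) ^ 2 * dd N ((μ : ℂ) ^ 2 * v))
            = (μ : ℂ) ^ 2 * v * dd N ((μ : ℂ) ^ 2 * v) := by ring
          _ = Sg k μ (dd F v) ^ 2 * -Rv k μ F v := by rw [h1]; ring
          _ = v * (Sg k μ (dd F v) ^ 2 * dd N v) := by rw [← h2]; ring
    · simp only [mul_zero]
      rw [h.dd_zero, Lg_zero hk hμ]
  refine ⟨fun v => g v / 2, hg.div_const 2, ?_, ?_, ?_⟩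
  · intro v hv
    rw [mul_div_cancel₀ _ (two_ne_zero), hge v hv, (hR v (mem_ball_zero_iff.mp hv)).2]
  · intro v hv
    have h1 := hconj' _ (hconjmem v hv)
    rw [Complex.conj_conj] at h1
    rw [← h1, map_div₀]
    congr 1
    exact (Complex.conj_ofNat 2).symm
  · intro v hv
    have h1 := hfe v (mem_ball_zero_iff.mpr hv)
    linear_combination h1 / 2

end EQG
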